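import Mathlib
import Pool.Agent.Lib.MP_f9aece_nt_h97.OffDefs
import Pool.Agent.Lib.MP_f9aece_nt.LogSub

/-!
Statements of the modules of the project `UpToTwo` (uniform size of the moments of the zeta function
for exponents up to two).
-/

set_option autoImplicit false

namespace Pool.Agent.Lib.U2

open MeasureTheory Set Filter Topology Complex
open Pool.Agent.Lib.MP_f9aece_nt Pool.Agent.Lib.MP_f9aece_nt_h97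

/-- the moment over `[0,T]` on the critical line -/
noncomputable def M0 (k T : ℝ) : ℝ := ∫ t in (0 : ℝ)..T, ‖riemannZeta (1 / 2 + I * t)‖ ^ (2 * k)

/-! ### Main pieces -/

/-- upper bound, all exponents below two -/
def UpperAll : Prop := ∀ a0 : ℝ, 0 < a0 → ∃ T0 : ℝ, 3 ≤ T0 ∧ ∀ T : ℝ, T0 ≤ T → ∀ k : ℝ, 0 < k →
  k ≤ 1 - a0 → M0 k T ≤ T * (Real.log T ^ (k ^ 2) * Real.exp (20 * k + (Real.log T)⁻¹))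

/-- lower bound with a constant, all exponents up to two -/
def MidLower : Prop := ∃ c : ℝ, 0 < c ∧ ∃ T0 : ℝ, 3 ≤ T0 ∧ ∀ T : ℝ, T0 ≤ T → ∀ k : ℝ, 0 < k → k ≤ 1 →
  c * (T * Real.log T ^ (k ^ 2)) ≤ M0 k T

/-- lower bound with rate, small exponents -/
def SmallLower : Prop := ∃ C : ℝ, 0 ≤ C ∧ ∃ k1 : ℝ, 0 < k1 ∧ ∃ T0 : ℝ, 3 ≤ T0 ∧ ∀ T : ℝ, T0 ≤ T →
  ∀ k : ℝ, Real.log T ^ (-(1 / 8) : ℝ) ≤ k → k ≤ k1 →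
  (1 - C * k) * (T * Real.log T ^ (k ^ 2)) ≤ M0 k T

/-- both bounds near the second moment -/
def NearTwo : Prop := ∃ C c η : ℝ, 0 ≤ C ∧ 0 < c ∧ 0 < η ∧ ∀ x : ℝ, ∃ T0 : ℝ, ∀ β T : ℝ, |β - 2| ≤ η →
  T0 ≤ T → |Real.log (mom β x T / Real.log T ^ (β ^ 2 / 4))| ≤ C * (|β - 2| + Real.log T ^ (-c))

/-- the final statement -/
def UpToTwo : Prop := ∃ C c η : ℝ, 0 ≤ C ∧ 0 < c ∧ 0 < η ∧ ∀ x : ℝ, ∃ T0 : ℝ, ∀ β T : ℝ, 0 < β →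
  β ≤ 2 + η → T0 ≤ T →
  |Real.log (mom β x T / Real.log T ^ (β ^ 2 / 4))| ≤ C * (β * |β - 2| + Real.log T ^ (-c))

/-! ### Pieces of `MidLower` (on the critical line) -/

/-- first moment twisted by two Dirichlet polynomials -/
def FirstMom : Prop := ∃ C T0 : ℝ, 0 ≤ C ∧ 3 ≤ T0 ∧ ∀ T : ℝ, T0 ≤ T → ∀ (A B : DP) (H : ℝ), 1 ≤ H →
  (∀ n, A.coeff n ≠ 0 → 1 ≤ n ∧ (n : ℝ) ≤ H) → (∀ n, B.coeff n ≠ 0 → 1 ≤ n ∧ (n : ℝ) ≤ H) →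
  |(∫ t in (0 : ℝ)..T, (riemannZeta (1 / 2 + I * t) * ev t A * (starRingEnd ℂ) (ev t B)).re)
      - T * BK (Kcs 1) A B| ≤ C * (nrm A * nrm B) * H * T ^ (15 / 16 : ℝ)

/-- mean values of the tilting polynomial on the critical line, exponents up to one -/
def MeanB1 : Prop := ∃ (C : ℝ) (m0 : ℕ), 0 ≤ C ∧ ∀ m : ℕ, m0 ≤ m → ∃ Y0 : ℝ, 1 ≤ Y0 ∧ ∀ Y : ℝ, Y0 ≤ Y →
  ∀ J : ℕ, (J : ℝ) ≤ Y + 3 → ∀ k : ℝ, 0 < k → k ≤ 1 →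
  1 ≤ BK (K1s 1) (Bm m 2 k Y J) (Bm m 2 k Y J) ∧
  ∫ t in (0 : ℝ)..Real.exp (160 * m * Y), ‖ev t (Bm m 2 k Y J)‖ ^ 2
    ≤ 2 * (Real.exp (160 * m * Y) * BK (K1s 1) (Bm m 2 k Y J) (Bm m 2 k Y J)) ∧
  ∑ j ∈ Finset.range J, ∫ t in (0 : ℝ)..Real.exp (160 * m * Y), ‖ev t (Bm m 2 k Y J)‖ ^ 2
      * (‖Pj 2 Y (1 / 2) j t‖ / ((Mm m j : ℝ) / 10)) ^ (2 * Mm m j)
    ≤ C * ((1 / 2) ^ m + Real.exp (-Y))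
      * (Real.exp (160 * m * Y) * BK (K1s 1) (Bm m 2 k Y J) (Bm m 2 k Y J))

/-- the forms needed on the critical line -/
def MidForms : Prop := ∃ C1 : ℝ, 1 ≤ C1 ∧ ∀ m : ℕ, 4000 ≤ m → ∃ Y0 : ℝ, 1 ≤ Y0 ∧ ∀ Y : ℝ, Y0 ≤ Y →
  ∀ J : ℕ, (J : ℝ) ≤ Y + 3 → Y / 4 ^ J < Real.log 2 → ∀ k : ℝ, 0 < k → k ≤ 1 →
  Y ^ (k ^ 2) ≤ C1 * BK (K1s 1) (Bm m 2 k Y J) (Bm m 2 k Y J) ∧
  BK (K1s 1) (Bm m 2 k Y J) (Bm m 2 k Y J) ≤ C1 * BK (Kcs 1) (Dm m 2 (1 - k) Y J) (Bm m 2 k Y J) ∧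
  ∫ t in (0 : ℝ)..Real.exp (160 * m * Y), ‖riemannZeta (1 / 2 + I * t) * ev t (Dm m 2 (1 - k) Y J)‖ ^ 2
    ≤ C1 * m * (Real.exp (160 * m * Y) * BK (K1s 1) (Bm m 2 k Y J) (Bm m 2 k Y J))

/-- pointwise inequality on the critical line: `Q` is the large value weight, `x` the value of zeta -/
def MidPoint : Prop := ∀ m : ℕ, 4000 ≤ m → ∀ k : ℝ, 0 < k → k ≤ 1 → ∀ (Y : ℝ) (J : ℕ) (t K : ℝ), 1 ≤ K →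
  ∀ z : ℂ,
  (1 / K) * ((z * ev t (Dm m 2 (1 - k) Y J) * (starRingEnd ℂ) (ev t (Bm m 2 k Y J))).re
    - 2 / K * ‖z * ev t (Dm m 2 (1 - k) Y J)‖ ^ 2 - 1 / K * ‖ev t (Bm m 2 k Y J)‖ ^ 2
    - K * (‖ev t (Bm m 2 k Y J)‖ ^ 2
      * ∑ j ∈ Finset.range J, (‖Pj 2 Y (1 / 2) j t‖ / ((Mm m j : ℝ) / 10)) ^ (2 * Mm m j)))
  ≤ 16 * ‖z‖ ^ (2 * k)

/-! ### Pieces of `SmallLower` (to the right of the critical line) -/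

/-- the small prime sums at the point `s` -/
noncomputable def R0 (p0 : ℕ) (s : ℂ) : ℝ :=
  (∑ p ∈ Psm p0, ((p : ℂ) ^ (-s) + (1 / 2) * (p : ℂ) ^ (-(2 * s)))).re

/-- mean square of `zeta * D - B`, explicit in the parameters -/
def OffCoreRate : Prop := ∃ A : ℝ, 1 ≤ A ∧ ∀ η : ℝ, 0 < η → η ≤ 1 / 100 → ∃ (m p0 : ℕ) (Λ c : ℝ),
  4000 ≤ m ∧ 2 ≤ p0 ∧ (1 / 2 : ℝ) ^ m ≤ η / 4 ∧ 1 ≤ Λ ∧ 0 ≤ c ∧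
  (m : ℝ) ≤ A / η ∧ (p0 : ℝ) ≤ A / η ∧ Λ ≤ A / η ^ 2 ∧ c ≤ A / η ∧ ∀ Y : ℝ, A / η ^ 3 ≤ Y → ∀ J : ℕ,
  (J : ℝ) ≤ Y + 3 → Y / 4 ^ J < Real.log 2 → ∀ k : ℝ, 0 < k → k ≤ 1 / 100 →
  Λ / (160 * m * Y) ≤ 1 / 4 ∧
  (160 * m * Y / Λ) ^ (k ^ 2) * Real.exp (-(k ^ 2 * c) - η)
    ≤ BK (K1s (2 * (1 / 2 + Λ / (160 * m * Y)))) (Bm m p0 k Y J) (Bm m p0 k Y J) ∧
  ∫ t in (0 : ℝ)..Real.exp (160 * m * Y),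
    ‖riemannZeta (((1 / 2 + Λ / (160 * m * Y) : ℝ) : ℂ) + I * t)
        * evs (((1 / 2 + Λ / (160 * m * Y) : ℝ) : ℂ) + I * t) (Dm m p0 (1 - k) Y J)
      - evs (((1 / 2 + Λ / (160 * m * Y) : ℝ) : ℂ) + I * t) (Bm m p0 k Y J)‖ ^ 2
    ≤ η * (Real.exp (160 * m * Y)
      * BK (K1s (2 * (1 / 2 + Λ / (160 * m * Y)))) (Bm m p0 k Y J) (Bm m p0 k Y J))

/-- the small prime sum has small mean against the tilting polynomial -/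
def MeanR : Prop := ∃ A : ℝ, 1 ≤ A ∧ ∀ m p0 : ℕ, 4000 ≤ m → 1 ≤ p0 → ∀ Y : ℝ, 1 ≤ Y → A * (p0 : ℝ) ^ 2 ≤ Y →
  ∀ J : ℕ, (J : ℝ) ≤ Y + 3 → ∀ k : ℝ, 0 < k → k ≤ 1 / 100 → ∀ σ : ℝ, 1 / 2 ≤ σ → σ ≤ 3 / 4 →
  -(Real.exp (-Y) * (Real.exp (160 * m * Y) * BK (K1s (2 * σ)) (Bm m p0 k Y J) (Bm m p0 k Y J)))
    ≤ ∫ t in (0 : ℝ)..Real.exp (160 * m * Y), ‖evs (σ + I * t) (Bm m p0 k Y J)‖ ^ 2 * R0 p0 (σ + I * t)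

/-- integrated tilt with the small prime sum -/
def TiltR : Prop := ∀ m p0 : ℕ, 4000 ≤ m → 1 ≤ p0 → ∀ k : ℝ, 0 < k → k ≤ 1 / 4 →
  14 * k * Real.sqrt p0 ≤ 1 → ∀ (Y : ℝ) (J : ℕ) (σ : ℝ), 1 / 2 ≤ σ → σ < 1 → ∀ T : ℝ, 0 ≤ T →
  (1 - 2 * k) * Real.exp (-(4 * (1 / 2) ^ m) - 8 * k) *
      (∫ t in (0 : ℝ)..T, ‖evs (σ + I * t) (Bm m p0 k Y J)‖ ^ 2 * (1 + 2 * k * R0 p0 (σ + I * t)))
    - 3 * (∑ j ∈ Finset.range J, ∫ t in (0 : ℝ)..T, ‖evs (σ + I * t) (Bm m p0 k Y J)‖ ^ 2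
          * (‖Pj p0 Y σ j t‖ / ((Mm m j : ℝ) / 10)) ^ (2 * Mm m j))
    - 12 * ∫ t in (0 : ℝ)..T, ‖riemannZeta (σ + I * t) * evs (σ + I * t) (Dm m p0 (1 - k) Y J)
          - evs (σ + I * t) (Bm m p0 k Y J)‖ ^ 2
    ≤ ∫ t in (0 : ℝ)..T, ‖riemannZeta (σ + I * t)‖ ^ (2 * k)

end Pool.Agent.Lib.U2
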