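import Mathlib
import Pool.Agent.Lib.MP_f9aece_nt_u2.Stmts
import Pool.Agent.Lib.MP_f9aece_nt.Assemble
import Pool.Agent.Lib.MP_f9aece_nt_h97.TSM
import Pool.Agent.Lib.MP_f9aece_nt_h22.Sums

/-!
The first moment of zeta on the critical line, twisted by two Dirichlet polynomials.
-/

set_option autoImplicit false

namespace Pool.Agent.Lib.U2

open MeasureTheory Set Filter Topology Complex ComplexConjugate
open Pool.Agent.Lib.MP_f9aece_nt Pool.Agent.Lib.MP_f9aece_nt_h97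

namespace H22A1

lemma norm_cpow_le {n : ℕ} (hn : 1 ≤ n) (t : ℝ) : ‖(n : ℂ) ^ (-(1 / 2 + I * t : ℂ))‖ ≤ 1 := by
  rw [Complex.norm_natCast_cpow_of_pos hn]
  have : (-(1 / 2 + I * t : ℂ)).re = -(1 / 2) := by simp
  rw [this]
  refine Real.rpow_le_one_of_one_le_of_nonpos (by exact_mod_cast hn) (by norm_num)

lemma norm_ev_le {A : DP} (hA : ∀ n, A.coeff n ≠ 0 → 1 ≤ n) (t : ℝ) : ‖ev t A‖ ≤ nrm A := by
  rw [ev_apply]
  refine (norm_sum_le _ _).trans (Finset.sum_le_sum fun a ha => ?_)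
  rw [norm_mul, Complex.norm_real, Real.norm_eq_abs]
  have h1 := norm_cpow_le (hA a (Finsupp.mem_support_iff.mp ha)) t
  nlinarith [abs_nonneg (A.coeff a)]

lemma osc {lam x y : ℝ} (hl : lam ≠ 0) :
    ‖∫ t in x..y, cexp ((lam : ℂ) * t * I)‖ ≤ 2 / |lam| := by
  have hc : (lam : ℂ) * I ≠ 0 := mul_ne_zero (by exact_mod_cast hl) I_ne_zero
  have h1 : (∫ t in x..y, cexp ((lam : ℂ) * t * I)) = ∫ t in x..y, cexp (((lam : ℂ) * I) * t) := by
    refine intervalIntegral.integral_congr fun t _ => ?_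
    congr 1
    ring
  rw [h1, integral_exp_mul_complex hc, norm_div]
  have e1 : ‖(lam : ℂ) * I‖ = |lam| := by simp
  rw [e1]
  have h2 : ∀ u : ℝ, ‖cexp ((lam : ℂ) * I * u)‖ = 1 := by
    intro u
    have : (lam : ℂ) * I * u = ((lam * u : ℝ) : ℂ) * I := by push_cast; ring
    rw [this, Complex.norm_exp_ofReal_mul_I]
  have h3 := norm_sub_le (cexp ((lam : ℂ) * I * y)) (cexp ((lam : ℂ) * I * x))
  rw [h2, h2] at h3
  gcongr
  linarith

/-- distinct natural numbers have separated logarithms -/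
lemma log_sep {u v : ℕ} (hu : 1 ≤ u) (hv : 1 ≤ v) (huv : u ≠ v) {H : ℝ} (hH : 1 ≤ H) (hvH : (v : ℝ) ≤ H) :
    1 / (2 * H) ≤ |Real.log v - Real.log u| := by
  have hu0 : (0 : ℝ) < u := by exact_mod_cast hu
  have hv0 : (0 : ℝ) < v := by exact_mod_cast hv
  have key : ∀ a b : ℝ, 0 < a → 0 < b → a + 1 ≤ b → (a ≤ H) → 1 / (2 * H) ≤ Real.log b - Real.log a := by
    intro a b ha hb hab haH
    rw [← Real.log_div hb.ne' ha.ne']
    have h1 := Real.one_sub_inv_le_log_of_pos (x := b / a) (by positivity)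
    have h2 : (b / a)⁻¹ ≤ a / (a + 1) := by
      rw [inv_div]
      gcongr
    have h3 : 1 / (2 * H) ≤ 1 - a / (a + 1) := by
      have : 1 - a / (a + 1) = 1 / (a + 1) := by field_simp; ring
      rw [this]
      apply one_div_le_one_div_of_le (by linarith)
      linarith
    linarith
  rcases lt_or_gt_of_ne huv with h | h
  · have h1 : (u : ℝ) + 1 ≤ v := by exact_mod_cast h
    rw [abs_of_nonneg]
    · exact key u v hu0 hv0 h1 (by linarith)
    · have := Real.log_le_log hu0 (by linarith : (u : ℝ) ≤ v)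
      linarith
  · have h1 : (v : ℝ) + 1 ≤ u := by exact_mod_cast h
    rw [abs_sub_comm, abs_of_nonneg]
    · exact key v u hv0 hu0 h1 hvH
    · have := Real.log_le_log hv0 (by linarith : (v : ℝ) ≤ u)
      linarith

/-- the integral of one term -/
lemma term_int {u v : ℕ} (hu : 1 ≤ u) (hv : 1 ≤ v) {H : ℝ} (hH : 1 ≤ H) (hvH : (v : ℝ) ≤ H) (x y : ℝ) :
    ‖(∫ t in x..y, (u : ℂ) ^ (-(1 / 2 + I * t : ℂ)) * conj ((v : ℂ) ^ (-(1 / 2 + I * t : ℂ))))
        - ((if u = v then (y - x) * (v : ℝ)⁻¹ else 0 : ℝ) : ℂ)‖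
      ≤ (u : ℝ) ^ (-(1 / 2) : ℝ) * (4 * H) := by
  have hu0 : (0 : ℝ) < u := by exact_mod_cast hu
  have hv0 : (0 : ℝ) < v := by exact_mod_cast hv
  simp_rw [term_eq hu hv]
  rw [intervalIntegral.integral_const_mul]
  split_ifs with h
  · subst h
    have h1 : (∫ t in x..y, cexp (((Real.log u - Real.log u : ℝ) : ℂ) * t * I)) = ((y - x : ℝ) : ℂ) := by
      simp
    rw [h1, ← Real.rpow_add hu0]
    have : (-(1 / 2) + -(1 / 2) : ℝ) = -1 := by norm_num
    rw [this, Real.rpow_neg_one]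
    have e : (((u : ℝ)⁻¹ : ℝ) : ℂ) * ((y - x : ℝ) : ℂ) - (((y - x) * (u : ℝ)⁻¹ : ℝ) : ℂ) = 0 := by
      push_cast; ring
    rw [e, norm_zero]
    positivity
  · have hsep := log_sep hu hv h hH hvH
    have hne : Real.log v - Real.log u ≠ 0 := by
      intro h0
      rw [h0, abs_zero] at hsep
      have : 0 < 1 / (2 * H) := by positivity
      linarith
    have h1 := osc (x := x) (y := y) hne
    have h2 : 2 / |Real.log v - Real.log u| ≤ 4 * H := by
      rw [div_le_iff₀ (abs_pos.mpr hne)]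
      have := mul_le_mul_of_nonneg_left hsep (by positivity : 0 ≤ 4 * H)
      have e : 4 * H * (1 / (2 * H)) = 2 := by field_simp; norm_num
      linarith
    simp only [ofReal_zero, sub_zero]
    rw [norm_mul, Complex.norm_real, Real.norm_eq_abs, abs_of_nonneg (by positivity)]
    have h3 : (v : ℝ) ^ (-(1 / 2) : ℝ) ≤ 1 :=
      Real.rpow_le_one_of_one_le_of_nonpos (by exact_mod_cast hv) (by norm_num)
    have h4 : 0 ≤ (v : ℝ) ^ (-(1 / 2) : ℝ) := by positivity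
    have h5 : 0 ≤ (u : ℝ) ^ (-(1 / 2) : ℝ) := by positivity
    calc (u : ℝ) ^ (-(1 / 2) : ℝ) * (v : ℝ) ^ (-(1 / 2) : ℝ)
          * ‖∫ t in x..y, cexp (((Real.log v - Real.log u : ℝ) : ℂ) * t * I)‖
        ≤ (u : ℝ) ^ (-(1 / 2) : ℝ) * 1 * (4 * H) := by
          gcongr
          exact h1.trans h2
      _ = _ := by ring

lemma sum_rpow (N : ℕ) : ∑ n ∈ Finset.Icc 1 N, (n : ℝ) ^ (-(1 / 2) : ℝ) ≤ 2 * Real.sqrt N := by
  refine le_trans (le_of_eq (Finset.sum_congr rfl fun n hn => ?_))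
    (Pool.Agent.Lib.MP_f9aece_nt_h22.sum_inv_sqrt N)
  rw [Real.rpow_neg (Nat.cast_nonneg n), Real.sqrt_eq_rpow]

lemma first_short : ∃ C T0 : ℝ, 0 ≤ C ∧ 3 ≤ T0 ∧ ∀ T : ℝ, T0 ≤ T →
    ∫ t in (0 : ℝ)..T ^ (7 / 8 : ℝ), ‖riemannZeta (1 / 2 + I * t)‖ ≤ C * T ^ (15 / 16 : ℝ) := by
  obtain ⟨C, T0, hC, hT0, h⟩ := tsm (ε := 1) one_pos le_rfl
  refine ⟨17 + 2 * C, max 3 (T0 ^ (8 / 7 : ℝ)), by linarith, le_max_left _ _, ?_⟩
  intro T hT
  have hT3 : 3 ≤ T := (le_max_left _ _).trans hT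
  have hTpos : 0 < T := by linarith
  have hTT : T0 ^ (8 / 7 : ℝ) ≤ T := (le_max_right _ _).trans hT
  have hT0pos : 0 < T0 := by linarith
  set U : ℝ := T ^ (7 / 8 : ℝ) with hU
  have hU0 : 0 < U := by positivity
  have hUT : T0 ≤ U := by
    have h1 : (T0 ^ (8 / 7 : ℝ)) ^ (7 / 8 : ℝ) ≤ T ^ (7 / 8 : ℝ) :=
      Real.rpow_le_rpow (by positivity) hTT (by norm_num)
    rw [← Real.rpow_mul hT0pos.le] at h1
    norm_num at h1
    exact h1
  have h1 := h U hUT 1 1 le_rfl (by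
    intro n hn
    rw [MonoidAlgebra.one_def, MonoidAlgebra.coeff_single, Finsupp.single_apply] at hn
    have : 1 = n := by
      by_contra hne
      rw [if_neg hne] at hn
      exact hn rfl
    subst this
    simp)
  have e1 : BK K2 (1 : DP) 1 = 1 := by
    rw [MonoidAlgebra.one_def, BK_single]
    simp [K2]
  have e2 : BK KL (1 : DP) 1 = 0 := by
    rw [MonoidAlgebra.one_def, BK_single]
    simp [KL, Kl, Kg]
  have e3 : nrm (1 : DP) = 1 := by
    rw [nrm, MonoidAlgebra.one_def, MonoidAlgebra.coeff_single,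
      Finsupp.support_single _ one_ne_zero]
    simp
  rw [e1, e2, e3] at h1
  simp only [map_one, mul_one, abs_one, abs_zero, add_zero, one_pow] at h1
  have hU1 : 1 ≤ U := hT0.trans hUT
  have h2 : C / U ^ (1 / 16 : ℝ) ≤ C :=
    div_le_self hC (Real.one_le_rpow hU1 (by norm_num))
  have h3 : Real.log U ≤ 8 * T ^ (1 / 8 : ℝ) := by
    have e : Real.log U = 7 / 8 * Real.log T := by rw [hU, Real.log_rpow hTpos]
    have h4 := Real.log_le_rpow_div hTpos.le (by norm_num : (0 : ℝ) < 1 / 8)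
    have h5 : 0 ≤ Real.log T := Real.log_nonneg (by linarith)
    rw [e]
    have : T ^ (1 / 8 : ℝ) / (1 / 8) = 8 * T ^ (1 / 8 : ℝ) := by ring
    rw [this] at h4
    linarith
  have h18 : 1 ≤ T ^ (1 / 8 : ℝ) := Real.one_le_rpow (by linarith) (by norm_num)
  have h6 : ∫ t in (0 : ℝ)..U, ‖riemannZeta (1 / 2 + I * t)‖ ^ 2
      ≤ U * (T ^ (1 / 8 : ℝ) * (16 + 2 * C)) := by
    refine h1.trans ?_
    gcongr
    nlinarith
  set e : ℝ := T ^ (-(1 / 16) : ℝ) with he
  have he0 : 0 < e := by positivity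
  have hcont : Continuous (fun t : ℝ => ‖riemannZeta (1 / 2 + I * t)‖) := continuous_zeta.norm
  have h7 : ∫ t in (0 : ℝ)..U, ‖riemannZeta (1 / 2 + I * t)‖
      ≤ ∫ t in (0 : ℝ)..U, (e * ‖riemannZeta (1 / 2 + I * t)‖ ^ 2 + e⁻¹) := by
    refine intervalIntegral.integral_mono_on hU0.le (hcont.intervalIntegrable _ _)
      (((hcont.pow 2).const_mul e).add continuous_const |>.intervalIntegrable _ _) fun t _ => ?_
    set z := ‖riemannZeta (1 / 2 + I * t)‖
    have : 0 ≤ e⁻¹ * ((e * z - 1) ^ 2 + e * z) := by positivity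
    have e9 : e⁻¹ * ((e * z - 1) ^ 2 + e * z) = e * z ^ 2 - z + e⁻¹ := by field_simp; ring
    linarith
  have hi : IntervalIntegrable (fun t : ℝ => e * ‖riemannZeta (1 / 2 + I * t)‖ ^ 2) volume 0 U :=
    (continuous_const.mul (hcont.pow 2)).intervalIntegrable _ _
  rw [intervalIntegral.integral_add hi
    (continuous_const.intervalIntegrable _ _), intervalIntegral.integral_const_mul,
    intervalIntegral.integral_const, smul_eq_mul, sub_zero] at h7
  have h8 : e * (∫ t in (0 : ℝ)..U, ‖riemannZeta (1 / 2 + I * t)‖ ^ 2)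
      ≤ e * (U * (T ^ (1 / 8 : ℝ) * (16 + 2 * C))) := by gcongr
  have e10 : e * (U * (T ^ (1 / 8 : ℝ) * (16 + 2 * C))) = (16 + 2 * C) * T ^ (15 / 16 : ℝ) := by
    have : T ^ (15 / 16 : ℝ) = e * U * T ^ (1 / 8 : ℝ) := by
      rw [he, hU, ← Real.rpow_add hTpos, ← Real.rpow_add hTpos]
      norm_num
    rw [this]; ring
  have e11 : U * e⁻¹ = T ^ (15 / 16 : ℝ) := by
    rw [he, ← Real.rpow_neg hTpos.le, hU, ← Real.rpow_add hTpos]
    norm_num
  rw [e10] at h8
  rw [e11] at h7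
  linarith

/-- the diagonal terms -/
lemma diag_sum {N a b : ℕ} (ha : 1 ≤ a) (hb : 1 ≤ b) {T U : ℝ} (hU0 : 1 ≤ U) (hN : T ≤ 2 * N)
    (hT : 0 < T) (hN1 : 1 ≤ N) :
    |(∑ n ∈ Finset.Icc 1 N, if n * a = b then (T - U) * (b : ℝ)⁻¹ else 0) - T * Kcs 1 a b| ≤ 3 * U := by
  classical
  have hb0 : (1 : ℝ) ≤ b := by exact_mod_cast hb
  unfold Kcs
  rw [Real.rpow_neg_one]
  by_cases hd : a ∣ b
  · obtain ⟨q, rfl⟩ := hd
    rw [if_pos (dvd_mul_right _ _)]
    have hq : 1 ≤ q := by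
      rcases Nat.eq_zero_or_pos q with h | h
      · subst h; simp at hb
      · exact h
    have e : ∀ n, (n * a = a * q) ↔ n = q := by
      intro n
      rw [mul_comm n a]
      constructor
      · intro h; exact Nat.eq_of_mul_eq_mul_left (by omega) h
      · rintro rfl; rfl
    simp_rw [e]
    rw [Finset.sum_ite_eq']
    by_cases hqN : q ≤ N
    · rw [if_pos (by rw [Finset.mem_Icc]; exact ⟨hq, hqN⟩)]
      have : (T - U) * ((a * q : ℕ) : ℝ)⁻¹ - T * ((a * q : ℕ) : ℝ)⁻¹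
          = -(U * ((a * q : ℕ) : ℝ)⁻¹) := by ring
      rw [this, abs_neg, abs_of_nonneg (by positivity)]
      have h2 : ((a * q : ℕ) : ℝ)⁻¹ ≤ 1 := inv_le_one_of_one_le₀ hb0
      have h3 : 0 ≤ ((a * q : ℕ) : ℝ)⁻¹ := by positivity
      nlinarith
    · rw [if_neg (by rw [Finset.mem_Icc]; omega), zero_sub, abs_neg, abs_of_nonneg (by positivity)]
      have h2 : (N : ℝ) ≤ ((a * q : ℕ) : ℝ) := by
        have : N ≤ a * q := by nlinarith
        exact_mod_cast this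
      have hN0 : (0 : ℝ) < N := by exact_mod_cast hN1
      rw [← div_eq_mul_inv, div_le_iff₀ (by linarith)]
      nlinarith
  · have h1 : ∀ n ∈ Finset.Icc 1 N, (if n * a = b then (T - U) * (b : ℝ)⁻¹ else 0) = 0 := by
      intro n _
      rw [if_neg]
      intro h
      exact hd ⟨n, by rw [← h, mul_comm]⟩
    rw [Finset.sum_eq_zero h1, if_neg hd]
    simp
    linarith

/-- expansion of the product -/
lemma expand (N : ℕ) {A B : DP} (t : ℝ) :
    ev t (ZP N) * ev t A * conj (ev t B)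
      = ∑ n ∈ Finset.Icc 1 N, ∑ a ∈ A.coeff.support, ∑ b ∈ B.coeff.support,
        ((A.coeff a * B.coeff b : ℝ) : ℂ) *
          (((n * a : ℕ) : ℂ) ^ (-(1 / 2 + I * t : ℂ)) * conj ((b : ℂ) ^ (-(1 / 2 + I * t : ℂ)))) := by
  rw [ev_ZP, ev_apply, ev_apply, map_sum, Finset.sum_mul_sum, Finset.sum_mul]
  refine Finset.sum_congr rfl fun n _ => ?_
  rw [Finset.sum_mul]
  refine Finset.sum_congr rfl fun a _ => ?_
  rw [Finset.mul_sum]
  refine Finset.sum_congr rfl fun b _ => ?_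
  rw [map_mul, Complex.conj_ofReal]
  push_cast
  rw [Complex.natCast_mul_natCast_cpow]
  ring

/-- the long part -/
lemma first_long {A B : DP} {H : ℝ} (hH : 1 ≤ H) (hA : ∀ n, A.coeff n ≠ 0 → 1 ≤ n)
    (hB : ∀ n, B.coeff n ≠ 0 → 1 ≤ n ∧ (n : ℝ) ≤ H) {N : ℕ} (hN1 : 1 ≤ N) {T U : ℝ} (hU0 : 1 ≤ U)
    (hN : T ≤ 2 * N) (hT : 0 < T) :
    |(∫ t in U..T, ev t (ZP N) * ev t A * conj (ev t B)).re - T * BK (Kcs 1) A B|
      ≤ nrm A * nrm B * (8 * H * Real.sqrt N + 3 * U) := by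
  classical
  set s : Finset (ℕ × ℕ × ℕ) := Finset.Icc 1 N ×ˢ (A.coeff.support ×ˢ B.coeff.support) with hs
  set I : ℕ × ℕ × ℕ → ℂ := fun x => ∫ t in U..T,
    ((x.1 * x.2.1 : ℕ) : ℂ) ^ (-(1 / 2 + Complex.I * t : ℂ)) * conj ((x.2.2 : ℂ) ^ (-(1 / 2 + Complex.I * t : ℂ)))
    with hI
  have hmem : ∀ x ∈ s, 1 ≤ x.1 ∧ 1 ≤ x.2.1 ∧ 1 ≤ x.2.2 ∧ (x.2.2 : ℝ) ≤ H := by
    intro x hx
    rw [hs, Finset.mem_product, Finset.mem_product, Finset.mem_Icc] at hx
    have h2 := hB _ (Finsupp.mem_support_iff.mp hx.2.2)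
    exact ⟨hx.1.1, hA _ (Finsupp.mem_support_iff.mp hx.2.1), h2.1, h2.2⟩
  have e1 : (∫ t in U..T, ev t (ZP N) * ev t A * conj (ev t B))
      = ∑ x ∈ s, ((A.coeff x.2.1 * B.coeff x.2.2 : ℝ) : ℂ) * I x := by
    have h1 : ∀ t : ℝ, ev t (ZP N) * ev t A * conj (ev t B) = ∑ x ∈ s,
        ((A.coeff x.2.1 * B.coeff x.2.2 : ℝ) : ℂ) * (((x.1 * x.2.1 : ℕ) : ℂ) ^ (-(1 / 2 + Complex.I * t : ℂ))
          * conj ((x.2.2 : ℂ) ^ (-(1 / 2 + Complex.I * t : ℂ)))) := by
      intro t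
      rw [expand, hs, Finset.sum_product]
      refine Finset.sum_congr rfl fun n _ => ?_
      rw [Finset.sum_product]
    simp_rw [h1]
    rw [intervalIntegral.integral_finsetSum]
    · refine Finset.sum_congr rfl fun x _ => ?_
      rw [intervalIntegral.integral_const_mul]
    · intro x hx
      obtain ⟨h2, h3, h4, _⟩ := hmem x hx
      exact ((continuous_term (by nlinarith : 1 ≤ x.1 * x.2.1) h4).const_mul _).intervalIntegrable _ _
  set Dg : ℕ × ℕ × ℕ → ℝ := fun x => if x.1 * x.2.1 = x.2.2 then (T - U) * (x.2.2 : ℝ)⁻¹ else 0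
    with hDg
  -- replace the integrals by their main terms
  have h1 : ‖(∑ x ∈ s, ((A.coeff x.2.1 * B.coeff x.2.2 : ℝ) : ℂ) * I x)
      - ((∑ x ∈ s, A.coeff x.2.1 * B.coeff x.2.2 * Dg x : ℝ) : ℂ)‖
      ≤ nrm A * nrm B * (8 * H * Real.sqrt N) := by
    have h2 : (∑ x ∈ s, ((A.coeff x.2.1 * B.coeff x.2.2 : ℝ) : ℂ) * I x)
      - ((∑ x ∈ s, A.coeff x.2.1 * B.coeff x.2.2 * Dg x : ℝ) : ℂ)
      = ∑ x ∈ s, ((A.coeff x.2.1 * B.coeff x.2.2 : ℝ) : ℂ) * (I x - (Dg x : ℂ)) := by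
      rw [Complex.ofReal_sum, ← Finset.sum_sub_distrib]
      refine Finset.sum_congr rfl fun x _ => ?_
      push_cast
      ring
    rw [h2]
    have h3 : ∀ x ∈ s, ‖((A.coeff x.2.1 * B.coeff x.2.2 : ℝ) : ℂ) * (I x - (Dg x : ℂ))‖
        ≤ (x.1 : ℝ) ^ (-(1 / 2) : ℝ) * (|A.coeff x.2.1| * (|B.coeff x.2.2| * (4 * H))) := by
      intro x hx
      obtain ⟨g1, g2, g3, g4⟩ := hmem x hx
      have g5 := term_int (u := x.1 * x.2.1) (by nlinarith) g3 hH g4 U T
      rw [norm_mul, Complex.norm_real, Real.norm_eq_abs, abs_mul]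
      have g6 : ((x.1 * x.2.1 : ℕ) : ℝ) ^ (-(1 / 2) : ℝ) ≤ (x.1 : ℝ) ^ (-(1 / 2) : ℝ) := by
        refine Real.rpow_le_rpow_of_nonpos (by exact_mod_cast g1) ?_ (by norm_num)
        exact_mod_cast Nat.le_mul_of_pos_right _ g2
      calc |A.coeff x.2.1| * |B.coeff x.2.2| * ‖I x - (Dg x : ℂ)‖
          ≤ |A.coeff x.2.1| * |B.coeff x.2.2| * ((x.1 : ℝ) ^ (-(1 / 2) : ℝ) * (4 * H)) := by
            gcongr
            refine g5.trans ?_
            gcongr
        _ = _ := by ring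
    refine (norm_sum_le _ _).trans ((Finset.sum_le_sum h3).trans ?_)
    have h4 : ∑ x ∈ s, (x.1 : ℝ) ^ (-(1 / 2) : ℝ) * (|A.coeff x.2.1| * (|B.coeff x.2.2| * (4 * H)))
        = (∑ n ∈ Finset.Icc 1 N, (n : ℝ) ^ (-(1 / 2) : ℝ)) * (nrm A * (nrm B * (4 * H))) := by
      rw [hs, Finset.sum_product, Finset.sum_mul]
      refine Finset.sum_congr rfl fun n _ => ?_
      rw [Finset.sum_product, nrm, nrm, Finset.sum_mul, Finset.mul_sum]
      refine Finset.sum_congr rfl fun a _ => ?_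
      rw [Finset.sum_mul, Finset.mul_sum, Finset.mul_sum]
    rw [h4]
    have h5 := sum_rpow N
    have h6 := nrm_nonneg A
    have h7 := nrm_nonneg B
    calc (∑ n ∈ Finset.Icc 1 N, (n : ℝ) ^ (-(1 / 2) : ℝ)) * (nrm A * (nrm B * (4 * H)))
        ≤ (2 * Real.sqrt N) * (nrm A * (nrm B * (4 * H))) := by gcongr
      _ = _ := by ring
  -- the diagonal
  have h2 : |(∑ x ∈ s, A.coeff x.2.1 * B.coeff x.2.2 * Dg x) - T * BK (Kcs 1) A B|
      ≤ nrm A * nrm B * (3 * U) := by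
    have e2 : (∑ x ∈ s, A.coeff x.2.1 * B.coeff x.2.2 * Dg x)
        = ∑ a ∈ A.coeff.support, ∑ b ∈ B.coeff.support, A.coeff a * B.coeff b
          * ∑ n ∈ Finset.Icc 1 N, Dg (n, a, b) := by
      rw [hs, Finset.sum_product, Finset.sum_comm' (s := Finset.Icc 1 N) (t' := A.coeff.support ×ˢ B.coeff.support)
        (s' := fun _ => Finset.Icc 1 N) (by intro x y; tauto), Finset.sum_product]
      refine Finset.sum_congr rfl fun a _ => Finset.sum_congr rfl fun b _ => ?_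
      rw [Finset.mul_sum]
    have e3 : T * BK (Kcs 1) A B = ∑ a ∈ A.coeff.support, ∑ b ∈ B.coeff.support,
        A.coeff a * B.coeff b * (T * Kcs 1 a b) := by
      rw [BK, pair_def, Finset.mul_sum]
      refine Finset.sum_congr rfl fun a _ => ?_
      rw [pair_def, Finset.mul_sum, Finset.mul_sum]
      refine Finset.sum_congr rfl fun b _ => ?_
      ring
    rw [e2, e3, ← Finset.sum_sub_distrib]
    have h3 : nrm A * nrm B * (3 * U) = ∑ a ∈ A.coeff.support, ∑ b ∈ B.coeff.support,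
        |A.coeff a| * |B.coeff b| * (3 * U) := by
      rw [nrm, nrm, Finset.sum_mul_sum, Finset.sum_mul]
      refine Finset.sum_congr rfl fun a _ => ?_
      rw [Finset.sum_mul]
    rw [h3]
    refine (Finset.abs_sum_le_sum_abs _ _).trans (Finset.sum_le_sum fun a ha => ?_)
    rw [← Finset.sum_sub_distrib]
    refine (Finset.abs_sum_le_sum_abs _ _).trans (Finset.sum_le_sum fun b hb => ?_)
    rw [← mul_sub, abs_mul, abs_mul]
    have h4 := diag_sum (hA a (Finsupp.mem_support_iff.mp ha)) (hB b (Finsupp.mem_support_iff.mp hb)).1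
      hU0 hN hT hN1
    exact mul_le_mul_of_nonneg_left h4 (by positivity)
  rw [e1]
  have h3 := Complex.abs_re_le_norm ((∑ x ∈ s, ((A.coeff x.2.1 * B.coeff x.2.2 : ℝ) : ℂ) * I x)
      - ((∑ x ∈ s, A.coeff x.2.1 * B.coeff x.2.2 * Dg x : ℝ) : ℂ))
  rw [Complex.sub_re, Complex.ofReal_re] at h3
  have h4 := abs_sub_le (∑ x ∈ s, ((A.coeff x.2.1 * B.coeff x.2.2 : ℝ) : ℂ) * I x).re
    (∑ x ∈ s, A.coeff x.2.1 * B.coeff x.2.2 * Dg x) (T * BK (Kcs 1) A B)
  calc _ ≤ _ := h4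
    _ ≤ nrm A * nrm B * (8 * H * Real.sqrt N) + nrm A * nrm B * (3 * U) :=
        add_le_add (h3.trans h1) h2
    _ = _ := by ring

end H22A1

open H22A1 in
/-- the first moment of zeta twisted by two Dirichlet polynomials -/
theorem firstMom : FirstMom := by
  obtain ⟨C, T0, hC, hT03, hshort⟩ := first_short
  refine ⟨C + 41, T0, by linarith, hT03, ?_⟩
  intro T hT A B H hH hA hB
  have hT3 : 3 ≤ T := hT03.trans hT
  have hT1 : 1 ≤ T := by linarith
  have hTpos : 0 < T := by linarith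
  have hA1 : ∀ n, A.coeff n ≠ 0 → 1 ≤ n := fun n hn => (hA n hn).1
  have hB1 : ∀ n, B.coeff n ≠ 0 → 1 ≤ n := fun n hn => (hB n hn).1
  set U : ℝ := T ^ (7 / 8 : ℝ) with hU
  set V : ℝ := T ^ (15 / 16 : ℝ) with hV
  have hU1 : 1 ≤ U := Real.one_le_rpow hT1 (by norm_num)
  have hUV : U ≤ V := Real.rpow_le_rpow_of_exponent_le hT1 (by norm_num)
  have hUT : U ≤ T := by
    have : T ^ (7 / 8 : ℝ) ≤ T ^ (1 : ℝ) := Real.rpow_le_rpow_of_exponent_le hT1 (by norm_num)
    rwa [Real.rpow_one] at this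
  set N := ⌊T ^ (3 / 2 : ℝ)⌋₊ with hN
  have hT32 : 1 ≤ T ^ (3 / 2 : ℝ) := Real.one_le_rpow hT1 (by norm_num)
  have hN1 : 1 ≤ N := Nat.one_le_iff_ne_zero.mpr (Nat.floor_pos.mpr hT32).ne'
  have hNlo : T ^ (3 / 2 : ℝ) / 2 ≤ N := floor_half hT32
  have hNhi : (N : ℝ) ≤ T ^ (3 / 2 : ℝ) := Nat.floor_le (by positivity)
  have hTN : T ≤ 2 * N := by
    have : T ^ (1 : ℝ) ≤ T ^ (3 / 2 : ℝ) := Real.rpow_le_rpow_of_exponent_le hT1 (by norm_num)
    rw [Real.rpow_one] at this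
    linarith
  have hsq : Real.sqrt N ≤ V := by
    rw [Real.sqrt_le_left (by positivity)]
    refine hNhi.trans ?_
    rw [hV, ← Real.rpow_natCast, ← Real.rpow_mul hTpos.le]
    exact Real.rpow_le_rpow_of_exponent_le hT1 (by norm_num)
  have nA := nrm_nonneg A
  have nB := nrm_nonneg B
  have hlong := first_long hH hA1 hB hN1 hU1 hTN hTpos
  -- the three integrals
  set f : ℝ → ℂ := fun t => riemannZeta (1 / 2 + I * t) * ev t A * conj (ev t B) with hf
  set g : ℝ → ℂ := fun t => ev t (ZP N) * ev t A * conj (ev t B) with hg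
  have cA := continuous_ev A
  have cB : Continuous fun t : ℝ => conj (ev t B) := Complex.continuous_conj.comp (continuous_ev B)
  have cf : Continuous f := (continuous_zeta.mul cA).mul cB
  have cg : Continuous g := ((continuous_ev (ZP N)).mul cA).mul cB
  have hre : (∫ t in (0 : ℝ)..T, (riemannZeta (1 / 2 + I * t) * ev t A * conj (ev t B)).re)
      = (∫ t in (0 : ℝ)..U, f t).re + ((∫ t in U..T, (f t - g t)).re + (∫ t in U..T, g t).re) := by
    have h1 : (∫ t in (0 : ℝ)..T, (f t).re) = (∫ t in (0 : ℝ)..T, f t).re :=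
      (Complex.reCLM.intervalIntegral_comp_comm (cf.intervalIntegrable _ _))
    have h2 : (∫ t in (0 : ℝ)..T, f t) = (∫ t in (0 : ℝ)..U, f t) + ∫ t in U..T, f t :=
      (intervalIntegral.integral_add_adjacent_intervals (cf.intervalIntegrable _ _)
        (cf.intervalIntegrable _ _)).symm
    have h3 : (∫ t in U..T, (f t - g t)) = (∫ t in U..T, f t) - ∫ t in U..T, g t :=
      intervalIntegral.integral_sub (cf.intervalIntegrable _ _) (cg.intervalIntegrable _ _)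
    change (∫ t in (0 : ℝ)..T, (f t).re) = _
    rw [h1, h2, h3, Complex.add_re, Complex.sub_re]
    ring
  have p1 : |(∫ t in (0 : ℝ)..U, f t).re| ≤ nrm A * nrm B * (C * V) := by
    refine (Complex.abs_re_le_norm _).trans ?_
    have h1 : ‖∫ t in (0 : ℝ)..U, f t‖ ≤ ∫ t in (0 : ℝ)..U, nrm A * nrm B * ‖riemannZeta (1 / 2 + I * t)‖ := by
      refine intervalIntegral.norm_integral_le_of_norm_le (by linarith)
        (Eventually.of_forall fun t _ => ?_)
        ((continuous_const.mul continuous_zeta.norm).intervalIntegrable _ _)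
      rw [hf]
      simp only [norm_mul, RCLike.norm_conj]
      have h2 := norm_ev_le hA1 t
      have h3 := norm_ev_le hB1 t
      calc ‖riemannZeta (1 / 2 + I * t)‖ * ‖ev t A‖ * ‖ev t B‖
          ≤ ‖riemannZeta (1 / 2 + I * t)‖ * nrm A * nrm B := by gcongr
        _ = _ := by ring
    refine h1.trans ?_
    rw [intervalIntegral.integral_const_mul]
    exact mul_le_mul_of_nonneg_left (hshort T hT) (by positivity)
  have p2 : |(∫ t in U..T, (f t - g t)).re| ≤ nrm A * nrm B * (30 * V) := by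
    refine (Complex.abs_re_le_norm _).trans ?_
    have h1 : ‖∫ t in U..T, (f t - g t)‖ ≤ (nrm A * nrm B * (30 * T ^ (-(1 / 8) : ℝ))) * |T - U| := by
      refine intervalIntegral.norm_integral_le_of_norm_le_const fun t ht => ?_
      rw [Set.uIoc_of_le hUT] at ht
      have h2 := zeta_approx_T hT1 ht.1.le ht.2
      have e : f t - g t = (riemannZeta (1 / 2 + I * t) - ev t (ZP N)) * ev t A * conj (ev t B) := by
        rw [hf, hg]; ring
      rw [e, norm_mul, norm_mul, RCLike.norm_conj]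
      have h3 := norm_ev_le hA1 t
      have h4 := norm_ev_le hB1 t
      calc ‖riemannZeta (1 / 2 + I * t) - ev t (ZP N)‖ * ‖ev t A‖ * ‖ev t B‖
          ≤ (30 * T ^ (-(1 / 8) : ℝ)) * nrm A * nrm B := by gcongr
        _ = _ := by ring
    refine h1.trans ?_
    have h5 : |T - U| ≤ T := by
      rw [abs_of_nonneg (by linarith)]
      linarith
    have h6 : T ^ (-(1 / 8) : ℝ) * T ≤ V := by
      have : T ^ (-(1 / 8) : ℝ) * T = U := by
        nth_rewrite 2 [← Real.rpow_one T]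
        rw [← Real.rpow_add hTpos, hU]
        norm_num
      rw [this]
      exact hUV
    have h7 : 0 ≤ T ^ (-(1 / 8) : ℝ) := by positivity
    calc nrm A * nrm B * (30 * T ^ (-(1 / 8) : ℝ)) * |T - U|
        ≤ nrm A * nrm B * (30 * T ^ (-(1 / 8) : ℝ)) * T := by gcongr
      _ = nrm A * nrm B * (30 * (T ^ (-(1 / 8) : ℝ) * T)) := by ring
      _ ≤ nrm A * nrm B * (30 * V) := by gcongr
  have p3 : |(∫ t in U..T, g t).re - T * BK (Kcs 1) A B| ≤ nrm A * nrm B * (8 * H * V + 3 * V) := by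
    refine hlong.trans ?_
    gcongr
  have hV0 : 0 ≤ V := by positivity
  have hsum : |(∫ t in (0 : ℝ)..T, (riemannZeta (1 / 2 + I * t) * ev t A * conj (ev t B)).re)
      - T * BK (Kcs 1) A B| ≤ nrm A * nrm B * (C * V) + nrm A * nrm B * (30 * V)
        + nrm A * nrm B * (8 * H * V + 3 * V) := by
    rw [hre]
    have e : (∫ t in (0 : ℝ)..U, f t).re + ((∫ t in U..T, (f t - g t)).re + (∫ t in U..T, g t).re)
        - T * BK (Kcs 1) A B = (∫ t in (0 : ℝ)..U, f t).re + (∫ t in U..T, (f t - g t)).re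
          + ((∫ t in U..T, g t).re - T * BK (Kcs 1) A B) := by ring
    rw [e]
    exact (abs_add_le _ _).trans (add_le_add ((abs_add_le _ _).trans (add_le_add p1 p2)) p3)
  refine hsum.trans ?_
  have hHV : V ≤ H * V := by nlinarith
  have hq : 0 ≤ nrm A * nrm B := by positivity
  have : C * V + 30 * V + (8 * H * V + 3 * V) ≤ (C + 41) * (H * V) := by nlinarith
  calc nrm A * nrm B * (C * V) + nrm A * nrm B * (30 * V) + nrm A * nrm B * (8 * H * V + 3 * V)
      = nrm A * nrm B * (C * V + 30 * V + (8 * H * V + 3 * V)) := by ring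
    _ ≤ nrm A * nrm B * ((C + 41) * (H * V)) := by gcongr
    _ = _ := by ring

end Pool.Agent.Lib.U2
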