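import Mathlib
import Pool.Agent.Lib.MP_f9aece_nt_u2.Stmts
import Pool.Agent.Lib.MP_f9aece_nt_h5.MeanB2
import Pool.Agent.Lib.MP_f9aece_nt_h40.FormsTwo

/-!
Mean values of the tilting polynomial on the critical line, exponents up to one.
-/

set_option autoImplicit false

namespace Pool.Agent.Lib.U2.H49

open MeasureTheory Set Filter Topology Complex
open Pool.Agent.Lib.MP_f9aece_nt Pool.Agent.Lib.MP_f9aece_nt_h97
open Pool.Agent.Lib.MP_f9aece_nt_h5
open scoped ArithmeticFunction.Omega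

lemma tw_zero_of_cone {A : Set ℕ} {f : DP} (hf : Cone A f) (hA : ∀ n ∈ A, 1 ≤ n) : tw 0 f = f := by
  ext n
  rw [coeff_tw]
  by_cases h : f.coeff n = 0
  · rw [h, zero_mul]
  · have h1 : 1 ≤ n := hA n ((hf n).2 h)
    rw [neg_zero, Real.rpow_zero, mul_one]

/-- numerical form of the block bound -/
lemma block_num1 {M : ℕ} (hM : 4800 ≤ M) :
    (10 / (M : ℝ)) ^ (2 * M) * (M.factorial * 24 ^ M * Real.exp 96)
      ≤ Real.exp 96 * (1 / 2) ^ M := by
  have hM0 : (4800 : ℝ) ≤ M := by exact_mod_cast hM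
  have hMpos : (0 : ℝ) < M := by linarith
  have h1 : (M.factorial : ℝ) ≤ (M : ℝ) ^ M := by exact_mod_cast Nat.factorial_le_pow _
  calc (10 / (M : ℝ)) ^ (2 * M) * (M.factorial * 24 ^ M * Real.exp 96)
      ≤ (10 / (M : ℝ)) ^ (2 * M) * ((M : ℝ) ^ M * 24 ^ M * Real.exp 96) := by gcongr
    _ = Real.exp 96 * (2400 / M) ^ M := by
        have e : (10 / (M : ℝ)) ^ (2 * M) * ((M : ℝ) ^ M * 24 ^ M) = (2400 / M) ^ M := by
          rw [pow_mul, ← mul_pow, ← mul_pow]
          congr 1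
          field_simp
          ring
        rw [← mul_assoc, e, mul_comm]
    _ ≤ Real.exp 96 * (1 / 2) ^ M := by
        have h : (2400 : ℝ) / M ≤ 1 / 2 := by
          rw [div_le_iff₀ hMpos]
          linarith
        have h' : (2400 / (M : ℝ)) ^ M ≤ (1 / 2) ^ M := pow_le_pow_left₀ (by positivity) h _
        exact mul_le_mul_of_nonneg_left h' (Real.exp_pos _).le

section

variable {Y k : ℝ} {m p0 : ℕ}

lemma form_BP1 (hm : 4800 ≤ m) (hY : 0 < Y) (hk0 : 0 < k) (hk : k ≤ 1)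
    {J j : ℕ} (hj : j ∈ Finset.range J) :
    (10 / (Mm m j : ℝ)) ^ (2 * Mm m j)
      * BK K1 (Bm m p0 k Y J * PP (sc Y p0 j) ^ Mm m j)
          (Bm m p0 k Y J * PP (sc Y p0 j) ^ Mm m j)
      ≤ Real.exp 96 * (1 / 2) ^ Mm m j * ∏ i ∈ Finset.range J, eb 0 m p0 k Y i := by
  classical
  set M := Mm m j with hM
  have hM4 : 4800 ≤ M := by
    have := Mm_add_le (m := m) (by omega) j
    omega
  set f : ℕ → DP := fun i => if i = j then expo k M (sc Y p0 j) * PP (sc Y p0 j) ^ M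
    else expo k (Mm m i) (sc Y p0 i) with hf
  have hprod : Bm m p0 k Y J * PP (sc Y p0 j) ^ M = ∏ i ∈ Finset.range J, f i := by
    unfold Bm DD
    rw [← Finset.mul_prod_erase _ _ hj, ← Finset.mul_prod_erase _ f hj]
    have e1 : f j = expo k M (sc Y p0 j) * PP (sc Y p0 j) ^ M := by rw [hf]; simp
    have e2 : ∏ i ∈ (Finset.range J).erase j, f i
        = ∏ i ∈ (Finset.range J).erase j, expo k (Mm m i) (sc Y p0 i) := by
      refine Finset.prod_congr rfl fun i hi => ?_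
      rw [hf]
      simp only
      rw [if_neg (Finset.ne_of_mem_erase hi)]
    rw [e1, e2]
    ring
  have hcone : ∀ i ∈ Finset.range J, Cone (Smo (sc Y p0 i)) (f i) := by
    intro i _
    rw [hf]
    simp only
    split_ifs with h
    · subst h
      refine (cone_Smo_block hk0.le M i).mul
        ((cone_PP_pow (prime_sc i) M).mono fun n hn => hn.1) fun a ha b hb => mul_mem_Smo ha hb
    · exact cone_Smo_block hk0.le _ i
  have hBK : BK K1 (Bm m p0 k Y J * PP (sc Y p0 j) ^ M) (Bm m p0 k Y J * PP (sc Y p0 j) ^ M)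
      = BK K1 (f j) (f j) * ∏ i ∈ (Finset.range J).erase j, eb 0 m p0 k Y i := by
    rw [hprod, BK_prod mulKer_K1 (Finset.range J) (sc Y p0)
      (fun i _ j _ hij => sc_disjoint hY hij) _ _ hcone hcone,
      ← Finset.mul_prod_erase _ _ hj]
    congr 1
    refine Finset.prod_congr rfl fun i hi => ?_
    have e : f i = expo k (Mm m i) (sc Y p0 i) := by
      rw [hf]
      simp only
      rw [if_neg (Finset.ne_of_mem_erase hi)]
    rw [e]
    unfold eb
    rw [tw_zero_of_cone (cone_Smo_block (Y := Y) (p0 := p0) hk0.le (Mm m i) i) fun n hn => Smo_pos hn]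
  have hfj : BK K1 (f j) (f j) ≤ M.factorial * 24 ^ M * Real.exp 96 := by
    have e1 : f j = expo k M (sc Y p0 j) * PP (sc Y p0 j) ^ M := by rw [hf]; simp
    rw [e1]
    refine le_trans ?_ (Pool.Agent.Lib.MP_f9aece_nt_h40.K1_expo_pow (prime_sc j) (VV_sc_le hY p0 j) M M)
    have hd : Dom (expo k M (sc Y p0 j) * PP (sc Y p0 j) ^ M)
        (expo 2 M (sc Y p0 j) * PP (sc Y p0 j) ^ M) := by
      refine Dom.mul (dom_expo (prime_sc j) ?_ M) (dom_self (cone_PP_pow (prime_sc j) M))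
      rw [abs_of_pos hk0]
      linarith
    exact (le_abs_self _).trans (abs_BK_le_of_dom K1_nonneg hd hd)
  have hnum := block_num1 hM4
  have hE0 : 0 ≤ ∏ i ∈ (Finset.range J).erase j, eb 0 m p0 k Y i :=
    Finset.prod_nonneg fun i _ => zero_le_one.trans (one_le_eb hk0.le 0 i)
  have hE1 : ∏ i ∈ (Finset.range J).erase j, eb 0 m p0 k Y i
      ≤ ∏ i ∈ Finset.range J, eb 0 m p0 k Y i := by
    rw [← Finset.mul_prod_erase _ _ hj]
    exact le_mul_of_one_le_left hE0 (one_le_eb hk0.le 0 j)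
  rw [hBK]
  set P := ∏ i ∈ (Finset.range J).erase j, eb 0 m p0 k Y i with hP
  set Q := ∏ i ∈ Finset.range J, eb 0 m p0 k Y i with hQ
  set F := BK K1 (f j) (f j) with hF
  set G := (M.factorial : ℝ) * 24 ^ M * Real.exp 96 with hG
  have hc0 : (0 : ℝ) ≤ (10 / (M : ℝ)) ^ (2 * M) := by positivity
  have s1 : (10 / (M : ℝ)) ^ (2 * M) * (F * P) ≤ (10 / (M : ℝ)) ^ (2 * M) * G * P := by
    rw [← mul_assoc]
    exact mul_le_mul_of_nonneg_right (mul_le_mul_of_nonneg_left hfj hc0) hE0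
  have s2 : (10 / (M : ℝ)) ^ (2 * M) * G * P ≤ Real.exp 96 * (1 / 2) ^ M * P :=
    mul_le_mul_of_nonneg_right hnum hE0
  have s3 : Real.exp 96 * (1 / 2) ^ M * P ≤ Real.exp 96 * (1 / 2) ^ M * Q :=
    mul_le_mul_of_nonneg_left hE1 (by positivity)
  exact s1.trans (s2.trans s3)

end

lemma sum_half_Mm {m : ℕ} (hm : 1 ≤ m) (J : ℕ) :
    ∑ j ∈ Finset.range J, Real.exp 96 * (1 / 2 : ℝ) ^ Mm m j ≤ 2 * Real.exp 96 * (1 / 2) ^ m := by
  have h1 : ∀ j ∈ Finset.range J, Real.exp 96 * (1 / 2 : ℝ) ^ Mm m j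
      ≤ 2 * Real.exp 96 * (1 / 2) ^ m * (1 / 2) ^ (j + 1) := by
    intro j _
    have h2 := Mm_add_le (m := m) hm j
    calc Real.exp 96 * (1 / 2 : ℝ) ^ Mm m j ≤ Real.exp 96 * (1 / 2) ^ (m + j) := by
          have : (1 / 2 : ℝ) ^ Mm m j ≤ (1 / 2) ^ (m + j) :=
            pow_le_pow_of_le_one (by norm_num) (by norm_num) h2
          gcongr
      _ = _ := by rw [pow_add, pow_succ]; ring
  refine (Finset.sum_le_sum h1).trans ?_
  rw [← Finset.mul_sum]
  have h := sum_half_le J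
  calc 2 * Real.exp 96 * (1 / 2) ^ m * ∑ j ∈ Finset.range J, (1 / 2 : ℝ) ^ (j + 1)
      ≤ 2 * Real.exp 96 * (1 / 2) ^ m * 1 := by gcongr
    _ = _ := mul_one _

end Pool.Agent.Lib.U2.H49

namespace Pool.Agent.Lib.U2

open MeasureTheory Set Filter Topology Complex
open Pool.Agent.Lib.MP_f9aece_nt Pool.Agent.Lib.MP_f9aece_nt_h97
open Pool.Agent.Lib.MP_f9aece_nt_h5
open U2.H49

theorem meanB1 : MeanB1 := by
  refine ⟨2 * Real.exp 96 + 1, 4800, by positivity, ?_⟩
  intro m hm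
  refine ⟨1, le_rfl, ?_⟩
  intro Y hY J hJ k hk0 hk
  have hY0 : 0 < Y := by linarith
  have hm0 : (4800 : ℝ) ≤ m := by exact_mod_cast hm
  set T := Real.exp (160 * m * Y) with hT
  have hTpos : 0 < T := Real.exp_pos _
  set E := BK (K1s 1) (Bm m 2 k Y J) (Bm m 2 k Y J) with hE
  have hEE : E = ∏ j ∈ Finset.range J, eb 0 m 2 k Y j := by
    have := form_B (m := m) (p0 := 2) hY0 hk0.le (le_refl (0 : ℝ)) J
    rw [mul_zero, add_zero] at this
    exact this
  have hE1K : BK K1 (Bm m 2 k Y J) (Bm m 2 k Y J) = E := by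
    rw [hE, Pool.Agent.Lib.MP_f9aece_nt_h40.K1s_one_eq]
  have hE1 : 1 ≤ E := by
    rw [hEE]
    calc (1 : ℝ) = ∏ _j ∈ Finset.range J, (1 : ℝ) := by simp
      _ ≤ ∏ j ∈ Finset.range J, eb 0 m 2 k Y j :=
        Finset.prod_le_prod (fun _ _ => zero_le_one) fun j _ => one_le_eb hk0.le 0 j
  have hmY : (4800 : ℝ) * 1 ≤ m * Y := by gcongr
  have hYm : Y ≤ m * Y := le_mul_of_one_le_left hY0.le (by linarith)
  have h4 : (4 : ℝ) ≤ Real.exp 2 := by
    have := Real.quadratic_le_exp_of_nonneg (zero_le_two (α := ℝ))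
    linarith
  -- the plain mean value
  have hB1 := mean_ev_abs hTpos (cone_B (m := m) (p0 := 2) hY0 hk0.le J)
    (aug_B (m := m) (p0 := 2) hY0 hk0.le hk J)
  rw [hE1K] at hB1
  have herr1 : 4 * Real.exp (2 * m * Y) * Real.exp (J + 2 * m * Y) ^ 2 ≤ T * Real.exp (-Y) := by
    calc 4 * Real.exp (2 * m * Y) * Real.exp (J + 2 * m * Y) ^ 2
        ≤ Real.exp 2 * Real.exp (2 * m * Y) * Real.exp (J + 2 * m * Y) ^ 2 := by gcongr
      _ = Real.exp (2 + 2 * m * Y + 2 * (J + 2 * m * Y)) := by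
          rw [← Real.exp_nat_mul, ← Real.exp_add, ← Real.exp_add]
          congr 1
      _ ≤ Real.exp (160 * m * Y + -Y) := by
          apply Real.exp_le_exp.mpr
          linarith
      _ = T * Real.exp (-Y) := by rw [← Real.exp_add]
  have hexpY : Real.exp (-Y) ≤ 1 := by
    rw [Real.exp_le_one_iff]
    linarith
  refine ⟨hE1, ?_, ?_⟩
  · have h1 := (abs_le.mp hB1).2
    have h2 : T * Real.exp (-Y) ≤ T * E := by
      have : Real.exp (-Y) ≤ E := hexpY.trans hE1
      gcongr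
    linarith
  · -- one block
    have hblock : ∀ j ∈ Finset.range J, ∫ t in (0 : ℝ)..T, ‖ev t (Bm m 2 k Y J)‖ ^ 2
        * (‖Pj 2 Y (1 / 2) j t‖ / ((Mm m j : ℝ) / 10)) ^ (2 * Mm m j)
        ≤ T * ((Real.exp 96 * (1 / 2) ^ Mm m j) * E)
          + 4 * Real.exp (3 * m * Y) * Real.exp (J + 3 * m * Y) ^ 2 := by
      intro j hj
      have hM4 : 4800 ≤ Mm m j := by
        have := Mm_add_le (m := m) (by omega) j
        omega
      have hM0 : (4800 : ℝ) ≤ Mm m j := by exact_mod_cast hM4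
      have hMpos : (0 : ℝ) < Mm m j := by linarith
      have hpt : ∀ t : ℝ, ‖ev t (Bm m 2 k Y J)‖ ^ 2
          * (‖Pj 2 Y (1 / 2) j t‖ / ((Mm m j : ℝ) / 10)) ^ (2 * Mm m j)
          = (10 / (Mm m j : ℝ)) ^ (2 * Mm m j)
            * ‖ev t (Bm m 2 k Y J * PP (sc Y 2 j) ^ Mm m j)‖ ^ 2 := by
        intro t
        have hevPP : ev t (PP (sc Y 2 j)) = ∑ p ∈ sc Y 2 j, (p : ℂ) ^ (-(1 / 2 + I * t : ℂ)) := by
          have h0 := ev_tw (le_refl (0 : ℝ)) t (PP (sc Y 2 j))
          have hc := cone_PP_pow (prime_sc (Y := Y) (p0 := 2) j) 1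
          rw [pow_one] at hc
          rw [tw_zero_of_cone hc fun n hn => Smo_pos hn.1, evs_PP] at h0
          rw [h0]
          push_cast
          simp only [add_zero]
        rw [map_mul, map_pow, hevPP, norm_mul, norm_pow, mul_pow, ← pow_mul, mul_comm (Mm m j) 2]
        have e1 : ‖Pj 2 Y (1 / 2) j t‖ / ((Mm m j : ℝ) / 10)
            = 10 / (Mm m j : ℝ) * ‖∑ p ∈ sc Y 2 j, (p : ℂ) ^ (-(1 / 2 + I * t : ℂ))‖ := by
          unfold Pj
          push_cast
          field_simp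
        rw [e1, mul_pow (10 / (Mm m j : ℝ))]
        ring
      simp_rw [hpt]
      rw [intervalIntegral.integral_const_mul]
      have hB2 := mean_ev_abs hTpos (cone_BP (m := m) (p0 := 2) hY0 hk0.le J j)
        (aug_BP (m := m) (p0 := 2) hY0 hk0.le hk J j)
      have h1 := (abs_le.mp hB2).2
      have h2 := form_BP1 (p0 := 2) hm hY0 hk0 hk hj
      rw [← hEE] at h2
      set c := (10 / (Mm m j : ℝ)) ^ (2 * Mm m j) with hc
      have hc0 : 0 ≤ c := by positivity
      have hc1 : c ≤ 1 := by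
        rw [hc]
        apply pow_le_one₀ (by positivity)
        rw [div_le_one hMpos]
        linarith
      set K := BK K1 (Bm m 2 k Y J * PP (sc Y 2 j) ^ Mm m j)
        (Bm m 2 k Y J * PP (sc Y 2 j) ^ Mm m j) with hK
      set Z := 4 * Real.exp (3 * m * Y) * Real.exp (J + 3 * m * Y) ^ 2 with hZ
      have hZ0 : 0 ≤ Z := by positivity
      calc c * ∫ t in (0 : ℝ)..T, ‖ev t (Bm m 2 k Y J * PP (sc Y 2 j) ^ Mm m j)‖ ^ 2
          ≤ c * (T * K + Z) := by
            refine mul_le_mul_of_nonneg_left ?_ hc0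
            linarith
        _ = T * (c * K) + c * Z := by ring
        _ ≤ T * ((Real.exp 96 * (1 / 2) ^ Mm m j) * E) + 1 * Z := by
            have a1 : T * (c * K) ≤ T * ((Real.exp 96 * (1 / 2) ^ Mm m j) * E) :=
              mul_le_mul_of_nonneg_left h2 hTpos.le
            have a2 : c * Z ≤ 1 * Z := mul_le_mul_of_nonneg_right hc1 hZ0
            linarith
        _ = _ := by rw [one_mul]
    refine (Finset.sum_le_sum hblock).trans ?_
    rw [Finset.sum_add_distrib, ← Finset.mul_sum, ← Finset.sum_mul, Finset.sum_const, Finset.card_range,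
      nsmul_eq_mul]
    have h31 := sum_half_Mm (m := m) (by omega) J
    have hJe : (J : ℝ) ≤ Real.exp J := by
      have := Real.add_one_le_exp (J : ℝ)
      linarith
    have herr2 : (J : ℝ) * (4 * Real.exp (3 * m * Y) * Real.exp (J + 3 * m * Y) ^ 2)
        ≤ T * Real.exp (-Y) := by
      calc (J : ℝ) * (4 * Real.exp (3 * m * Y) * Real.exp (J + 3 * m * Y) ^ 2)
          ≤ Real.exp J * (Real.exp 2 * Real.exp (3 * m * Y) * Real.exp (J + 3 * m * Y) ^ 2) := by gcongr
        _ = Real.exp (J + (2 + 3 * m * Y + 2 * (J + 3 * m * Y))) := by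
            rw [← Real.exp_nat_mul, ← Real.exp_add, ← Real.exp_add, ← Real.exp_add]
            congr 1
        _ ≤ Real.exp (160 * m * Y + -Y) := by
            apply Real.exp_le_exp.mpr
            linarith
        _ = T * Real.exp (-Y) := by rw [← Real.exp_add]
    have hE0 : 0 ≤ E := by linarith
    have a1 : T * ((∑ i ∈ Finset.range J, Real.exp 96 * (1 / 2 : ℝ) ^ Mm m i) * E)
        ≤ T * ((2 * Real.exp 96 * (1 / 2) ^ m) * E) := by
      gcongr
    have a2 : T * Real.exp (-Y) ≤ T * (E * Real.exp (-Y)) := by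
      have : Real.exp (-Y) ≤ E * Real.exp (-Y) := le_mul_of_one_le_left (Real.exp_pos _).le hE1
      gcongr
    have a3 : 0 ≤ T * E * (1 / 2) ^ m := by positivity
    have a4 : 0 ≤ T * E * Real.exp (-Y) := by positivity
    have a5 : 0 ≤ Real.exp 96 * (T * E * Real.exp (-Y)) := by positivity
    calc T * ((∑ i ∈ Finset.range J, Real.exp 96 * (1 / 2 : ℝ) ^ Mm m i) * E)
          + (J : ℝ) * (4 * Real.exp (3 * m * Y) * Real.exp (J + 3 * m * Y) ^ 2)
        ≤ T * ((2 * Real.exp 96 * (1 / 2) ^ m) * E) + T * (E * Real.exp (-Y)) := by linarith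
      _ ≤ (2 * Real.exp 96 + 1) * ((1 / 2) ^ m + Real.exp (-Y)) * (T * E) := by
          have e : (2 * Real.exp 96 + 1) * ((1 / 2) ^ m + Real.exp (-Y)) * (T * E)
              = (T * ((2 * Real.exp 96 * (1 / 2) ^ m) * E) + T * (E * Real.exp (-Y)))
                + (T * E * (1 / 2) ^ m + 2 * (Real.exp 96 * (T * E * Real.exp (-Y)))) := by ring
          rw [e]
          linarith

end Pool.Agent.Lib.U2
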