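import Mathlib
import Pool.Agent.Lib.MP_f9aece_nt_u2.Stmts
import Pool.Agent.Lib.MP_f9aece_nt_u2.MeanBU
import Pool.Agent.Lib.MP_f9aece_nt_h40.GFormsB

/-!
The small prime sum has small mean against the square of the tilting polynomial.
-/

set_option autoImplicit false

namespace Pool.Agent.Lib.U2

open MeasureTheory Set Filter Topology Complex
open Pool.Agent.Lib.MP_f9aece_nt Pool.Agent.Lib.MP_f9aece_nt_h97 Pool.Agent.Lib.MP_f9aece_nt_h5

namespace S2

/-- an oscillating term -/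
noncomputable def term (σ : ℝ) (x b : ℕ) (t : ℝ) : ℂ :=
  (x : ℂ) ^ (-((σ : ℂ) + I * t)) * (starRingEnd ℂ) ((b : ℂ) ^ (-((σ : ℂ) + I * t)))

lemma term_eq (σ : ℝ) {x b : ℕ} (hx : 1 ≤ x) (hb : 1 ≤ b) (t : ℝ) :
    term σ x b t = (Real.exp (-σ * (Real.log x + Real.log b)) : ℂ)
      * Complex.exp ((((Real.log b - Real.log x : ℝ) : ℂ) * I) * t) := by
  have hx0 : (x : ℂ) ≠ 0 := by exact_mod_cast (by omega : x ≠ 0)
  have hb0 : (b : ℂ) ≠ 0 := by exact_mod_cast (by omega : b ≠ 0)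
  unfold term
  rw [Complex.cpow_def_of_ne_zero hx0, Complex.cpow_def_of_ne_zero hb0, ← Complex.exp_conj,
    ← Complex.natCast_log, ← Complex.natCast_log, ← Complex.exp_add, Complex.ofReal_exp,
    ← Complex.exp_add]
  congr 1
  simp only [map_mul, map_neg, map_add, Complex.conj_ofReal, Complex.conj_I]
  push_cast
  ring

lemma continuous_term (σ : ℝ) {x b : ℕ} (hx : 1 ≤ x) (hb : 1 ≤ b) :
    Continuous (term σ x b) := by
  have : term σ x b = fun t : ℝ => (Real.exp (-σ * (Real.log x + Real.log b)) : ℂ)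
      * Complex.exp ((((Real.log b - Real.log x : ℝ) : ℂ) * I) * t) :=
    funext fun t => term_eq σ hx hb t
  rw [this]
  fun_prop

lemma log_sub_lower {x b : ℕ} (hx : 1 ≤ x) (hb : 1 ≤ b) (h : x < b) :
    ((x : ℝ) * b)⁻¹ ≤ Real.log b - Real.log x := by
  have hx0 : (0 : ℝ) < x := by exact_mod_cast hx
  have hb0 : (0 : ℝ) < b := by exact_mod_cast hb
  have h1 := Real.one_sub_inv_le_log_of_pos (div_pos hb0 hx0)
  rw [Real.log_div hb0.ne' hx0.ne', inv_div] at h1
  refine le_trans ?_ h1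
  have h2 : (x : ℝ) + 1 ≤ b := by exact_mod_cast h
  have h3 : (1 : ℝ) ≤ x := by exact_mod_cast hx
  have h4 : ((x : ℝ) * b)⁻¹ ≤ (b : ℝ)⁻¹ := by
    apply inv_anti₀ hb0
    nlinarith
  refine h4.trans ?_
  rw [le_sub_iff_add_le, inv_eq_one_div, ← add_div, div_le_one hb0]
  linarith

lemma abs_log_lower {x b : ℕ} (hx : 1 ≤ x) (hb : 1 ≤ b) (h : x ≠ b) :
    ((x : ℝ) * b)⁻¹ ≤ |Real.log b - Real.log x| := by
  rcases lt_or_gt_of_ne h with h | h
  · exact (log_sub_lower hx hb h).trans (le_abs_self _)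
  · rw [abs_sub_comm, mul_comm]
    exact (log_sub_lower hb hx h).trans (le_abs_self _)

lemma term_bound {T σ : ℝ} (hσ : 0 ≤ σ) {x b : ℕ} (hx : 1 ≤ x) (hb : 1 ≤ b) (h : x ≠ b) :
    ‖∫ t in (0 : ℝ)..T, term σ x b t‖ ≤ 2 * ((x : ℝ) * b) := by
  have hlow := abs_log_lower hx hb h
  have hxb : (0 : ℝ) < (x : ℝ) * b := by
    have : (0 : ℝ) < x := by exact_mod_cast hx
    have : (0 : ℝ) < b := by exact_mod_cast hb
    positivity
  have hlam : 0 < |Real.log b - Real.log x| := lt_of_lt_of_le (inv_pos.mpr hxb) hlow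
  have hne : (((Real.log b - Real.log x : ℝ) : ℂ) * I) ≠ 0 := by
    refine mul_ne_zero ?_ I_ne_zero
    rw [Ne, Complex.ofReal_eq_zero]
    exact abs_pos.mp hlam
  have e : (fun t : ℝ => term σ x b t) = fun t : ℝ =>
      (Real.exp (-σ * (Real.log x + Real.log b)) : ℂ)
        * Complex.exp ((((Real.log b - Real.log x : ℝ) : ℂ) * I) * t) :=
    funext fun t => term_eq σ hx hb t
  rw [e, intervalIntegral.integral_const_mul, integral_exp_mul_complex hne, norm_mul]
  have h1 : ‖(Real.exp (-σ * (Real.log x + Real.log b)) : ℂ)‖ ≤ 1 := by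
    rw [Complex.norm_real, Real.norm_eq_abs, abs_of_pos (Real.exp_pos _)]
    apply Real.exp_le_one_iff.mpr
    have h2 : 0 ≤ Real.log x := Real.log_natCast_nonneg x
    have h3 : 0 ≤ Real.log b := Real.log_natCast_nonneg b
    nlinarith
  have h2 : ‖(Complex.exp ((((Real.log b - Real.log x : ℝ) : ℂ) * I) * (T : ℝ))
      - Complex.exp ((((Real.log b - Real.log x : ℝ) : ℂ) * I) * ((0 : ℝ) : ℂ)))
      / (((Real.log b - Real.log x : ℝ) : ℂ) * I)‖ ≤ 2 * ((x : ℝ) * b) := by
    rw [norm_div]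
    have h3 : ‖(((Real.log b - Real.log x : ℝ) : ℂ) * I)‖ = |Real.log b - Real.log x| := by
      rw [norm_mul, Complex.norm_I, mul_one, Complex.norm_real, Real.norm_eq_abs]
    rw [h3, div_le_iff₀ hlam]
    have h4 : ‖Complex.exp ((((Real.log b - Real.log x : ℝ) : ℂ) * I) * (T : ℝ))
      - Complex.exp ((((Real.log b - Real.log x : ℝ) : ℂ) * I) * ((0 : ℝ) : ℂ))‖ ≤ 2 := by
      refine (norm_sub_le _ _).trans ?_
      have h5 : ∀ y : ℝ, ‖Complex.exp ((((Real.log b - Real.log x : ℝ) : ℂ) * I) * (y : ℝ))‖ = 1 := by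
        intro y
        have : (((Real.log b - Real.log x : ℝ) : ℂ) * I) * (y : ℝ)
            = (((Real.log b - Real.log x) * y : ℝ) : ℂ) * I := by push_cast; ring
        rw [this, Complex.norm_exp_ofReal_mul_I]
      rw [h5, h5]
      norm_num
    refine h4.trans ?_
    calc (2 : ℝ) = 2 * (((x : ℝ) * b) * ((x : ℝ) * b)⁻¹) := by
          rw [mul_inv_cancel₀ hxb.ne', mul_one]
      _ ≤ 2 * (((x : ℝ) * b) * |Real.log b - Real.log x|) := by gcongr
      _ = 2 * ((x : ℝ) * b) * |Real.log b - Real.log x| := by ring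
  calc _ ≤ 1 * (2 * ((x : ℝ) * b)) := mul_le_mul h1 h2 (norm_nonneg _) zero_le_one
    _ = _ := one_mul _

/-- the triple sum -/
lemma expand (B : DP) (P : Finset ℕ) (σ t : ℝ) :
    evs (σ + I * t) B * (starRingEnd ℂ) (evs (σ + I * t) B)
      * (∑ p ∈ P, ((p : ℂ) ^ (-((σ : ℂ) + I * t)) + (1 / 2) * (p : ℂ) ^ (-(2 * ((σ : ℂ) + I * t)))))
    = ∑ a ∈ B.coeff.support, ∑ b ∈ B.coeff.support, ∑ p ∈ P,
      ((B.coeff a * B.coeff b : ℝ) : ℂ) * (term σ (a * p) b t + (1 / 2) * term σ (a * (p * p)) b t) := by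
  have hsq : ∀ p : ℕ, (p : ℂ) ^ (-(2 * ((σ : ℂ) + I * t)))
      = (p : ℂ) ^ (-((σ : ℂ) + I * t)) * (p : ℂ) ^ (-((σ : ℂ) + I * t)) := by
    intro p
    rcases Nat.eq_zero_or_pos p with rfl | hp
    · by_cases h0 : ((σ : ℂ) + I * t) = 0
      · rw [h0]; simp
      · have h1 : (-(2 * ((σ : ℂ) + I * t))) ≠ 0 := by
          simpa using h0
        rw [Nat.cast_zero, Complex.zero_cpow h1, Complex.zero_cpow (neg_ne_zero.mpr h0), zero_mul]
    · rw [← Complex.cpow_add _ _ (by exact_mod_cast hp.ne')]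
      congr 1
      ring
  unfold evs
  rw [map_sum, Finset.sum_mul_sum, Finset.sum_mul]
  refine Finset.sum_congr rfl fun a _ => ?_
  rw [Finset.sum_mul]
  refine Finset.sum_congr rfl fun b _ => ?_
  rw [Finset.mul_sum]
  refine Finset.sum_congr rfl fun p _ => ?_
  unfold term
  have h1 : ((a * p : ℕ) : ℂ) ^ (-((σ : ℂ) + I * t))
      = (a : ℂ) ^ (-((σ : ℂ) + I * t)) * (p : ℂ) ^ (-((σ : ℂ) + I * t)) := by
    push_cast
    exact Complex.natCast_mul_natCast_cpow a p _
  have h2 : ((a * (p * p) : ℕ) : ℂ) ^ (-((σ : ℂ) + I * t))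
      = (a : ℂ) ^ (-((σ : ℂ) + I * t)) * ((p : ℂ) ^ (-((σ : ℂ) + I * t))
        * (p : ℂ) ^ (-((σ : ℂ) + I * t))) := by
    rw [← Complex.natCast_mul_natCast_cpow p p, ← Nat.cast_mul p p,
      ← Complex.natCast_mul_natCast_cpow a (p * p), ← Nat.cast_mul]
  rw [h1, h2, hsq, map_mul, Complex.conj_ofReal]
  push_cast
  ring

end S2

theorem meanR : MeanR := by
  refine ⟨1, le_rfl, ?_⟩
  intro m p0 hm hp0 Y hY hpY J hJ k hk0 hk σ hσ1 hσ2
  have hY0 : 0 < Y := by linarith
  have hm0 : (4000 : ℝ) ≤ m := by exact_mod_cast hm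
  set B : DP := Bm m p0 k Y J with hBdef
  set T := Real.exp (160 * m * Y) with hTdef
  have hTpos : 0 < T := Real.exp_pos _
  obtain ⟨hE1, -, -⟩ := mean_B_unif m p0 hm hp0 Y hY J hJ k hk0 hk σ hσ1 hσ2
  set E := BK (K1s (2 * σ)) (Bm m p0 k Y J) (Bm m p0 k Y J) with hEdef
  have hka : |k| ≤ 1 := by rw [abs_of_pos hk0]; linarith
  have hlen := Pool.Agent.Lib.MP_f9aece_nt_h40.len_B m p0 hka hY0 J
  have hnrm := Pool.Agent.Lib.MP_f9aece_nt_h40.nrm_B m p0 hka hY0 J
  have hsup : Sup (Smo (⋃ j ∈ Finset.range J, (sc Y p0 j : Set ℕ))) (Bm m p0 k Y J) :=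
    Pool.Agent.Lib.MP_f9aece_nt_h40.sup_DD _ _ _ _ _
  set H := Real.exp (2 * m * Y) with hHdef
  have hH0 : 0 < H := Real.exp_pos _
  have hp0' : (1 : ℝ) ≤ p0 := by exact_mod_cast hp0
  -- the products are different
  have hne : ∀ a ∈ B.coeff.support, ∀ b ∈ B.coeff.support, ∀ p ∈ Psm p0, ∀ n : ℕ,
      a * (p * n) ≠ b := by
    intro a ha b hb p hp n h
    have hb' := hsup b (Finsupp.mem_support_iff.mp hb)
    have hp1 : p.Prime := (Finset.mem_filter.mp hp).2
    have hp2 : p ≤ p0 := (Finset.mem_Ioc.mp (Finset.mem_filter.mp hp).1).2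
    have hd : p ∣ b := by
      rw [← h]
      exact Dvd.dvd.mul_left (Dvd.intro _ rfl) a
    have h3 := hb'.2 p hp1 hd
    simp only [Set.mem_iUnion] at h3
    obtain ⟨j, _, hj⟩ := h3
    have := (mem_sc.mp (Finset.mem_coe.mp hj)).2.2.1
    omega
  have hcont : ∀ a ∈ B.coeff.support, ∀ b ∈ B.coeff.support, ∀ p ∈ Psm p0,
      Continuous (S2.term σ (a * p) b) ∧ Continuous (S2.term σ (a * (p * p)) b) := by
    intro a ha b hb p hp
    have ha1 := (hlen a (Finsupp.mem_support_iff.mp ha)).1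
    have hb1 := (hlen b (Finsupp.mem_support_iff.mp hb)).1
    have hp1 : 1 ≤ p := (Finset.mem_filter.mp hp).2.one_le
    exact ⟨S2.continuous_term σ (Nat.mul_pos ha1 hp1) hb1,
      S2.continuous_term σ (Nat.mul_pos ha1 (Nat.mul_pos hp1 hp1)) hb1⟩
  have hg : ∀ a ∈ B.coeff.support, ∀ b ∈ B.coeff.support, ∀ p ∈ Psm p0,
      Continuous fun t : ℝ => ((B.coeff a * B.coeff b : ℝ) : ℂ)
        * (S2.term σ (a * p) b t + (1 / 2) * S2.term σ (a * (p * p)) b t) := by
    intro a ha b hb p hp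
    exact continuous_const.mul ((hcont a ha b hb p hp).1.add
      (continuous_const.mul (hcont a ha b hb p hp).2))
  -- the integral of the triple sum
  set F : ℝ → ℂ := fun t => ∑ a ∈ B.coeff.support, ∑ b ∈ B.coeff.support, ∑ p ∈ Psm p0,
      ((B.coeff a * B.coeff b : ℝ) : ℂ) * (S2.term σ (a * p) b t + (1 / 2) * S2.term σ (a * (p * p)) b t)
    with hFdef
  have hFint : ∫ t in (0 : ℝ)..T, F t = ∑ a ∈ B.coeff.support, ∑ b ∈ B.coeff.support, ∑ p ∈ Psm p0,
      ((B.coeff a * B.coeff b : ℝ) : ℂ) * ((∫ t in (0 : ℝ)..T, S2.term σ (a * p) b t)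
        + (1 / 2) * ∫ t in (0 : ℝ)..T, S2.term σ (a * (p * p)) b t) := by
    rw [hFdef]
    rw [intervalIntegral.integral_finsetSum]
    · refine Finset.sum_congr rfl fun a ha => ?_
      rw [intervalIntegral.integral_finsetSum]
      · refine Finset.sum_congr rfl fun b hb => ?_
        rw [intervalIntegral.integral_finsetSum]
        · refine Finset.sum_congr rfl fun p hp => ?_
          have i1 : IntervalIntegrable (fun t => S2.term σ (a * p) b t) volume 0 T :=
            (hcont a ha b hb p hp).1.intervalIntegrable _ _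
          have i2 : IntervalIntegrable (fun t => (1 / 2 : ℂ) * S2.term σ (a * (p * p)) b t)
              volume 0 T :=
            (continuous_const.mul (hcont a ha b hb p hp).2).intervalIntegrable _ _
          rw [intervalIntegral.integral_const_mul, intervalIntegral.integral_add i1 i2,
            intervalIntegral.integral_const_mul]
        · intro p hp
          exact (hg a ha b hb p hp).intervalIntegrable _ _
      · intro b hb
        exact (continuous_finsetSum _ fun p hp => hg a ha b hb p hp).intervalIntegrable _ _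
    · intro a ha
      exact (continuous_finsetSum _ fun b hb => continuous_finsetSum _ fun p hp =>
        hg a ha b hb p hp).intervalIntegrable _ _
  have hFcont : Continuous F := continuous_finsetSum _ fun a ha => continuous_finsetSum _ fun b hb =>
    continuous_finsetSum _ fun p hp => hg a ha b hb p hp
  have hFbound : ‖∫ t in (0 : ℝ)..T, F t‖ ≤ nrm B ^ 2 * (p0 * (3 * (p0 ^ 2 * H ^ 2))) := by
    rw [hFint]
    have hterm : ∀ a ∈ B.coeff.support, ∀ b ∈ B.coeff.support, ∀ p ∈ Psm p0,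
        ‖((B.coeff a * B.coeff b : ℝ) : ℂ) * ((∫ t in (0 : ℝ)..T, S2.term σ (a * p) b t)
        + (1 / 2) * ∫ t in (0 : ℝ)..T, S2.term σ (a * (p * p)) b t)‖
        ≤ |B.coeff a| * |B.coeff b| * (3 * (p0 ^ 2 * H ^ 2)) := by
      intro a ha b hb p hp
      obtain ⟨ha1, ha2⟩ := hlen a (Finsupp.mem_support_iff.mp ha)
      obtain ⟨hb1, hb2⟩ := hlen b (Finsupp.mem_support_iff.mp hb)
      have hp1 : 1 ≤ p := (Finset.mem_filter.mp hp).2.one_le
      have hp2 : (p : ℝ) ≤ p0 := by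
        exact_mod_cast (Finset.mem_Ioc.mp (Finset.mem_filter.mp hp).1).2
      have hp3 : (1 : ℝ) ≤ p := by exact_mod_cast hp1
      have ha3 : (1 : ℝ) ≤ a := by exact_mod_cast ha1
      have hb3 : (1 : ℝ) ≤ b := by exact_mod_cast hb1
      rw [norm_mul, Complex.norm_real, Real.norm_eq_abs, abs_mul]
      refine mul_le_mul_of_nonneg_left ?_ (by positivity)
      have h1 := S2.term_bound (T := T) (σ := σ) (by linarith) (Nat.mul_pos ha1 hp1) hb1
        (by have := hne a ha b hb p hp 1; rwa [mul_one] at this)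
      have h2 := S2.term_bound (T := T) (σ := σ) (by linarith)
        (Nat.mul_pos ha1 (Nat.mul_pos hp1 hp1)) hb1 (hne a ha b hb p hp p)
      push_cast at h1 h2
      have h3 : ‖(1 / 2 : ℂ) * ∫ t in (0 : ℝ)..T, S2.term σ (a * (p * p)) b t‖
          ≤ (1 / 2) * (2 * ((a : ℝ) * (p * p) * b)) := by
        rw [norm_mul]
        have : ‖(1 / 2 : ℂ)‖ = 1 / 2 := by norm_num
        rw [this]
        gcongr
      have hab : (a : ℝ) * b ≤ H * H := mul_le_mul ha2 hb2 (by positivity) hH0.le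
      have hpp : (p : ℝ) * p ≤ p0 * p0 := mul_le_mul hp2 hp2 (by positivity) (by positivity)
      have hp4 : (p : ℝ) ≤ p0 * p0 := hp2.trans (le_mul_of_one_le_left (by positivity) hp0')
      calc _ ≤ 2 * ((a : ℝ) * p * b) + (1 / 2) * (2 * ((a : ℝ) * (p * p) * b)) :=
            (norm_add_le _ _).trans (add_le_add h1 h3)
        _ = 2 * (p * (a * b)) + (p * p) * (a * b) := by ring
        _ ≤ 2 * ((p0 * p0) * (H * H)) + (p0 * p0) * (H * H) := by gcongr
        _ = 3 * (p0 ^ 2 * H ^ 2) := by ring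
    have hcard : ((Psm p0).card : ℝ) ≤ p0 := by
      have : (Psm p0).card ≤ (Finset.Ioc 0 p0).card := Finset.card_filter_le _ _
      rw [Nat.card_Ioc] at this
      exact_mod_cast this
    calc _ ≤ ∑ a ∈ B.coeff.support, ∑ b ∈ B.coeff.support, ∑ p ∈ Psm p0,
          |B.coeff a| * |B.coeff b| * (3 * (p0 ^ 2 * H ^ 2)) := by
          refine (norm_sum_le _ _).trans (Finset.sum_le_sum fun a ha => ?_)
          refine (norm_sum_le _ _).trans (Finset.sum_le_sum fun b hb => ?_)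
          exact (norm_sum_le _ _).trans (Finset.sum_le_sum fun p hp => hterm a ha b hb p hp)
      _ = nrm B ^ 2 * ((Psm p0).card * (3 * (p0 ^ 2 * H ^ 2))) := by
          have hn : nrm B ^ 2 = ∑ a ∈ B.coeff.support, ∑ b ∈ B.coeff.support,
              |B.coeff a| * |B.coeff b| := by
            unfold nrm
            rw [sq, Finset.sum_mul_sum]
          simp only [Finset.sum_const, nsmul_eq_mul]
          rw [hn, Finset.sum_mul]
          refine Finset.sum_congr rfl fun a _ => ?_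
          rw [Finset.sum_mul]
          refine Finset.sum_congr rfl fun b _ => ?_
          ring
      _ ≤ _ := by gcongr
  -- real parts
  have hre : ∫ t in (0 : ℝ)..T, ‖evs (σ + I * t) (Bm m p0 k Y J)‖ ^ 2 * R0 p0 (σ + I * t)
      = (∫ t in (0 : ℝ)..T, F t).re := by
    have h1 := Complex.reCLM.intervalIntegral_comp_comm (hFcont.intervalIntegrable 0 T (μ := volume))
    rw [Complex.reCLM_apply] at h1
    rw [← h1]
    refine intervalIntegral.integral_congr fun t _ => ?_
    simp only [Complex.reCLM_apply]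
    rw [hFdef]
    simp only
    rw [← S2.expand B (Psm p0) σ t, Complex.mul_conj, Complex.normSq_eq_norm_sq, Complex.re_ofReal_mul]
    rfl
  rw [hre]
  have hfin : nrm B ^ 2 * (p0 * (3 * (p0 ^ 2 * H ^ 2))) ≤ Real.exp (-Y) * (T * E) := by
    have e1 : nrm B ^ 2 ≤ Real.exp (2 * (J + 2 * m * Y)) := by
      have : nrm B ^ 2 ≤ Real.exp (J + 2 * m * Y) ^ 2 := by
        have := nrm_nonneg B
        gcongr
      refine this.trans (le_of_eq ?_)
      rw [← Real.exp_nat_mul]
      norm_num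
    have e2 : (p0 : ℝ) ^ 3 ≤ Real.exp (2 * Y) := by
      have h1 : (p0 : ℝ) ^ 2 ≤ Y := by linarith
      have h2 : Y ≤ Real.exp Y := by
        have := Real.add_one_le_exp Y
        linarith
      calc (p0 : ℝ) ^ 3 ≤ (p0 : ℝ) ^ 4 := pow_le_pow_right₀ hp0' (by norm_num)
        _ = ((p0 : ℝ) ^ 2) ^ 2 := by ring
        _ ≤ (Real.exp Y) ^ 2 := by
            have := h1.trans h2
            gcongr
        _ = Real.exp (2 * Y) := by rw [← Real.exp_nat_mul]; norm_num
    have e3 : (3 : ℝ) ≤ Real.exp 2 := by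
      have := Real.add_one_le_exp (2 : ℝ)
      linarith
    have e4 : H ^ 2 = Real.exp (4 * m * Y) := by
      rw [hHdef, ← Real.exp_nat_mul]
      congr 1
      push_cast
      ring
    have hmY : (4000 : ℝ) * Y ≤ m * Y := by gcongr
    calc nrm B ^ 2 * (p0 * (3 * (p0 ^ 2 * H ^ 2)))
        = nrm B ^ 2 * 3 * (p0 : ℝ) ^ 3 * H ^ 2 := by ring
      _ ≤ Real.exp (2 * (J + 2 * m * Y)) * Real.exp 2 * Real.exp (2 * Y) * Real.exp (4 * m * Y) := by
          rw [e4]
          gcongr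
      _ = Real.exp (2 * (J + 2 * m * Y) + 2 + 2 * Y + 4 * m * Y) := by
          rw [Real.exp_add, Real.exp_add, Real.exp_add]
      _ ≤ Real.exp (-Y + 160 * m * Y) := by
          apply Real.exp_le_exp.mpr
          linarith
      _ = Real.exp (-Y) * (T * 1) := by rw [Real.exp_add, mul_one]
      _ ≤ Real.exp (-Y) * (T * E) := by gcongr
  have habs : |(∫ t in (0 : ℝ)..T, F t).re| ≤ ‖∫ t in (0 : ℝ)..T, F t‖ := Complex.abs_re_le_norm _
  have := (abs_le.mp (habs.trans (hFbound.trans hfin))).1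
  exact this

end Pool.Agent.Lib.U2
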