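import Mathlib
import Pool.Agent.Lib.MP_f9aece_nt_u2.Stmts
import Pool.Agent.Lib.MP_f9aece_nt_h40.GForms
import Pool.Agent.Lib.MP_f9aece_nt_h40.FormsTwoC
import Pool.Agent.Lib.MP_f9aece_nt_h97.OffF4
import Pool.Agent.Lib.MP_f9aece_nt_h97.TSM

/-!
The quadratic forms needed on the critical line (module A3 of the project `UpToTwo`).
-/

set_option autoImplicit false

namespace Pool.Agent.Lib.U2

open MeasureTheory Set Filter Topology Complex
open Pool.Agent.Lib.MP_f9aece_nt Pool.Agent.Lib.MP_f9aece_nt_h97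

namespace H91

/-- constant of the small primes, kernel `K2` -/
noncomputable def cs1 : ℝ := |BK K2 (Dsm 2) (Dsm 2)|

/-- constant of the small primes, kernel `KL` -/
noncomputable def cs2 : ℝ := |BK KL (Dsm 2) (Dsm 2)|

/-- constant of the forms of the mollifier -/
noncomputable def CF : ℝ := (cs2 + 78 * cs1 + cs1) * Real.exp (2 + Real.log 2 + 3.401)

lemma CF_nonneg : 0 ≤ CF := by
  unfold CF cs1 cs2
  positivity

lemma forms_KL {m : ℕ} (hm : 4000 ≤ m) {k : ℝ} (hk0 : 0 ≤ k) (hk1 : k ≤ 1) {Y : ℝ} (hY : 1 ≤ Y)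
    {J : ℕ} (hJ : Y / 4 ^ J < Real.log 2) :
    |BK K2 (Dm m 2 (1 - k) Y J) (Dm m 2 (1 - k) Y J)| ≤ CF * Y ^ (k ^ 2 - 1) ∧
    |BK KL (Dm m 2 (1 - k) Y J) (Dm m 2 (1 - k) Y J)| ≤ CF * Y ^ (k ^ 2) := by
  have hc10 : 0 ≤ cs1 := abs_nonneg _
  have hc20 : 0 ≤ cs2 := abs_nonneg _
  unfold CF
  set c1 := cs1 with hc1
  set c2 := cs2 with hc2
  set E := Real.exp (2 + Real.log 2 + 3.401) with hE
  have hE0 : 0 < E := Real.exp_pos _
  have hY0 : 0 < Y := by linarith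
  have ha0 : 0 ≤ 1 - k := by linarith
  have ha1 : 1 - k ≤ 1 := by linarith
  obtain ⟨d1, d2⟩ := MP_f9aece_nt_h40.DD_bounds MP_f9aece_nt_h40.logKer_KL hm
    (by norm_num : 1 ≤ 2) hY0 ha0 ha1 J
  have hV := sum_VV_ge hY (by norm_num : 1 ≤ 2) hJ
  push_cast at hV
  set S := ∑ j ∈ Finset.range J, VV (sc Y 2 j) with hS
  have hlogp : 0 ≤ Real.log 2 := Real.log_nonneg (by norm_num)
  have hexp : Real.exp (((1 - k) ^ 2 - 2 * (1 - k)) * S + 3.401 * (1 - k)) ≤ E * Y ^ (k ^ 2 - 1) := by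
    rw [hE, Real.rpow_def_of_pos hY0, ← Real.exp_add]
    apply Real.exp_le_exp.mpr
    have e : (1 - k) ^ 2 - 2 * (1 - k) = k ^ 2 - 1 := by ring
    rw [e]
    have hk2 : k ^ 2 - 1 ≤ 0 := by
      have := pow_le_one₀ hk0 hk1 (n := 2)
      linarith
    have h1 : (k ^ 2 - 1) * S ≤ (k ^ 2 - 1) * (Real.log Y - 2 - Real.log 2) :=
      mul_le_mul_of_nonpos_left hV hk2
    have h2 : 0 ≤ k ^ 2 * (2 + Real.log 2) := by positivity
    have e2 : (k ^ 2 - 1) * (Real.log Y - 2 - Real.log 2)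
        = Real.log Y * (k ^ 2 - 1) + (2 + Real.log 2) - k ^ 2 * (2 + Real.log 2) := by ring
    rw [e2] at h1
    linarith
  have hds : Disjoint (Psm 2 : Set ℕ) (⋃ j ∈ Finset.range J, (sc Y 2 j : Set ℕ)) := disj_Psm
  have hs1 := sup_Dsm 2
  have hs2 := sup_DD (m := m) (p0 := 2) (Y := Y) (J := J) (-(1 - k))
  have hYk : 0 < Y ^ (k ^ 2 - 1) := Real.rpow_pos_of_pos hY0 _
  have hYk2 : Y ^ (k ^ 2) = Y * Y ^ (k ^ 2 - 1) := by
    rw [Real.rpow_sub hY0, Real.rpow_one]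
    field_simp
  set W := E * Y ^ (k ^ 2 - 1) with hW
  have hW0 : 0 < W := by positivity
  have b1 : |BK K2 (DD m 2 (-(1 - k)) Y J) (DD m 2 (-(1 - k)) Y J)| ≤ W := d1.trans hexp
  have b2 : |BK KL (DD m 2 (-(1 - k)) Y J) (DD m 2 (-(1 - k)) Y J)| ≤ (78 * Y) * W := by
    refine d2.trans ?_
    have : 26 * (1 - k) * (Y + 2) ≤ 78 * Y := by
      calc 26 * (1 - k) * (Y + 2) ≤ 26 * 1 * (Y + 2 * Y) := by gcongr; linarith
        _ = _ := by ring
    gcongr
  unfold Dm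
  rw [BK_mul_sup K2 hs1 hs1 hs2 hs2 fun x hx x' hx' y hy y' hy' => K2_mul hds hx hx' hy hy',
    BK_mul_der K2 KL hs1 hs1 hs2 hs2 fun x hx x' hx' y hy y' hy' =>
      MP_f9aece_nt_h40.logKer_KL.mul _ _ hds x hx x' hx' y hy y' hy']
  constructor
  · rw [abs_mul]
    calc cs1 * |BK K2 (DD m 2 (-(1 - k)) Y J) (DD m 2 (-(1 - k)) Y J)| ≤ c1 * W := by
          rw [← hc1]; gcongr
      _ ≤ (c2 + 78 * c1 + c1) * W := by
          gcongr
          linarith
      _ = _ := by rw [hW]; ring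
  · refine (abs_add_le _ _).trans ?_
    rw [abs_mul, abs_mul]
    calc cs2 * |BK K2 (DD m 2 (-(1 - k)) Y J) (DD m 2 (-(1 - k)) Y J)|
          + cs1 * |BK KL (DD m 2 (-(1 - k)) Y J) (DD m 2 (-(1 - k)) Y J)|
        ≤ c2 * W + c1 * (78 * Y * W) := by rw [← hc1, ← hc2]; gcongr
      _ ≤ c2 * (Y * W) + c1 * (78 * Y * W) + c1 * (Y * W) := by
          have h1 : c2 * W ≤ c2 * (Y * W) := by
            gcongr
            exact le_mul_of_one_le_left hW0.le hY
          have h2 : 0 ≤ c1 * (Y * W) := by positivity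
          linarith
      _ = (c2 + 78 * c1 + c1) * E * Y ^ (k ^ 2) := by
          rw [hYk2, hW]; ring

lemma tm_le_one {m : ℕ} (hm : 4000 ≤ m) : tm m ≤ 1 := by
  unfold tm
  rw [div_le_one (by positivity)]
  exact pow_le_pow_right₀ (by norm_num) (by omega)

lemma xe_le {m : ℕ} (hm : 4000 ≤ m) : xe 2 m ≤ 4 := by
  have h1 := tm_le_one hm
  unfold xe
  push_cast
  linarith

lemma QT_one (Y : ℝ) (J : ℕ) : QT 1 2 Y J = ∑ j ∈ Finset.range J, VV (sc Y 2 j) := by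
  unfold QT QS VV
  refine Finset.sum_congr rfl fun j _ => Finset.sum_congr rfl fun p _ => ?_
  rw [Real.rpow_neg_one]

end H91

open H91 in
theorem midForms : MidForms := by
  obtain ⟨C, T0, hC, hT0, htsm⟩ := tsm (ε := 1) one_pos le_rfl
  set Ca := Real.exp (2 + Real.log 2 + 4) with hCa
  have hlog2 : 0 ≤ Real.log 2 := Real.log_nonneg (by norm_num)
  have hCa1 : 1 ≤ Ca := Real.one_le_exp (by positivity)
  have hCF := CF_nonneg
  set K := Ca * (322 * CF + C * CF + C) with hK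
  have hK0 : 0 ≤ K := by positivity
  have hlogT0 : 0 ≤ Real.log T0 := Real.log_nonneg hT0
  refine ⟨1 + Real.exp 8 + Ca + K, by have := Real.exp_pos 8; linarith, ?_⟩
  intro m hm
  refine ⟨1 + Real.log T0, by linarith, ?_⟩
  intro Y hYY J hJY hJ k hk0 hk1
  have hY : 1 ≤ Y := by linarith
  have hY0 : 0 < Y := by linarith
  have hm1 : 1044 ≤ m := by omega
  have hmr : (4000 : ℝ) ≤ m := by exact_mod_cast hm
  have hxe := xe_le hm
  have hxe0 : 0 < xe 2 m := xe_pos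
  have h1 := DD_K1s_ge (s := 1) (k := k) (J := J) (m := m) hY0 le_rfl hk0.le hk1 (le_refl 2) hm1
  have h2 := DD_K1s_le (s := 1) (k := k) (J := J) (m := m) hY0 le_rfl hk0.le hk1 (le_refl 2) hm1
  have h3 := DD_Kcs (s := 1) (k := k) (J := J) (m := m) hY0 le_rfl hk0.le hk1 (le_refl 2) hm1
  have h4 := Dm_Kcs (s := 1) (m := m) (p0 := 2) (Y := Y) (J := J) le_rfl (1 - k) k
  have hV := sum_VV_ge hY (by norm_num : 1 ≤ 2) hJ
  push_cast at hV
  rw [QT_one] at h1 h2 h3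
  set S := ∑ j ∈ Finset.range J, VV (sc Y 2 j) with hS
  rw [h4]
  have eB : BK (K1s 1) (Bm m 2 k Y J) (Bm m 2 k Y J)
      = BK (K1s 1) (DD m 2 k Y J) (DD m 2 k Y J) := rfl
  rw [eB]
  set E := BK (K1s 1) (DD m 2 k Y J) (DD m 2 k Y J) with hE
  set F := BK (Kcs 1) (DD m 2 (-(1 - k)) Y J) (DD m 2 k Y J) with hF
  have hE0 : 0 < E := lt_of_lt_of_le (Real.exp_pos _) h1
  have hF0 : 0 < F := lt_of_lt_of_le (Real.exp_pos _) h3
  have hk2 : k ^ 2 ≤ 1 := pow_le_one₀ hk0.le hk1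
  have hk20 : 0 ≤ k ^ 2 := sq_nonneg k
  -- (a)
  have ha : Y ^ (k ^ 2) ≤ Ca * E := by
    calc Y ^ (k ^ 2) = Real.exp (Real.log Y * k ^ 2) := Real.rpow_def_of_pos hY0 _
      _ ≤ Real.exp ((2 + Real.log 2 + 4) + (k ^ 2 * S - xe 2 m)) := by
          apply Real.exp_le_exp.mpr
          have h5 : k ^ 2 * (Real.log Y - 2 - Real.log 2) ≤ k ^ 2 * S := by gcongr
          have h6 : k ^ 2 * (2 + Real.log 2) ≤ 1 * (2 + Real.log 2) := by gcongr
          linarith
      _ = Ca * Real.exp (k ^ 2 * S - xe 2 m) := by rw [Real.exp_add]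
      _ ≤ _ := by gcongr
  -- (b)
  have hb : E ≤ Real.exp 8 * F := by
    calc E ≤ Real.exp (k ^ 2 * S + xe 2 m) := h2
      _ ≤ Real.exp (8 + (k ^ 2 * S - xe 2 m)) := Real.exp_le_exp.mpr (by linarith)
      _ = Real.exp 8 * Real.exp (k ^ 2 * S - xe 2 m) := by rw [Real.exp_add]
      _ ≤ _ := by gcongr
  have hexp8 := Real.exp_pos 8
  refine ⟨ha.trans ?_, hb.trans ?_, ?_⟩
  · gcongr; linarith
  · gcongr; linarith
  -- (c)
  set T := Real.exp (160 * m * Y) with hT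
  have hTpos : 0 < T := Real.exp_pos _
  have hlogT : Real.log T = 160 * m * Y := Real.log_exp _
  have hTT0 : T0 ≤ T := by
    have hT0p : 0 < T0 := by linarith
    rw [← Real.exp_log hT0p, hT]
    apply Real.exp_le_exp.mpr
    have h5 : Y ≤ 160 * m * Y := le_mul_of_one_le_left hY0.le (by linarith)
    linarith
  have hab : |1 - k| ≤ 1 := by rw [abs_of_nonneg (by linarith)]; linarith
  set D := Dm m 2 (1 - k) Y J with hD
  have hlen := MP_f9aece_nt_h40.len_D m (by norm_num : 1 ≤ 2) hab hY0 J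
  have hnrm := MP_f9aece_nt_h40.nrm_D m 2 hab hY0 J
  rw [← hD] at hlen hnrm
  set H := ((2 : ℕ) : ℝ) ^ 2 * Real.exp (2 * m * Y) with hH
  have hH1 : 1 ≤ H := by
    rw [hH]
    have : 1 ≤ Real.exp (2 * m * Y) := Real.one_le_exp (by positivity)
    push_cast
    linarith
  have h5 := htsm T hTT0 D H hH1 hlen
  obtain ⟨h6, h7⟩ := forms_KL hm hk0.le hk1 hY hJ
  rw [← hD] at h6 h7
  set Z := Y ^ (k ^ 2) with hZ
  have hZ1 : 1 ≤ Z := Real.one_le_rpow hY hk20
  have hZ0 : 0 < Z := by linarith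
  have hYk2 : Y * Y ^ (k ^ 2 - 1) = Z := by
    rw [hZ, Real.rpow_sub hY0, Real.rpow_one, mul_div_cancel₀ _ hY0.ne']
  have hYm : Y ^ (k ^ 2 - 1) ≤ Z := Real.rpow_le_rpow_of_exponent_le hY (by linarith)
  -- error
  have herr : (nrm D * H) ^ 2 / T ^ (1 / 16 : ℝ) ≤ 1 := by
    have hTr : T ^ (1 / 16 : ℝ) = Real.exp (10 * m * Y) := by
      rw [hT, ← Real.exp_mul]
      congr 1
      ring
    rw [hTr, div_le_one (Real.exp_pos _)]
    have e16 : (16 : ℝ) ≤ Real.exp 3 := by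
      have : Real.exp 3 = Real.exp 1 ^ 3 := by rw [← Real.exp_nat_mul]; norm_num
      rw [this]
      calc (16 : ℝ) ≤ 2.7182818283 ^ 3 := by norm_num
        _ ≤ _ := by
          gcongr
          exact Real.exp_one_gt_d9.le
    have h8 : nrm D * H ≤ Real.exp (3 + J + 4 * m * Y) := by
      calc nrm D * H ≤ (2 ^ 2 * Real.exp (J + 2 * m * Y)) * H := by
            gcongr
        _ = 16 * Real.exp (J + 4 * m * Y) := by
            rw [hH]
            push_cast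
            have : Real.exp (J + 4 * m * Y) = Real.exp (J + 2 * m * Y) * Real.exp (2 * m * Y) := by
              rw [← Real.exp_add]; congr 1; ring
            rw [this]; ring
        _ ≤ Real.exp 3 * Real.exp (J + 4 * m * Y) := by gcongr
        _ = _ := by rw [← Real.exp_add]; congr 1; ring
    have h9 : 0 ≤ nrm D * H := mul_nonneg (nrm_nonneg D) (by linarith)
    calc (nrm D * H) ^ 2 ≤ Real.exp (3 + J + 4 * m * Y) ^ 2 := by gcongr
      _ = Real.exp (2 * (3 + J + 4 * m * Y)) := by rw [← Real.exp_nat_mul]; norm_num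
      _ ≤ _ := by
          apply Real.exp_le_exp.mpr
          have h10 : (4000 : ℝ) * Y ≤ m * Y := by gcongr
          linarith
  refine h5.trans ?_
  rw [hlogT]
  have hm1r : (1 : ℝ) ≤ m := by linarith
  have g1 : 160 * m * Y * |BK K2 D D| ≤ 160 * m * CF * Z := by
    calc 160 * m * Y * |BK K2 D D| ≤ 160 * m * Y * (CF * Y ^ (k ^ 2 - 1)) := by gcongr
      _ = 160 * m * CF * (Y * Y ^ (k ^ 2 - 1)) := by ring
      _ = _ := by rw [hYk2]
  have g2 : C * |BK K2 D D| ≤ C * (CF * Z) := by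
    calc C * |BK K2 D D| ≤ C * (CF * Y ^ (k ^ 2 - 1)) := by gcongr
      _ ≤ _ := by gcongr
  have g3 : C * (nrm D * H) ^ 2 / T ^ (1 / 16 : ℝ) ≤ C := by
    rw [mul_div_assoc]
    calc C * ((nrm D * H) ^ 2 / T ^ (1 / 16 : ℝ)) ≤ C * 1 := by gcongr
      _ = C := mul_one _
  have g4 : (1 + 1) * (160 * m * Y * |BK K2 D D| + |BK KL D D|) + C * |BK K2 D D|
      + C * (nrm D * H) ^ 2 / T ^ (1 / 16 : ℝ) ≤ m * (322 * CF + C * CF + C) * Z := by
    have g5 : CF * Z ≤ m * (CF * Z) := le_mul_of_one_le_left (by positivity) hm1r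
    have g6 : C * (CF * Z) ≤ m * (C * (CF * Z)) := le_mul_of_one_le_left (by positivity) hm1r
    have g7 : C ≤ m * (C * Z) :=
      (le_mul_of_one_le_right hC hZ1).trans (le_mul_of_one_le_left (by positivity) hm1r)
    calc (1 + 1) * (160 * m * Y * |BK K2 D D| + |BK KL D D|) + C * |BK K2 D D|
      + C * (nrm D * H) ^ 2 / T ^ (1 / 16 : ℝ)
        ≤ (1 + 1) * (160 * m * CF * Z + CF * Z) + C * (CF * Z) + C := by gcongr
      _ ≤ (1 + 1) * (160 * m * CF * Z + m * (CF * Z)) + m * (C * (CF * Z)) + m * (C * Z) := by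
          gcongr
      _ = _ := by ring
  have hKE : (322 * CF + C * CF + C) * Z ≤ K * E := by
    rw [hK]
    calc (322 * CF + C * CF + C) * Z ≤ (322 * CF + C * CF + C) * (Ca * E) := by gcongr
      _ = _ := by ring
  calc T * ((1 + 1) * (160 * m * Y * |BK K2 D D| + |BK KL D D|) + C * |BK K2 D D|
      + C * (nrm D * H) ^ 2 / T ^ (1 / 16 : ℝ))
      ≤ T * (m * (322 * CF + C * CF + C) * Z) := by gcongr
    _ = T * m * ((322 * CF + C * CF + C) * Z) := by ring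
    _ ≤ T * m * (K * E) := by gcongr
    _ ≤ T * m * ((1 + Real.exp 8 + Ca + K) * E) := by
        gcongr
        linarith
    _ = _ := by ring

end Pool.Agent.Lib.U2
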