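import Mathlib
import Pool.Agent.Lib.MP_f9aece_nt_u2.Stmts
import Pool.Agent.Lib.MP_f9aece_nt_h5.Tilt
import Pool.Agent.Lib.MP_f9aece_nt_h85.Tail

/-!
The pointwise inequality on the critical line behind the lower bound with a constant.
-/

set_option autoImplicit false

namespace Pool.Agent.Lib.U2.H29

open MeasureTheory Set Filter Topology Complex
open Pool.Agent.Lib.MP_f9aece_nt Pool.Agent.Lib.MP_f9aece_nt_h97 Pool.Agent.Lib.MP_f9aece_nt_h5

/-- the scalar inequality -/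
lemma scalar_mid {k x y K : ℝ} (hk0 : 0 < k) (hk : k ≤ 1) (hK : 1 ≤ K) (hx : 0 ≤ x) (hy : 0 < y) :
    1 / K * (x * y - 2 / K * x ^ 2 - 1 / K * y ^ 2) ≤ x ^ (2 * k) * y ^ (2 * (1 - k)) := by
  have hK0 : 0 < K := by linarith
  have hrhs : 0 ≤ x ^ (2 * k) * y ^ (2 * (1 - k)) := by positivity
  by_cases hneg : x * y - 2 / K * x ^ 2 - 1 / K * y ^ 2 ≤ 0
  · exact (mul_nonpos_of_nonneg_of_nonpos (by positivity) hneg).trans hrhs
  push Not at hneg
  have hx0 : 0 < x := by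
    rcases hx.lt_or_eq with h | h
    · exact h
    · exfalso
      rw [← h] at hneg
      have : 0 ≤ 1 / K * y ^ 2 := by positivity
      nlinarith
  set r := x / y with hr
  have hr0 : 0 < r := div_pos hx0 hy
  have hxr : x = r * y := by rw [hr]; field_simp
  have e1 : x * y - 2 / K * x ^ 2 - 1 / K * y ^ 2 = y ^ 2 * (r - 2 / K * r ^ 2 - 1 / K) := by
    rw [hxr]; ring
  have e2 : x ^ (2 * k) * y ^ (2 * (1 - k)) = y ^ 2 * r ^ (2 * k) := by
    rw [hxr, Real.mul_rpow hr0.le hy.le, mul_assoc, ← Real.rpow_add hy]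
    have : 2 * k + 2 * (1 - k) = 2 := by ring
    rw [this, Real.rpow_two]
    ring
  rw [e1] at hneg ⊢
  rw [e2]
  have hy2 : 0 < y ^ 2 := by positivity
  have h1 : 0 < r - 2 / K * r ^ 2 - 1 / K := by
    by_contra hcon
    push Not at hcon
    have : y ^ 2 * (r - 2 / K * r ^ 2 - 1 / K) ≤ 0 := mul_nonpos_of_nonneg_of_nonpos hy2.le hcon
    linarith
  have h2 : 1 / K < r := by
    have : 0 ≤ 2 / K * r ^ 2 := by positivity
    linarith
  have h3 : 2 * r < K := by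
    have h4 : 0 < r - 2 / K * r ^ 2 := by
      have : 0 < 1 / K := by positivity
      linarith
    have h5 : r - 2 / K * r ^ 2 = r * (1 - 2 * r / K) := by field_simp
    rw [h5] at h4
    have h6 : 0 < 1 - 2 * r / K := by
      by_contra hcon
      push Not at hcon
      have := mul_nonpos_of_nonneg_of_nonpos hr0.le hcon
      linarith
    have h7 : 2 * r / K < 1 := by linarith
    rwa [div_lt_one hK0] at h7
  have key : r ≤ K * r ^ (2 * k) := by
    rcases le_or_gt r 1 with hr1 | hr1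
    · have h4 : r ^ (2 : ℝ) ≤ r ^ (2 * k) :=
        Real.rpow_le_rpow_of_exponent_ge hr0 hr1 (by linarith)
      rw [Real.rpow_two] at h4
      have h5 : 1 ≤ K * r := by
        rw [div_lt_iff₀ hK0] at h2
        linarith
      calc r ≤ K * r * r := by nlinarith
        _ = K * r ^ 2 := by ring
        _ ≤ _ := by gcongr
    · have h4 : 1 ≤ r ^ (2 * k) := Real.one_le_rpow hr1.le (by linarith)
      calc r ≤ K := by linarith
        _ ≤ K * r ^ (2 * k) := le_mul_of_one_le_right hK0.le h4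
  calc 1 / K * (y ^ 2 * (r - 2 / K * r ^ 2 - 1 / K)) ≤ 1 / K * (y ^ 2 * r) := by
        have h8 : 0 ≤ 2 / K * r ^ 2 := by positivity
        have h9 : 0 ≤ 1 / K := by positivity
        gcongr
        linarith
    _ ≤ 1 / K * (y ^ 2 * (K * r ^ (2 * k))) := by gcongr
    _ = y ^ 2 * r ^ (2 * k) := by field_simp

lemma prod_Psm_two : ∏ p ∈ Psm 2, (1 + (p : ℝ) ^ (-(1 / 2) : ℝ)) ≤ 1.71 := by
  have h : Psm 2 = {2} := by
    ext p
    simp only [Psm, Finset.mem_filter, Finset.mem_Ioc, Finset.mem_singleton]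
    constructor
    · rintro ⟨⟨h1, h2⟩, h3⟩
      have := h3.two_le
      omega
    · rintro rfl
      exact ⟨⟨by norm_num, le_rfl⟩, Nat.prime_two⟩
  rw [h, Finset.prod_singleton]
  have h2 : ((2 : ℕ) : ℝ) ^ (-(1 / 2) : ℝ) = (Real.sqrt 2)⁻¹ := by
    rw [Real.rpow_neg (by norm_num), Real.sqrt_eq_rpow]
    norm_num
  rw [h2]
  have h3 : (1.41 : ℝ) ≤ Real.sqrt 2 := by
    apply Real.le_sqrt_of_sq_le
    norm_num
  have h4 : (Real.sqrt 2)⁻¹ ≤ (1.41 : ℝ)⁻¹ := by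
    apply inv_anti₀ (by norm_num) h3
  have h5 : (1.41 : ℝ)⁻¹ ≤ 0.7093 := by norm_num
  linarith

/-- the product bound for small prime sums -/
lemma prod_bound {m : ℕ} (hm : 4000 ≤ m) {k : ℝ} (hk0 : 0 < k) (hk : k ≤ 1) (Y : ℝ) (J : ℕ) (t : ℝ)
    (hbig : ∀ j ∈ Finset.range J, ‖Pj 2 Y (1 / 2) j t‖ ≤ (Mm m j : ℝ) / 10) :
    0 < ‖ev t (Bm m 2 k Y J)‖ ∧
    ‖ev t (Dm m 2 (1 - k) Y J)‖ ^ (2 * k) * ‖ev t (Bm m 2 k Y J)‖ ^ (2 * (1 - k)) ≤ 4 := by
  have hMpos : ∀ j, (0 : ℝ) < Mm m j := fun j => by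
    have := Mm_add_le (m := m) (by omega) j
    exact_mod_cast (by omega : 0 < Mm m j)
  have hsmall : ∀ j ∈ Finset.range J, ‖Pj 2 Y (1 / 2) j t‖ ≤ ((Mm m j + 1 : ℕ) : ℝ) / 10 := by
    intro j hj
    refine (hbig j hj).trans ?_
    push_cast
    linarith
  have hPj : ∀ j, Pj 2 Y (1 / 2) j t = ∑ p ∈ sc Y 2 j, (p : ℂ) ^ (-(1 / 2 + I * t : ℂ)) := by
    intro j
    unfold Pj
    norm_num
  have hBeq : ‖ev t (Bm m 2 k Y J)‖ = ∏ j ∈ Finset.range J, ‖EE (Mm m j) (k * Pj 2 Y (1 / 2) j t)‖ := by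
    rw [← MP_f9aece_nt_h85.evs_half]
    change ‖evs (1 / 2 + I * t) (DD m 2 k Y J)‖ = _
    rw [evs_DD, norm_prod]
    exact Finset.prod_congr rfl fun j _ => by rw [hPj]
  have hDeq : ‖ev t (Dm m 2 (1 - k) Y J)‖ = ‖evs (1 / 2 + I * t) (Dsm 2)‖
      * ∏ j ∈ Finset.range J, ‖EE (Mm m j) ((-(1 - k) : ℝ) * Pj 2 Y (1 / 2) j t)‖ := by
    rw [← MP_f9aece_nt_h85.evs_half]
    change ‖evs (1 / 2 + I * t) (Dsm 2 * DD m 2 (-(1 - k)) Y J)‖ = _
    rw [evs_mul, norm_mul, evs_DD, norm_prod]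
    congr 1
    exact Finset.prod_congr rfl fun j _ => by rw [hPj]
  have hk1 : |k| ≤ 1 := by rw [abs_of_pos hk0]; exact hk
  have ha1 : |-(1 - k)| ≤ 1 := by rw [abs_neg, abs_of_nonneg (by linarith)]; linarith
  have hM1 : ∀ j, 1 ≤ Mm m j := fun j => by exact_mod_cast hMpos j
  refine ⟨?_, ?_⟩
  · rw [hBeq]
    refine Finset.prod_pos fun j hj => ?_
    have h1 := norm_EE_ge hk1 (hsmall j hj)
    have h2 := dl_le (hM1 j)
    have h3 := dl_pos (Mm m j)
    refine lt_of_lt_of_le ?_ h1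
    rw [abs_of_pos hk0]
    have : k * MP_f9aece_nt_h97.dl (Mm m j) ≤ 1 * (1 / 4) := by gcongr
    have : 0 < 1 - k * MP_f9aece_nt_h97.dl (Mm m j) := by linarith
    positivity
  · rw [hBeq, hDeq, Real.mul_rpow (norm_nonneg _) (Finset.prod_nonneg fun _ _ => norm_nonneg _),
      ← Real.finsetProd_rpow _ _ (fun _ _ => norm_nonneg _),
      ← Real.finsetProd_rpow _ _ (fun _ _ => norm_nonneg _), mul_assoc, ← Finset.prod_mul_distrib]
    have h1 : ∏ j ∈ Finset.range J, (‖EE (Mm m j) ((-(1 - k) : ℝ) * Pj 2 Y (1 / 2) j t)‖ ^ (2 * k)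
        * ‖EE (Mm m j) (k * Pj 2 Y (1 / 2) j t)‖ ^ (2 * (1 - k)))
        ≤ ∏ j ∈ Finset.range J, Real.exp (2 * MP_f9aece_nt_h97.dl (Mm m j)) := by
      refine Finset.prod_le_prod (fun _ _ => by positivity) fun j hj => ?_
      have u1 := norm_EE_le_exp ha1 (hsmall j hj)
      have u2 := norm_EE_le_exp hk1 (hsmall j hj)
      set x := (Pj 2 Y (1 / 2) j t).re
      set d := MP_f9aece_nt_h97.dl (Mm m j) with hd
      have hd0 : 0 < d := dl_pos _
      have v1 : ‖EE (Mm m j) ((-(1 - k) : ℝ) * Pj 2 Y (1 / 2) j t)‖ ≤ Real.exp (d + -(1 - k) * x) := by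
        rw [Real.exp_add]
        refine u1.trans ?_
        gcongr
        linarith [Real.add_one_le_exp d]
      have v2 : ‖EE (Mm m j) (k * Pj 2 Y (1 / 2) j t)‖ ≤ Real.exp (d + k * x) := by
        rw [Real.exp_add]
        refine u2.trans ?_
        gcongr
        linarith [Real.add_one_le_exp d]
      calc ‖EE (Mm m j) ((-(1 - k) : ℝ) * Pj 2 Y (1 / 2) j t)‖ ^ (2 * k)
            * ‖EE (Mm m j) (k * Pj 2 Y (1 / 2) j t)‖ ^ (2 * (1 - k))
          ≤ Real.exp (d + -(1 - k) * x) ^ (2 * k) * Real.exp (d + k * x) ^ (2 * (1 - k)) := by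
            apply mul_le_mul (Real.rpow_le_rpow (norm_nonneg _) v1 (by linarith))
              (Real.rpow_le_rpow (norm_nonneg _) v2 (by linarith)) (by positivity) (by positivity)
        _ = Real.exp (2 * d) := by
            rw [← Real.exp_mul, ← Real.exp_mul, ← Real.exp_add]
            congr 1
            ring
    have h2 : ∏ j ∈ Finset.range J, Real.exp (2 * MP_f9aece_nt_h97.dl (Mm m j))
        ≤ Real.exp (4 * (1 / 2) ^ m) := by
      rw [← Real.exp_sum, ← Finset.mul_sum]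
      apply Real.exp_le_exp.mpr
      have := sum_dl_le (m := m) (by omega) J
      linarith
    have h2' : Real.exp (4 * (1 / 2) ^ m) ≤ 1.3 := by
      have h4 : (1 / 2 : ℝ) ^ m ≤ (1 / 2) ^ 10 := pow_le_pow_of_le_one (by norm_num) (by norm_num) (by omega)
      have h5 : (4 : ℝ) * (1 / 2) ^ m ≤ 1 / 256 := by
        have : (1 / 2 : ℝ) ^ 10 = 1 / 1024 := by norm_num
        rw [this] at h4
        linarith
      have h6 := Real.abs_exp_sub_one_le (x := 1 / 256) (by norm_num)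
      have h7 := Real.exp_le_exp.mpr h5
      have h8 := (abs_le.mp h6).2
      rw [abs_of_pos (by norm_num : (0 : ℝ) < 1 / 256)] at h8
      linarith
    have h3 : ‖evs (1 / 2 + I * t) (Dsm 2)‖ ^ (2 * k) ≤ 3 := by
      have h4 : ‖evs (1 / 2 + I * t) (Dsm 2)‖ ≤ 1.71 := by
        have := norm_Dsm_le (p0 := 2) (σ := 1 / 2) le_rfl t
        push_cast at this
        exact this.trans prod_Psm_two
      calc ‖evs (1 / 2 + I * t) (Dsm 2)‖ ^ (2 * k) ≤ (1.71 : ℝ) ^ (2 * k) :=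
            Real.rpow_le_rpow (norm_nonneg _) h4 (by linarith)
        _ ≤ (1.71 : ℝ) ^ (2 : ℝ) := Real.rpow_le_rpow_of_exponent_le (by norm_num) (by linarith)
        _ ≤ 3 := by rw [Real.rpow_two]; norm_num
    calc ‖evs (1 / 2 + I * t) (Dsm 2)‖ ^ (2 * k) *
          ∏ j ∈ Finset.range J, (‖EE (Mm m j) ((-(1 - k) : ℝ) * Pj 2 Y (1 / 2) j t)‖ ^ (2 * k)
            * ‖EE (Mm m j) (k * Pj 2 Y (1 / 2) j t)‖ ^ (2 * (1 - k)))
        ≤ 3 * 1.3 :=
          mul_le_mul h3 ((h1.trans h2).trans h2') (Finset.prod_nonneg fun _ _ => by positivity)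
            (by norm_num)
      _ ≤ 4 := by norm_num

end Pool.Agent.Lib.U2.H29

namespace Pool.Agent.Lib.U2

open MeasureTheory Set Filter Topology Complex
open Pool.Agent.Lib.MP_f9aece_nt Pool.Agent.Lib.MP_f9aece_nt_h97 Pool.Agent.Lib.MP_f9aece_nt_h5
open H29

/-- **The pointwise inequality.** -/
theorem midPoint : MidPoint := by
  intro m hm k hk0 hk Y J t K hK z
  set B := ev t (Bm m 2 k Y J) with hB
  set D := ev t (Dm m 2 (1 - k) Y J) with hD
  set Q := ∑ j ∈ Finset.range J, (‖Pj 2 Y (1 / 2) j t‖ / ((Mm m j : ℝ) / 10)) ^ (2 * Mm m j) with hQ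
  have hK0 : 0 < K := by linarith
  have hMpos : ∀ j, (0 : ℝ) < Mm m j := fun j => by
    have := Mm_add_le (m := m) (by omega) j
    exact_mod_cast (by omega : 0 < Mm m j)
  have hterm : ∀ j, 0 ≤ (‖Pj 2 Y (1 / 2) j t‖ / ((Mm m j : ℝ) / 10)) ^ (2 * Mm m j) := fun j => by
    have := hMpos j
    positivity
  have hQ0 : 0 ≤ Q := Finset.sum_nonneg fun j _ => hterm j
  have hrhs : 0 ≤ ‖z‖ ^ (2 * k) := by positivity
  have hre : (z * D * (starRingEnd ℂ) B).re ≤ ‖z * D‖ * ‖B‖ := by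
    refine (Complex.re_le_norm _).trans (le_of_eq ?_)
    rw [norm_mul, RCLike.norm_conj]
  set x := ‖z * D‖ with hx
  set y := ‖B‖ with hy
  have hx0 : 0 ≤ x := norm_nonneg _
  have hy0 : 0 ≤ y := norm_nonneg _
  by_cases hbig : ∃ j ∈ Finset.range J, (Mm m j : ℝ) / 10 < ‖Pj 2 Y (1 / 2) j t‖
  · obtain ⟨j, hj, hj1⟩ := hbig
    have h1 : 1 ≤ Q := by
      have h2 : 1 ≤ (‖Pj 2 Y (1 / 2) j t‖ / ((Mm m j : ℝ) / 10)) ^ (2 * Mm m j) := by
        apply one_le_pow₀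
        rw [le_div_iff₀ (by have := hMpos j; positivity)]
        linarith
      exact h2.trans (Finset.single_le_sum (fun i _ => hterm i) hj)
    refine le_trans ?_ (by positivity : 0 ≤ 16 * ‖z‖ ^ (2 * k))
    apply mul_nonpos_of_nonneg_of_nonpos (by positivity)
    have h3 : x * y ≤ 2 / K * x ^ 2 + K * y ^ 2 := by
      have h4 : 0 ≤ 2 / K * (x - K / 4 * y) ^ 2 := by positivity
      have h5 : 2 / K * (x - K / 4 * y) ^ 2 = 2 / K * x ^ 2 - x * y + K / 8 * y ^ 2 := by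
        field_simp
        ring
      have h6 : 0 ≤ K * y ^ 2 := by positivity
      nlinarith
    have h7 : K * y ^ 2 ≤ K * (y ^ 2 * Q) := by
      have : y ^ 2 * 1 ≤ y ^ 2 * Q := by gcongr
      have := mul_le_mul_of_nonneg_left this hK0.le
      linarith
    have h8 : 0 ≤ 1 / K * y ^ 2 := by positivity
    linarith
  · push Not at hbig
    obtain ⟨hBpos, hprod⟩ := prod_bound hm hk0 hk Y J t hbig
    have h1 := scalar_mid (x := x) (y := y) hk0 hk hK hx0 hBpos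
    have h2 : x ^ (2 * k) * y ^ (2 * (1 - k)) = ‖z‖ ^ (2 * k) * (‖D‖ ^ (2 * k) * y ^ (2 * (1 - k))) := by
      rw [hx, norm_mul, Real.mul_rpow (norm_nonneg _) (norm_nonneg _)]
      ring
    have h3 : 0 ≤ K * (y ^ 2 * Q) := by positivity
    calc 1 / K * ((z * D * (starRingEnd ℂ) B).re - 2 / K * x ^ 2 - 1 / K * y ^ 2 - K * (y ^ 2 * Q))
        ≤ 1 / K * (x * y - 2 / K * x ^ 2 - 1 / K * y ^ 2) := by
          apply mul_le_mul_of_nonneg_left _ (by positivity)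
          linarith
      _ ≤ ‖z‖ ^ (2 * k) * (‖D‖ ^ (2 * k) * y ^ (2 * (1 - k))) := by rw [← h2]; exact h1
      _ ≤ ‖z‖ ^ (2 * k) * 4 := by gcongr
      _ ≤ 16 * ‖z‖ ^ (2 * k) := by linarith

end Pool.Agent.Lib.U2
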