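import Mathlib
import Pool.Agent.Lib.MP_f9aece_nt_u2.MidPoint
import Pool.Agent.Lib.MP_f9aece_nt.Lower
import Pool.Agent.Lib.MP_f9aece_nt_h40.GFormsB

/-!
Lower bound with a constant for all exponents up to two, from its pieces.
-/

set_option autoImplicit false

namespace Pool.Agent.Lib.U2.H29

open MeasureTheory Set Filter Topology Complex
open Pool.Agent.Lib.MP_f9aece_nt Pool.Agent.Lib.MP_f9aece_nt_h97

/-- the integrated pointwise inequality -/
lemma mid_int (hP : MidPoint) {m : ℕ} (hm : 4000 ≤ m) {k : ℝ} (hk0 : 0 < k) (hk : k ≤ 1) (Y : ℝ) (J : ℕ)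
    {K : ℝ} (hK : 1 ≤ K) {T : ℝ} (hT : 0 ≤ T) :
    1 / K * ((∫ t in (0 : ℝ)..T, (riemannZeta (1 / 2 + I * t) * ev t (Dm m 2 (1 - k) Y J)
        * (starRingEnd ℂ) (ev t (Bm m 2 k Y J))).re)
      - 2 / K * (∫ t in (0 : ℝ)..T, ‖riemannZeta (1 / 2 + I * t) * ev t (Dm m 2 (1 - k) Y J)‖ ^ 2)
      - 1 / K * (∫ t in (0 : ℝ)..T, ‖ev t (Bm m 2 k Y J)‖ ^ 2)
      - K * ∑ j ∈ Finset.range J, ∫ t in (0 : ℝ)..T, ‖ev t (Bm m 2 k Y J)‖ ^ 2
          * (‖Pj 2 Y (1 / 2) j t‖ / ((Mm m j : ℝ) / 10)) ^ (2 * Mm m j))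
    ≤ 16 * M0 k T := by
  have cz := continuous_zeta
  have cD := continuous_ev (Dm m 2 (1 - k) Y J)
  have cB := continuous_ev (Bm m 2 k Y J)
  have cP : ∀ j, Continuous (fun t : ℝ => Pj 2 Y (1 / 2) j t) := by
    intro j
    unfold Pj
    refine continuous_finsetSum _ fun p hp => ?_
    refine Continuous.const_cpow (by fun_prop) ?_
    left
    exact_mod_cast (sc_prime hp).ne_zero
  have c1 : Continuous (fun t : ℝ => (riemannZeta (1 / 2 + I * t) * ev t (Dm m 2 (1 - k) Y J)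
        * (starRingEnd ℂ) (ev t (Bm m 2 k Y J))).re) :=
    Complex.continuous_re.comp ((cz.mul cD).mul (Complex.continuous_conj.comp cB))
  have c2 : Continuous (fun t : ℝ => ‖riemannZeta (1 / 2 + I * t) * ev t (Dm m 2 (1 - k) Y J)‖ ^ 2) :=
    (cz.mul cD).norm.pow 2
  have cB2 : Continuous (fun t : ℝ => ‖ev t (Bm m 2 k Y J)‖ ^ 2) := cB.norm.pow 2
  have cQ : ∀ j, Continuous (fun t : ℝ => ‖ev t (Bm m 2 k Y J)‖ ^ 2
      * (‖Pj 2 Y (1 / 2) j t‖ / ((Mm m j : ℝ) / 10)) ^ (2 * Mm m j)) :=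
    fun j => cB2.mul (((cP j).norm.div_const _).pow _)
  have cS : Continuous (fun t : ℝ => ∑ j ∈ Finset.range J, ‖ev t (Bm m 2 k Y J)‖ ^ 2
      * (‖Pj 2 Y (1 / 2) j t‖ / ((Mm m j : ℝ) / 10)) ^ (2 * Mm m j)) :=
    continuous_finsetSum _ fun j _ => cQ j
  have e1 : 1 / K * ((∫ t in (0 : ℝ)..T, (riemannZeta (1 / 2 + I * t) * ev t (Dm m 2 (1 - k) Y J)
        * (starRingEnd ℂ) (ev t (Bm m 2 k Y J))).re)
      - 2 / K * (∫ t in (0 : ℝ)..T, ‖riemannZeta (1 / 2 + I * t) * ev t (Dm m 2 (1 - k) Y J)‖ ^ 2)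
      - 1 / K * (∫ t in (0 : ℝ)..T, ‖ev t (Bm m 2 k Y J)‖ ^ 2)
      - K * ∑ j ∈ Finset.range J, ∫ t in (0 : ℝ)..T, ‖ev t (Bm m 2 k Y J)‖ ^ 2
          * (‖Pj 2 Y (1 / 2) j t‖ / ((Mm m j : ℝ) / 10)) ^ (2 * Mm m j))
      = ∫ t in (0 : ℝ)..T, 1 / K * ((riemannZeta (1 / 2 + I * t) * ev t (Dm m 2 (1 - k) Y J)
        * (starRingEnd ℂ) (ev t (Bm m 2 k Y J))).re
      - 2 / K * ‖riemannZeta (1 / 2 + I * t) * ev t (Dm m 2 (1 - k) Y J)‖ ^ 2
      - 1 / K * ‖ev t (Bm m 2 k Y J)‖ ^ 2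
      - K * ∑ j ∈ Finset.range J, ‖ev t (Bm m 2 k Y J)‖ ^ 2
          * (‖Pj 2 Y (1 / 2) j t‖ / ((Mm m j : ℝ) / 10)) ^ (2 * Mm m j)) := by
    rw [intervalIntegral.integral_const_mul, intervalIntegral.integral_sub,
      intervalIntegral.integral_sub, intervalIntegral.integral_sub,
      intervalIntegral.integral_const_mul, intervalIntegral.integral_const_mul,
      intervalIntegral.integral_const_mul, intervalIntegral.integral_finsetSum]
    · exact fun j _ => (cQ j).intervalIntegrable _ _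
    · exact c1.intervalIntegrable _ _
    · exact (c2.const_mul _).intervalIntegrable _ _
    · exact (c1.sub (c2.const_mul _)).intervalIntegrable _ _
    · exact (cB2.const_mul _).intervalIntegrable _ _
    · exact ((c1.sub (c2.const_mul _)).sub (cB2.const_mul _)).intervalIntegrable _ _
    · exact (cS.const_mul _).intervalIntegrable _ _
  have e2 : 16 * M0 k T = ∫ t in (0 : ℝ)..T, 16 * ‖riemannZeta (1 / 2 + I * t)‖ ^ (2 * k) := by
    rw [intervalIntegral.integral_const_mul, M0]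
  rw [e1, e2]
  refine intervalIntegral.integral_mono_on hT ?_ ?_ ?_
  · refine Continuous.intervalIntegrable ?_ _ _
    exact (((c1.sub (c2.const_mul _)).sub (cB2.const_mul _)).sub (cS.const_mul _)).const_mul _
  · exact ((cz.norm.rpow_const fun _ => Or.inr (by linarith)).const_mul _).intervalIntegrable _ _
  · intro t _
    have h := hP m hm k hk0 hk Y J t K hK (riemannZeta (1 / 2 + I * t))
    rw [Finset.mul_sum] at h
    exact h

/-- there is a suitable number of scales -/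
lemma exists_scales {Y : ℝ} (hY : 0 < Y) : ∃ J : ℕ, (J : ℝ) ≤ Y + 3 ∧ Y / 4 ^ J < Real.log 2 := by
  refine ⟨⌈Y⌉₊ + 1, ?_, ?_⟩
  · push_cast
    have := (Nat.ceil_lt_add_one hY.le).le
    linarith
  · have h1 : Y ≤ (⌈Y⌉₊ : ℝ) := Nat.le_ceil Y
    have h2 : ((⌈Y⌉₊ + 1 : ℕ) : ℝ) ≤ 2 ^ ⌈Y⌉₊ := by exact_mod_cast Nat.lt_two_pow_self
    have h3 : (2 : ℝ) ^ ⌈Y⌉₊ ≤ 4 ^ ⌈Y⌉₊ := by gcongr; norm_num
    have h4 := Real.log_two_gt_d9
    rw [div_lt_iff₀ (by positivity), pow_succ]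
    push_cast at h2
    have h5 : (1 : ℝ) ≤ 4 ^ ⌈Y⌉₊ := one_le_pow₀ (by norm_num)
    nlinarith

/-- the final arithmetic -/
lemma mid_num {C1 C2 K T E m R Z B S err w : ℝ} (hC1 : 1 ≤ C1) (hm : 1 ≤ m)
    (hT : 0 < T) (hE : 1 ≤ E) (hK : K = 32 * C1 ^ 2 * m)
    (hR : T * (E / C1) - err ≤ R) (herr : err ≤ T / (8 * C1))
    (hZ : Z ≤ C1 * m * (T * E)) (hB : B ≤ 2 * (T * E)) (hS : S ≤ C2 * (2 * w) * (T * E))
    (hw : 64 * C1 ^ 2 * m * C2 * w ≤ 1 / (8 * C1)) :
    T * E / (2 * C1) ≤ R - 2 / K * Z - 1 / K * B - K * S := by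
  have hC0 : 0 < C1 := by linarith
  have hm0 : 0 < m := by linarith
  have hK0 : 0 < K := by rw [hK]; positivity
  have hTE : 0 < T * E := by positivity
  have a1 : 2 / K * Z ≤ T * E / (16 * C1) := by
    calc 2 / K * Z ≤ 2 / K * (C1 * m * (T * E)) := by gcongr
      _ = T * E / (16 * C1) := by rw [hK]; field_simp; ring
  have a2 : 1 / K * B ≤ T * E / (16 * C1) := by
    calc 1 / K * B ≤ 1 / K * (2 * (T * E)) := by gcongr
      _ = T * E / (16 * C1) * (1 / (C1 * m)) := by rw [hK]; field_simp; ring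
      _ ≤ T * E / (16 * C1) * 1 := by
          gcongr
          rw [div_le_one (by positivity)]
          nlinarith
      _ = _ := by ring
  have a3 : K * S ≤ T * E / (8 * C1) := by
    calc K * S ≤ K * (C2 * (2 * w) * (T * E)) := by gcongr
      _ = (64 * C1 ^ 2 * m * C2 * w) * (T * E) := by rw [hK]; ring
      _ ≤ 1 / (8 * C1) * (T * E) := by gcongr
      _ = _ := by ring
  have a4 : err ≤ T * E / (8 * C1) := by
    refine herr.trans ?_
    gcongr
    nlinarith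
  have a5 : T * (E / C1) = T * E / (2 * C1) + (T * E / (8 * C1) + T * E / (16 * C1) + T * E / (16 * C1)
      + T * E / (8 * C1)) + T * E / (8 * C1) := by
    field_simp
    ring
  have a6 : 0 ≤ T * E / (8 * C1) := by positivity
  linarith

end Pool.Agent.Lib.U2.H29

namespace Pool.Agent.Lib.U2

open MeasureTheory Set Filter Topology Complex
open Pool.Agent.Lib.MP_f9aece_nt Pool.Agent.Lib.MP_f9aece_nt_h97
open H29

/-- **Lower bound** with a constant, all exponents up to two, from the pieces. -/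
theorem midLower_of (h1 : FirstMom) (h2 : MeanB1) (h3 : MidForms) (h4 : MidPoint) : MidLower := by
  obtain ⟨C, T1, hC, hT1, h1⟩ := h1
  obtain ⟨C2, m0, hC2, h2⟩ := h2
  obtain ⟨C1, hC1, h3⟩ := h3
  have hC10 : 0 < C1 := by linarith
  -- the choice of `m`
  have hlim : Tendsto (fun n : ℕ => 64 * C1 ^ 2 * C2 * ((n : ℝ) * (1 / 2) ^ n)) atTop (𝓝 0) := by
    have := (tendsto_self_mul_const_pow_of_lt_one (r := 1 / 2) (by norm_num) (by norm_num)).const_mul
      (64 * C1 ^ 2 * C2)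
    rwa [mul_zero] at this
  have hev := (hlim.eventually (eventually_le_nhds (show (0 : ℝ) < 1 / (8 * C1) by positivity))).and
    (eventually_ge_atTop (max 4000 m0))
  obtain ⟨m, hmw, hmm⟩ := hev.exists
  have hm : 4000 ≤ m := (le_max_left _ _).trans hmm
  have hmm0 : m0 ≤ m := (le_max_right _ _).trans hmm
  have hm1 : (4000 : ℝ) ≤ m := by exact_mod_cast hm
  have hm0 : (0 : ℝ) < m := by linarith
  obtain ⟨Y1, hY1, h2⟩ := h2 m hmm0
  obtain ⟨Y2, hY2, h3⟩ := h3 m hm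
  set K : ℝ := 32 * C1 ^ 2 * m with hK
  have hK1 : 1 ≤ K := by
    have : 1 ≤ C1 ^ 2 := one_le_pow₀ hC1
    have h' := mul_le_mul this hm1 (by norm_num) (by positivity)
    linarith
  have hK0 : 0 < K := by linarith
  -- largeness of `Y`
  have hl1 : ∀ᶠ Y : ℝ in atTop, Real.exp (-Y) ≤ (1 / 2) ^ m :=
    Real.tendsto_exp_neg_atTop_nhds_zero.eventually (eventually_le_nhds (by positivity))
  have hl2 : ∀ᶠ Y : ℝ in atTop, 16 * Real.exp 6 * C * Real.exp (-Y) ≤ 1 / (8 * C1) := by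
    have h := Real.tendsto_exp_neg_atTop_nhds_zero.const_mul (16 * Real.exp 6 * C)
    rw [mul_zero] at h
    exact h.eventually (eventually_le_nhds (by positivity))
  obtain ⟨Y3, hY3⟩ := (hl1.and hl2).exists_forall_of_atTop
  set Y0 : ℝ := max (max Y1 Y2) (max Y3 T1) with hY0
  have hY0_1 : Y1 ≤ Y0 := (le_max_left _ _).trans (le_max_left _ _)
  have hY0_2 : Y2 ≤ Y0 := (le_max_right _ _).trans (le_max_left _ _)
  have hY0_3 : Y3 ≤ Y0 := (le_max_left _ _).trans (le_max_right _ _)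
  have hY0_4 : T1 ≤ Y0 := (le_max_right _ _).trans (le_max_right _ _)
  have hY0p : 3 ≤ Y0 := hT1.trans hY0_4
  refine ⟨1 / (16 * K * (2 * C1) * C1 * (160 * m)), by positivity, Real.exp (160 * m * Y0), ?_, ?_⟩
  · have : (3 : ℝ) ≤ 160 * m * Y0 := by
      have h' := mul_le_mul hm1 hY0p (by norm_num) hm0.le
      linarith
    have h := Real.add_one_le_exp (160 * m * Y0)
    linarith
  intro T hT k hk0 hk
  have hTp : 0 < T := (Real.exp_pos _).trans_le hT
  have hlog : 160 * m * Y0 ≤ Real.log T := by rwa [Real.le_log_iff_exp_le hTp]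
  set Y : ℝ := Real.log T / (160 * m) with hY
  have hYY0 : Y0 ≤ Y := by
    rw [hY, le_div_iff₀ (by positivity)]
    linarith
  have hY1' : 1 ≤ Y := by linarith
  have hYp : 0 < Y := by linarith
  have hTY : Real.exp (160 * m * Y) = T := by
    have : 160 * m * Y = Real.log T := by rw [hY]; field_simp
    rw [this, Real.exp_log hTp]
  obtain ⟨J, hJ1, hJ2⟩ := exists_scales hYp
  obtain ⟨a1, a2, a3⟩ := h2 Y (hY0_1.trans hYY0) J hJ1 k hk0 hk
  obtain ⟨b1, b2, b3⟩ := h3 Y (hY0_2.trans hYY0) J hJ1 hJ2 k hk0 hk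
  obtain ⟨c1, c2⟩ := hY3 Y (hY0_3.trans hYY0)
  rw [hTY] at a2 a3 b3
  set E := BK (K1s 1) (Bm m 2 k Y J) (Bm m 2 k Y J) with hE
  -- the first moment
  have hTT1 : T1 ≤ T := by
    have h5 : Y ≤ T := by
      rw [← hTY]
      have := Real.add_one_le_exp (160 * m * Y)
      have hmY := mul_le_mul_of_nonneg_right hm1 hYp.le
      linarith
    linarith
  have hk1 : |k| ≤ 1 := by rw [abs_of_pos hk0]; exact hk
  have hak : |1 - k| ≤ 1 := by rw [abs_of_nonneg (by linarith)]; linarith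
  have hlenB := MP_f9aece_nt_h40.len_B m 2 hk1 hYp J
  have hlenD := MP_f9aece_nt_h40.len_D m (p0 := 2) (by norm_num) hak hYp J
  have hnB := MP_f9aece_nt_h40.nrm_B m 2 hk1 hYp J
  have hnD := MP_f9aece_nt_h40.nrm_D m 2 hak hYp J
  set H : ℝ := ((2 : ℕ) : ℝ) ^ 2 * Real.exp (2 * m * Y) with hH
  have hexp1 : 1 ≤ Real.exp (2 * m * Y) := Real.one_le_exp (by positivity)
  have hH1 : 1 ≤ H := by
    rw [hH]
    push_cast
    linarith
  have hf := h1 T hTT1 (Dm m 2 (1 - k) Y J) (Bm m 2 k Y J) H hH1 hlenD (fun n hn => by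
    obtain ⟨u1, u2⟩ := hlenB n hn
    refine ⟨u1, u2.trans ?_⟩
    rw [hH]
    push_cast
    linarith)
  set R := ∫ t in (0 : ℝ)..T, (riemannZeta (1 / 2 + I * t) * ev t (Dm m 2 (1 - k) Y J)
        * (starRingEnd ℂ) (ev t (Bm m 2 k Y J))).re with hR
  have herr : C * (nrm (Dm m 2 (1 - k) Y J) * nrm (Bm m 2 k Y J)) * H * T ^ (15 / 16 : ℝ)
      ≤ T / (8 * C1) := by
    have e1 : T ^ (15 / 16 : ℝ) = T * Real.exp (-(10 * m * Y)) := by
      rw [← hTY, ← Real.exp_mul, ← Real.exp_add]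
      congr 1
      ring
    have e2 : nrm (Dm m 2 (1 - k) Y J) * nrm (Bm m 2 k Y J)
        ≤ 4 * Real.exp (J + 2 * m * Y) * Real.exp (J + 2 * m * Y) := by
      apply mul_le_mul _ hnB (nrm_nonneg _) (by positivity)
      refine hnD.trans (le_of_eq ?_)
      norm_num
    calc C * (nrm (Dm m 2 (1 - k) Y J) * nrm (Bm m 2 k Y J)) * H * T ^ (15 / 16 : ℝ)
        ≤ C * (4 * Real.exp (J + 2 * m * Y) * Real.exp (J + 2 * m * Y)) * H * T ^ (15 / 16 : ℝ) := by
          gcongr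
      _ = 16 * C * Real.exp (J + 2 * m * Y + (J + 2 * m * Y) + 2 * m * Y + -(10 * m * Y)) * T := by
          have e3 : Real.exp (J + 2 * m * Y + (J + 2 * m * Y) + 2 * m * Y + -(10 * m * Y))
              = Real.exp (J + 2 * m * Y) * Real.exp (J + 2 * m * Y) * Real.exp (2 * m * Y)
                * Real.exp (-(10 * m * Y)) := by
            rw [← Real.exp_add, ← Real.exp_add, ← Real.exp_add]
          rw [e1, hH, e3]
          push_cast
          ring
      _ ≤ 16 * C * Real.exp (6 + -Y) * T := by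
          have : (J : ℝ) + 2 * m * Y + (J + 2 * m * Y) + 2 * m * Y + -(10 * m * Y) ≤ 6 + -Y := by
            have hmY := mul_le_mul_of_nonneg_right hm1 hYp.le
            linarith
          gcongr
      _ = (16 * Real.exp 6 * C * Real.exp (-Y)) * T := by rw [Real.exp_add]; ring
      _ ≤ 1 / (8 * C1) * T := by gcongr
      _ = _ := by ring
  have hRlow : T * (E / C1) - C * (nrm (Dm m 2 (1 - k) Y J) * nrm (Bm m 2 k Y J)) * H * T ^ (15 / 16 : ℝ)
      ≤ R := by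
    have u1 := (abs_le.mp hf).1
    have u2 : E / C1 ≤ BK (Kcs 1) (Dm m 2 (1 - k) Y J) (Bm m 2 k Y J) := by
      rw [div_le_iff₀ hC10]
      linarith
    have u3 : T * (E / C1) ≤ T * BK (Kcs 1) (Dm m 2 (1 - k) Y J) (Bm m 2 k Y J) := by gcongr
    linarith
  have hS : ∑ j ∈ Finset.range J, ∫ t in (0 : ℝ)..T, ‖ev t (Bm m 2 k Y J)‖ ^ 2
        * (‖Pj 2 Y (1 / 2) j t‖ / ((Mm m j : ℝ) / 10)) ^ (2 * Mm m j)
      ≤ C2 * (2 * (1 / 2) ^ m) * (T * E) := by
    refine a3.trans ?_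
    have : (1 / 2 : ℝ) ^ m + Real.exp (-Y) ≤ 2 * (1 / 2) ^ m := by linarith
    gcongr
  have hmain := mid_num (C2 := C2) (w := (1 / 2) ^ m) hC1 (by linarith : (1 : ℝ) ≤ m) hTp a1 hK hRlow herr
    b3 a2 hS (le_trans (le_of_eq (by ring)) hmw)
  have hint := mid_int h4 hm hk0 hk Y J hK1 hTp.le
  rw [← hR] at hint
  have hint' : 1 / K * (T * E / (2 * C1)) ≤ 16 * M0 k T :=
    le_trans (mul_le_mul_of_nonneg_left hmain (by positivity)) hint
  -- conclusion
  have hYk : Real.log T ^ (k ^ 2) ≤ 160 * m * Y ^ (k ^ 2) := by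
    have e1 : Real.log T = 160 * m * Y := by rw [hY]; field_simp
    rw [e1, Real.mul_rpow (by positivity) hYp.le]
    have hk2 : k ^ 2 ≤ 1 := pow_le_one₀ hk0.le hk
    have h5 : (160 * m : ℝ) ^ (k ^ 2) ≤ (160 * m : ℝ) ^ (1 : ℝ) :=
      Real.rpow_le_rpow_of_exponent_le (by linarith) hk2
    rw [Real.rpow_one] at h5
    gcongr
  have hfin : Real.log T ^ (k ^ 2) ≤ 160 * m * (C1 * E) := hYk.trans (by gcongr)
  have hgoal : T * Real.log T ^ (k ^ 2) ≤ (16 * K * (2 * C1) * C1 * (160 * m)) * M0 k T := by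
    have h5 : T * E ≤ 16 * K * (2 * C1) * M0 k T := by
      have h6 : 1 / K * (T * E / (2 * C1)) = T * E / (K * (2 * C1)) := by field_simp
      rw [h6, div_le_iff₀ (by positivity)] at hint'
      linarith
    calc T * Real.log T ^ (k ^ 2) ≤ T * (160 * m * (C1 * E)) := by gcongr
      _ = C1 * (160 * m) * (T * E) := by ring
      _ ≤ C1 * (160 * m) * (16 * K * (2 * C1) * M0 k T) := by gcongr
      _ = _ := by ring
  rw [div_mul_eq_mul_div, one_mul, div_le_iff₀ (by positivity)]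
  linarith

theorem midLower (h1 : FirstMom) (h2 : MeanB1) (h3 : MidForms) : MidLower :=
  midLower_of h1 h2 h3 midPoint

end Pool.Agent.Lib.U2
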