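import Mathlib
import Pool.Agent.Lib.MP_f9aece_nt_h97.OffG
import Pool.Agent.Lib.MP_f9aece_nt_u2.Stmts

/-!
The mean square of `zeta * D - B` to the right of the critical line, with explicit dependence of all
parameters on the small number `η`.
-/

set_option autoImplicit false

namespace Pool.Agent.Lib.U2.H20

open MeasureTheory Set Filter Topology Complex
open Pool.Agent.Lib.MP_f9aece_nt Pool.Agent.Lib.MP_f9aece_nt_h97

/-! ### Forms -/

/-- constant of the forms -/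
noncomputable def C1 (p0 : ℕ) : ℝ := 80 * (4 : ℝ) ^ p0 * Real.exp (2 + Real.log p0 + 3.401)

lemma Dsm_pos {p0 : ℕ} : ∀ n, (Dsm p0).coeff n ≠ 0 → 1 ≤ n := by
  intro n hn
  exact Smo_pos (Pool.Agent.Lib.MP_f9aece_nt_h40.sup_Dsm p0 n hn)

lemma nrm_Dsm (p0 : ℕ) : nrm (Dsm p0) ^ 2 ≤ (4 : ℝ) ^ p0 := by
  have h1 : nrm (Dsm p0) ≤ 2 ^ p0 :=
    (nrm_le_aug (Pool.Agent.Lib.MP_f9aece_nt_h40.dom_Dsm p0)).trans
      (Pool.Agent.Lib.MP_f9aece_nt_h40.aug_Dsm' p0)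
  calc nrm (Dsm p0) ^ 2 ≤ (2 ^ p0 : ℝ) ^ 2 := by
        have := nrm_nonneg (Dsm p0)
        gcongr
    _ = (4 : ℝ) ^ p0 := by rw [← pow_mul, mul_comm, pow_mul]; norm_num

theorem forms_rate (m p0 : ℕ) (hm : 4000 ≤ m) (hp0 : 1 ≤ p0) (k : ℝ) (hk0 : 0 ≤ k) (hk1 : k ≤ 1 / 2)
    (Y : ℝ) (hY : 1 ≤ Y) (J : ℕ) (hJ : Y / 4 ^ J < Real.log 2) :
    |BK K2 (Dm m p0 (1 - k) Y J) (Dm m p0 (1 - k) Y J)| ≤ C1 p0 * Y ^ (k ^ 2 - 1) ∧
    |BK Kg (Dm m p0 (1 - k) Y J) (Dm m p0 (1 - k) Y J)| ≤ C1 p0 * Y ^ (k ^ 2) := by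
  set c1 := |BK K2 (Dsm p0) (Dsm p0)| with hc1
  set c2 := |BK Kg (Dsm p0) (Dsm p0)| with hc2
  have hc10 : 0 ≤ c1 := abs_nonneg _
  have hc20 : 0 ≤ c2 := abs_nonneg _
  have hc11 : c1 ≤ 4 ^ p0 := by
    have := abs_BK_le (K := K2) (B := 1) (fun a b ha hb => K2_le_one ha hb) (Dsm_pos (p0 := p0))
    rw [mul_one] at this
    exact this.trans (nrm_Dsm p0)
  have hc21 : c2 ≤ 4 ^ p0 := by
    have := abs_BK_le (K := Kg) (B := 1) (fun a b ha hb => Kg_le_one ha hb) (Dsm_pos (p0 := p0))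
    rw [mul_one] at this
    exact this.trans (nrm_Dsm p0)
  set E := Real.exp (2 + Real.log p0 + 3.401) with hE
  have hE0 : 0 < E := Real.exp_pos _
  have hY0 : 0 < Y := by linarith
  have ha0 : 0 ≤ 1 - k := by linarith
  have ha1 : 1 - k ≤ 1 := by linarith
  obtain ⟨d1, d2⟩ := Pool.Agent.Lib.MP_f9aece_nt_h40.DD_bounds
    Pool.Agent.Lib.MP_f9aece_nt_h40.logKer_Kg hm hp0 hY0 ha0 ha1 J
  have hV := sum_VV_ge hY hp0 hJ
  set S := ∑ j ∈ Finset.range J, VV (sc Y p0 j) with hS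
  have hlogp : 0 ≤ Real.log p0 := Real.log_natCast_nonneg _
  have hexp : Real.exp (((1 - k) ^ 2 - 2 * (1 - k)) * S + 3.401 * (1 - k)) ≤ E * Y ^ (k ^ 2 - 1) := by
    rw [hE, Real.rpow_def_of_pos hY0, ← Real.exp_add]
    apply Real.exp_le_exp.mpr
    have e : (1 - k) ^ 2 - 2 * (1 - k) = k ^ 2 - 1 := by ring
    rw [e]
    have hk2 : k ^ 2 - 1 ≤ 0 := by nlinarith
    have h1 : (k ^ 2 - 1) * S ≤ (k ^ 2 - 1) * (Real.log Y - 2 - Real.log p0) :=
      mul_le_mul_of_nonpos_left hV hk2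
    have h2 : 0 ≤ k ^ 2 * (2 + Real.log p0) := by positivity
    linarith
  have hds : Disjoint (Psm p0 : Set ℕ) (⋃ j ∈ Finset.range J, (sc Y p0 j : Set ℕ)) :=
    Pool.Agent.Lib.MP_f9aece_nt_h40.disj_Psm p0 Y J
  have hs1 := Pool.Agent.Lib.MP_f9aece_nt_h40.sup_Dsm p0
  have hs2 := Pool.Agent.Lib.MP_f9aece_nt_h40.sup_DD m p0 (-(1 - k)) Y J
  have hYk : 0 < Y ^ (k ^ 2 - 1) := Real.rpow_pos_of_pos hY0 _
  have hYk2 : Y ^ (k ^ 2) = Y * Y ^ (k ^ 2 - 1) := by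
    rw [Real.rpow_sub hY0, Real.rpow_one]
    field_simp
  set W := E * Y ^ (k ^ 2 - 1) with hW
  have hW0 : 0 < W := by positivity
  have b1 : |BK K2 (DD m p0 (-(1 - k)) Y J) (DD m p0 (-(1 - k)) Y J)| ≤ W := d1.trans hexp
  have b2 : |BK Kg (DD m p0 (-(1 - k)) Y J) (DD m p0 (-(1 - k)) Y J)| ≤ (78 * Y) * W := by
    refine d2.trans ?_
    have : 26 * (1 - k) * (Y + 2) ≤ 78 * Y := by
      calc 26 * (1 - k) * (Y + 2) ≤ 26 * 1 * (Y + 2) := by gcongr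
        _ ≤ 78 * Y := by linarith
    gcongr
  have hCC : (c2 + 78 * c1 + c1) * E ≤ C1 p0 := by
    unfold C1
    have : c2 + 78 * c1 + c1 ≤ 80 * 4 ^ p0 := by linarith
    gcongr
  have hkey : |BK K2 (Dm m p0 (1 - k) Y J) (Dm m p0 (1 - k) Y J)|
        ≤ ((c2 + 78 * c1 + c1) * E) * Y ^ (k ^ 2 - 1) ∧
      |BK Kg (Dm m p0 (1 - k) Y J) (Dm m p0 (1 - k) Y J)|
        ≤ ((c2 + 78 * c1 + c1) * E) * Y ^ (k ^ 2) := by
    unfold Dm
    rw [BK_mul_sup K2 hs1 hs1 hs2 hs2 fun x hx x' hx' y hy y' hy' =>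
        K2_mul hds hx hx' hy hy',
      BK_mul_der K2 Kg hs1 hs1 hs2 hs2 fun x hx x' hx' y hy y' hy' =>
        Pool.Agent.Lib.MP_f9aece_nt_h40.logKer_Kg.mul _ _ hds x hx x' hx' y hy y' hy']
    constructor
    · rw [abs_mul]
      calc c1 * |BK K2 (DD m p0 (-(1 - k)) Y J) (DD m p0 (-(1 - k)) Y J)| ≤ c1 * W := by gcongr
        _ ≤ (c2 + 78 * c1 + c1) * W := by
            gcongr
            linarith
        _ = _ := by rw [hW]; ring
    · refine (abs_add_le _ _).trans ?_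
      rw [abs_mul, abs_mul]
      calc c2 * |BK K2 (DD m p0 (-(1 - k)) Y J) (DD m p0 (-(1 - k)) Y J)|
            + c1 * |BK Kg (DD m p0 (-(1 - k)) Y J) (DD m p0 (-(1 - k)) Y J)|
          ≤ c2 * W + c1 * (78 * Y * W) := by gcongr
        _ ≤ c2 * (Y * W) + c1 * (78 * Y * W) + c1 * (Y * W) := by
            have h1 : c2 * W ≤ c2 * (Y * W) := by
              gcongr
              exact le_mul_of_one_le_left hW0.le hY
            have h2 : 0 ≤ c1 * (Y * W) := by positivity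
            linarith
        _ = _ := by
            rw [hYk2, hW]; ring
  have hYk3 : 0 ≤ Y ^ (k ^ 2) := by positivity
  refine ⟨hkey.1.trans ?_, hkey.2.trans ?_⟩
  · gcongr
  · gcongr

/-! ### The zeta value near one -/

/-- the zeta value at `1 + 2 δ` is captured by the primes up to `exp (C / δ)`, explicit constant -/
theorem zeta_tail_rate (ε : ℝ) (hε : 0 < ε) (C0 : ℝ) (hC00 : 1 + 12 / Real.log (1 + ε) ≤ C0) (δ : ℝ)
    (hδ : 0 < δ) (hδ4 : δ ≤ 1 / 4) (y : ℝ) (hy : Real.exp (C0 / δ) ≤ y) :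
    ‖riemannZeta (1 + 2 * (δ : ℂ))‖
      ≤ (1 + ε) * ∏ p ∈ (Finset.Ioc 0 ⌊y⌋₊).filter Nat.Prime, (1 - (p : ℝ) ^ (-(1 + 2 * δ)))⁻¹ := by
  have hlε : 0 < Real.log (1 + ε) := Real.log_pos (by linarith)
  have hC1 : 1 ≤ C0 := by
    have : 0 ≤ 12 / Real.log (1 + ε) := by positivity
    linarith
  have hC12 : 12 / C0 ≤ Real.log (1 + ε) := by
    rw [div_le_iff₀ (by linarith)]
    have h1 : Real.log (1 + ε) * (1 + 12 / Real.log (1 + ε)) ≤ Real.log (1 + ε) * C0 := by gcongr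
    rw [mul_add, mul_div_cancel₀ _ hlε.ne'] at h1
    linarith
  have h4 : 4 ≤ 1 / δ := by
    rw [le_div_iff₀ hδ]; linarith
  have hCδ : 1 / δ ≤ C0 / δ := by gcongr
  have hy2 : 2 ≤ y := by
    have := Real.add_one_le_exp (C0 / δ)
    linarith
  have hy0 : 0 < y := by linarith
  have hlogy : C0 / δ ≤ Real.log y := by
    rw [Real.le_log_iff_exp_le hy0]
    exact hy
  have hlogy0 : 0 < Real.log y := by
    have : 0 < C0 / δ := by positivity
    linarith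
  have hre : (1 + 2 * (δ : ℂ)).re = 1 + 2 * δ := by simp
  have hep := riemannZeta_eulerProduct (s := 1 + 2 * (δ : ℂ)) (by rw [hre]; linarith)
  have hlim := hep.norm
  refine le_of_tendsto hlim ?_
  filter_upwards [Filter.eventually_gt_atTop ⌊y⌋₊] with n hn
  have ha : ∀ p : ℕ, p.Prime → 0 < (p : ℝ) ^ (-(1 + 2 * δ)) ∧ (p : ℝ) ^ (-(1 + 2 * δ)) ≤ 1 / 2 := by
    intro p hp
    have hp2 : (2 : ℝ) ≤ p := by exact_mod_cast hp.two_le
    refine ⟨by positivity, ?_⟩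
    calc (p : ℝ) ^ (-(1 + 2 * δ)) ≤ (p : ℝ) ^ (-1 : ℝ) :=
          Real.rpow_le_rpow_of_exponent_le (by linarith) (by linarith)
      _ = (p : ℝ)⁻¹ := Real.rpow_neg_one _
      _ ≤ 2⁻¹ := by gcongr
      _ = 1 / 2 := by norm_num
  have hnorm : ‖∏ p ∈ n.primesBelow, (1 - (p : ℂ) ^ (-(1 + 2 * (δ : ℂ))))⁻¹‖
      = ∏ p ∈ n.primesBelow, (1 - (p : ℝ) ^ (-(1 + 2 * δ)))⁻¹ := by
    rw [norm_prod]
    refine Finset.prod_congr rfl fun p hp => ?_
    have hp' := Nat.prime_of_mem_primesBelow hp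
    have e1 : (p : ℂ) ^ (-(1 + 2 * (δ : ℂ))) = (((p : ℝ) ^ (-(1 + 2 * δ)) : ℝ) : ℂ) := by
      rw [Complex.ofReal_cpow (by positivity)]
      push_cast
      ring_nf
    rw [e1, ← Complex.ofReal_one, ← Complex.ofReal_sub, ← Complex.ofReal_inv, Complex.norm_real,
      Real.norm_eq_abs, abs_of_pos]
    have := ha p hp'
    rw [inv_pos]
    linarith
  rw [hnorm]
  have hsplit : n.primesBelow = (Finset.Ioc 0 ⌊y⌋₊).filter Nat.Prime
      ∪ n.primesBelow.filter (fun p : ℕ => y < (p : ℝ)) := by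
    ext p
    rw [Finset.mem_union, Finset.mem_filter, Finset.mem_filter, Finset.mem_Ioc, Nat.mem_primesBelow]
    constructor
    · rintro ⟨h1, h2⟩
      rcases le_or_gt (p : ℝ) y with h | h
      · left
        exact ⟨⟨h2.pos, Nat.le_floor h⟩, h2⟩
      · right
        exact ⟨⟨h1, h2⟩, h⟩
    · rintro (⟨⟨_, h1⟩, h2⟩ | ⟨h1, _⟩)
      · exact ⟨by omega, h2⟩
      · exact h1
  have hdisj : Disjoint ((Finset.Ioc 0 ⌊y⌋₊).filter Nat.Prime)
      (n.primesBelow.filter (fun p : ℕ => y < (p : ℝ))) := by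
    rw [Finset.disjoint_left]
    intro p hp hq
    rw [Finset.mem_filter, Finset.mem_Ioc] at hp
    rw [Finset.mem_filter] at hq
    have h1 : (p : ℝ) ≤ y := (Nat.le_floor_iff hy0.le).mp hp.1.2
    linarith [hq.2]
  rw [hsplit, Finset.prod_union hdisj, mul_comm]
  have hP0 : 0 ≤ ∏ p ∈ (Finset.Ioc 0 ⌊y⌋₊).filter Nat.Prime, (1 - (p : ℝ) ^ (-(1 + 2 * δ)))⁻¹ := by
    refine Finset.prod_nonneg fun p hp => ?_
    have := ha p (Finset.mem_filter.mp hp).2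
    rw [inv_nonneg]
    linarith
  refine mul_le_mul_of_nonneg_right ?_ hP0
  calc ∏ p ∈ n.primesBelow.filter (fun p : ℕ => y < (p : ℝ)), (1 - (p : ℝ) ^ (-(1 + 2 * δ)))⁻¹
      ≤ ∏ p ∈ n.primesBelow.filter (fun p : ℕ => y < (p : ℝ)),
          Real.exp (2 * (p : ℝ) ^ (-(1 + 2 * δ))) := by
        refine Finset.prod_le_prod (fun p hp => ?_) (fun p hp => ?_)
        · have := ha p (Nat.prime_of_mem_primesBelow (Finset.mem_filter.mp hp).1)
          rw [inv_nonneg]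
          linarith
        · have h1 := ha p (Nat.prime_of_mem_primesBelow (Finset.mem_filter.mp hp).1)
          set a := (p : ℝ) ^ (-(1 + 2 * δ)) with hadef
          have h2 := Real.add_one_le_exp (2 * a)
          refine le_trans ?_ h2
          rw [inv_le_iff_one_le_mul₀ (by linarith)]
          nlinarith
    _ = Real.exp (2 * ∑ p ∈ n.primesBelow.filter (fun p : ℕ => y < (p : ℝ)),
          (p : ℝ) ^ (-(1 + 2 * δ))) := by
        rw [← Real.exp_sum, Finset.mul_sum]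
    _ ≤ Real.exp (2 * (6 / (δ * Real.log y))) := by
        apply Real.exp_le_exp.mpr
        gcongr
        refine Pool.Agent.Lib.MP_f9aece_nt_h5.tail_finite hδ hδ4 hy2 _ ?_
        intro p hp
        rw [Finset.mem_filter] at hp
        exact ⟨Nat.prime_of_mem_primesBelow hp.1, hp.2⟩
    _ ≤ Real.exp (Real.log (1 + ε)) := by
        apply Real.exp_le_exp.mpr
        refine le_trans ?_ hC12
        have h5 : C0 ≤ δ * Real.log y := by
          rw [div_le_iff₀ hδ] at hlogy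
          linarith
        calc 2 * (6 / (δ * Real.log y)) = 12 / (δ * Real.log y) := by ring
          _ ≤ 12 / C0 := by gcongr
    _ = 1 + ε := Real.exp_log (by linarith)

/-- lower bound for the prime sum at `1 + 2 δ`, linear dependence on `p0` -/
lemma prime_sum_rate : ∃ c0 : ℝ, 0 ≤ c0 ∧ ∀ p0 : ℕ, ∀ δ : ℝ, 0 < δ → δ ≤ 1 / 4 → ∀ y : ℝ,
    Real.exp (1 / δ) ≤ y → Real.log (1 / δ) - (c0 + p0)
      ≤ ∑ p ∈ (Finset.Ioc p0 ⌊y⌋₊).filter Nat.Prime, (p : ℝ) ^ (-(1 + 2 * δ)) := by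
  obtain ⟨c, hc⟩ := Pool.Agent.Lib.MP_f9aece_nt_h5.prime_sum_lower 0
  refine ⟨max c 0, le_max_right _ _, ?_⟩
  intro p0 δ hδ hδ4 y hy
  have h0 := hc δ hδ hδ4 y hy
  have h1 := le_max_left c 0
  have hsplit : ∑ p ∈ (Finset.Ioc 0 ⌊y⌋₊).filter Nat.Prime, (p : ℝ) ^ (-(1 + 2 * δ))
      ≤ ∑ p ∈ (Finset.Ioc p0 ⌊y⌋₊).filter Nat.Prime, (p : ℝ) ^ (-(1 + 2 * δ))
        + ∑ p ∈ Finset.Ioc 0 p0, (p : ℝ) ^ (-(1 + 2 * δ)) := by
    have hsub : (Finset.Ioc 0 ⌊y⌋₊).filter Nat.Prime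
        ⊆ (Finset.Ioc p0 ⌊y⌋₊).filter Nat.Prime ∪ Finset.Ioc 0 p0 := by
      intro p hp
      rw [Finset.mem_filter, Finset.mem_Ioc] at hp
      rw [Finset.mem_union, Finset.mem_filter, Finset.mem_Ioc, Finset.mem_Ioc]
      rcases le_or_gt p p0 with h | h
      · right
        exact ⟨hp.1.1, h⟩
      · left
        exact ⟨⟨h, hp.1.2⟩, hp.2⟩
    have hd : Disjoint ((Finset.Ioc p0 ⌊y⌋₊).filter Nat.Prime) (Finset.Ioc 0 p0) := by
      rw [Finset.disjoint_left]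
      intro p hp hq
      rw [Finset.mem_filter, Finset.mem_Ioc] at hp
      rw [Finset.mem_Ioc] at hq
      omega
    rw [← Finset.sum_union hd]
    exact Finset.sum_le_sum_of_subset_of_nonneg hsub fun p _ _ => by positivity
  have hsmall : ∑ p ∈ Finset.Ioc 0 p0, (p : ℝ) ^ (-(1 + 2 * δ)) ≤ p0 := by
    calc ∑ p ∈ Finset.Ioc 0 p0, (p : ℝ) ^ (-(1 + 2 * δ)) ≤ ∑ p ∈ Finset.Ioc 0 p0, (1 : ℝ) := by
          refine Finset.sum_le_sum fun p hp => ?_
          rw [Finset.mem_Ioc] at hp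
          exact Real.rpow_le_one_of_one_le_of_nonpos (by exact_mod_cast hp.1) (by linarith)
      _ = p0 := by simp
  linarith

/-! ### Parameters -/

lemma le_exp_self (x : ℝ) : x ≤ Real.exp x := by
  have := Real.add_one_le_exp x
  linarith

lemma C1_le {p0 : ℕ} (hp0 : 1 ≤ p0) : C1 p0 ≤ Real.exp (11 + 3 * p0) := by
  unfold C1
  have h1 : (80 : ℝ) ≤ Real.exp 5 := by
    have := Real.exp_one_gt_d9
    calc (80 : ℝ) ≤ (2.7182818283 : ℝ) ^ 5 := by norm_num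
      _ ≤ Real.exp 1 ^ 5 := by gcongr
      _ = Real.exp 5 := by rw [← Real.exp_nat_mul]; norm_num
  have h2 : (4 : ℝ) ^ p0 ≤ Real.exp (2 * p0) := by
    have h3 : (4 : ℝ) ≤ Real.exp 2 := by
      have := Real.exp_one_gt_d9
      calc (4 : ℝ) ≤ (2.7182818283 : ℝ) ^ 2 := by norm_num
        _ ≤ Real.exp 1 ^ 2 := by gcongr
        _ = Real.exp 2 := by rw [← Real.exp_nat_mul]; norm_num
    calc (4 : ℝ) ^ p0 ≤ Real.exp 2 ^ p0 := by gcongr
      _ = _ := by rw [← Real.exp_nat_mul, mul_comm]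
  have h4 : Real.log p0 ≤ p0 := by
    have := Real.log_le_sub_one_of_pos (x := (p0 : ℝ)) (by exact_mod_cast hp0)
    linarith
  calc 80 * (4 : ℝ) ^ p0 * Real.exp (2 + Real.log p0 + 3.401)
      ≤ Real.exp 5 * Real.exp (2 * p0) * Real.exp (2 + p0 + 3.401) := by gcongr
    _ = Real.exp (10.401 + 3 * p0) := by
        rw [← Real.exp_add, ← Real.exp_add]; congr 1; ring
    _ ≤ _ := by
        apply Real.exp_le_exp.mpr
        linarith

lemma C1_pos (p0 : ℕ) : 0 < C1 p0 := by unfold C1; positivity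

lemma numA2 {C c0 : ℝ} {m p0 : ℕ} (hC : 0 ≤ C) (hc0 : 0 ≤ c0) (hm : p0 + 4000 = m) (hp0 : 1 ≤ p0) :
    C * (C1 p0 * (2 + 160 * m) * Real.exp (c0 + p0 + 1)) ≤ Real.exp ((C + c0 + 200) * m) := by
  have h1 := C1_le hp0
  have h2 := C1_pos p0
  have hm' : (p0 : ℝ) + 4000 = m := by exact_mod_cast hm
  have hp : (0 : ℝ) ≤ p0 := Nat.cast_nonneg _
  calc C * (C1 p0 * (2 + 160 * m) * Real.exp (c0 + p0 + 1))
      ≤ Real.exp C * (Real.exp (11 + 3 * p0) * Real.exp (2 + 160 * m) * Real.exp (c0 + p0 + 1)) := by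
        gcongr
        · exact le_exp_self C
        · exact le_exp_self _
    _ = Real.exp (C + (11 + 3 * p0 + (2 + 160 * m) + (c0 + p0 + 1))) := by
        rw [← Real.exp_add, ← Real.exp_add, ← Real.exp_add]
    _ ≤ _ := by
        apply Real.exp_le_exp.mpr
        have h3 : (C + c0) * 1 ≤ (C + c0) * m := by
          gcongr
          linarith
        linarith

lemma numA3 {C c0 : ℝ} {p0 : ℕ} (hC : 0 ≤ C) (hc0 : 0 ≤ c0) (hp0 : 1 ≤ p0) :
    C * (((2 : ℝ) ^ p0 * (p0 : ℝ) ^ p0) ^ 2 * Real.exp 6 * Real.exp (c0 + p0 + 1))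
      ≤ Real.exp ((C + c0 + 12) * p0 ^ 2) := by
  have hp : (1 : ℝ) ≤ p0 := by exact_mod_cast hp0
  have h1 : (2 : ℝ) ^ p0 ≤ Real.exp p0 := by
    calc (2 : ℝ) ^ p0 ≤ Real.exp 1 ^ p0 := by
          have := Real.exp_one_gt_d9
          gcongr
          linarith
      _ = _ := by rw [← Real.exp_nat_mul, mul_one]
  have h2 : (p0 : ℝ) ^ p0 ≤ Real.exp (p0 ^ 2) := by
    calc (p0 : ℝ) ^ p0 ≤ Real.exp p0 ^ p0 := by
          gcongr
          exact le_exp_self _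
      _ = _ := by rw [← Real.exp_nat_mul, sq]
  calc C * (((2 : ℝ) ^ p0 * (p0 : ℝ) ^ p0) ^ 2 * Real.exp 6 * Real.exp (c0 + p0 + 1))
      ≤ Real.exp C * ((Real.exp p0 * Real.exp (p0 ^ 2)) ^ 2 * Real.exp 6 * Real.exp (c0 + p0 + 1)) := by
        gcongr
        exact le_exp_self C
    _ = Real.exp (C + (2 * (p0 + p0 ^ 2) + 6 + (c0 + p0 + 1))) := by
        rw [← Real.exp_add, ← Real.exp_nat_mul, ← Real.exp_add, ← Real.exp_add, ← Real.exp_add]
        push_cast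
        rfl
    _ ≤ _ := by
        apply Real.exp_le_exp.mpr
        have h3 : (1 : ℝ) ≤ (p0 : ℝ) ^ 2 := one_le_pow₀ hp
        have h4 : (p0 : ℝ) ≤ (p0 : ℝ) ^ 2 := le_self_pow₀ hp two_ne_zero
        linarith [mul_nonneg hC (sub_nonneg.mpr h3), mul_nonneg hc0 (sub_nonneg.mpr h3)]

lemma log_ge_half {κ : ℝ} (h0 : 0 < κ) (h1 : κ ≤ 1) : κ / 2 ≤ Real.log (1 + κ) := by
  have h := Real.one_sub_inv_le_log_of_pos (x := 1 + κ) (by linarith)
  refine le_trans ?_ h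
  have e : 1 - (1 + κ)⁻¹ = κ / (1 + κ) := by field_simp; ring
  rw [e]
  gcongr
  linarith

lemma exp_neg_le_inv {x : ℝ} (hx : 0 < x) : Real.exp (-x) ≤ 1 / x := by
  rw [Real.exp_neg, one_div]
  exact inv_anti₀ hx (le_exp_self x)

/-- all parameters in terms of `η` -/
lemma params {C c0 T1 : ℝ} (hC : 0 ≤ C) (hc0 : 0 ≤ c0) : ∃ A : ℝ, 1 ≤ A ∧
    ∀ η : ℝ, 0 < η → η ≤ 1 / 100 → ∃ (m p0 : ℕ) (κ Λ : ℝ), 4000 ≤ m ∧ 2 ≤ p0 ∧ 0 < κ ∧
      (1 / 2 : ℝ) ^ m ≤ η / 4 ∧ xe p0 m ≤ η ∧ C * ((3 + κ) * Real.exp (2 * xe p0 m) - 3) ≤ η / 2 ∧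
      1 ≤ Λ ∧ (m : ℝ) ≤ A / η ∧ (p0 : ℝ) ≤ A / η ∧ Λ ≤ A / η ^ 2 ∧ c0 + p0 ≤ A / η ∧
      160 * (m : ℝ) ≤ Λ ∧ 160 * m * (1 + 12 / Real.log (1 + κ)) ≤ Λ ∧
      (C * (C1 p0 * (2 + 160 * m) * Real.exp (c0 + p0 + 1))) * (Λ * Real.exp (-Λ)) ≤ η / 4 ∧
      ∀ Y : ℝ, A / η ^ 3 ≤ Y →
        (C * (((2 : ℝ) ^ p0 * (p0 : ℝ) ^ p0) ^ 2 * Real.exp 6 * Real.exp (c0 + p0 + 1)))
          * Real.exp (-Y) ≤ η / 4 ∧
        1 ≤ Y ∧ Real.log T1 ≤ Y ∧ Λ / (40 * m) ≤ Y ∧ Real.log ((p0 : ℝ) ^ p0) ≤ Y ∧ (p0 : ℝ) ≤ Y := by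
  obtain ⟨C', hC'⟩ : ∃ x : ℝ, x = C + 1 := ⟨_, rfl⟩
  have hC'1 : 1 ≤ C' := by linarith
  obtain ⟨P, hP⟩ : ∃ x : ℝ, x = 769 * C' := ⟨_, rfl⟩
  obtain ⟨Q, hQ⟩ : ∃ x : ℝ, x = 809 * C' := ⟨_, rfl⟩
  obtain ⟨K2', hK2'⟩ : ∃ x : ℝ, x = C + c0 + 200 := ⟨_, rfl⟩
  obtain ⟨K3, hK3⟩ : ∃ x : ℝ, x = C + c0 + 12 := ⟨_, rfl⟩
  obtain ⟨L, hL⟩ : ∃ x : ℝ, x = 385 * C' + K2' := ⟨_, rfl⟩
  have hL1 : 585 ≤ L := by linarith
  have hP0 : 0 ≤ P := by rw [hP]; positivity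
  have hQ0 : 0 ≤ Q := by rw [hQ]; positivity
  have hQP : P ≤ Q := by rw [hP, hQ]; linarith
  obtain ⟨A, hA⟩ : ∃ x : ℝ, x = 5 + |Real.log T1| + 160 * Q * L + (K3 + 1) * P ^ 2 + 4 * L + c0 + Q := ⟨_, rfl⟩
  have hlT : 0 ≤ |Real.log T1| := abs_nonneg _
  have hK30 : 0 ≤ K3 := by rw [hK3]; positivity
  have hQL : 0 ≤ 160 * Q * L := by positivity
  have hKP : 0 ≤ (K3 + 1) * P ^ 2 := by positivity
  have hL0 : 0 < L := by linarith
  have hA1 : 1 ≤ A := by linarith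
  have hA0 : 0 ≤ A := by linarith
  refine ⟨A, hA1, ?_⟩
  intro η hη hη1
  obtain ⟨h, hh⟩ : ∃ x : ℝ, x = η⁻¹ := ⟨_, rfl⟩
  have hh0 : 0 < h := by rw [hh]; exact inv_pos.mpr hη
  have hh1 : 100 ≤ h := by
    rw [hh, le_inv_comm₀ (by norm_num) hη]
    linarith
  have hηh : η * h = 1 := by rw [hh]; exact mul_inv_cancel₀ hη.ne'
  have hη' : η = 1 / h := by rw [hh]; simp
  have hdiv : ∀ x : ℝ, x / η = x * h := fun x => by rw [hh, div_eq_mul_inv]
  have hdiv2 : ∀ x : ℝ, x / η ^ 2 = x * h ^ 2 := fun x => by rw [hh, div_eq_mul_inv, inv_pow]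
  have hdiv3 : ∀ x : ℝ, x / η ^ 3 = x * h ^ 3 := fun x => by rw [hh, div_eq_mul_inv, inv_pow]
  obtain ⟨p0, hp0def⟩ : ∃ x : ℕ, x = ⌈768 * C' * h⌉₊ := ⟨_, rfl⟩
  have hplow : 768 * C' * h ≤ p0 := by rw [hp0def]; exact Nat.le_ceil _
  have hpup : (p0 : ℝ) ≤ P * h := by
    have h1 := (Nat.ceil_lt_add_one (a := 768 * C' * h) (by positivity)).le
    have h2 : (1 : ℝ) ≤ C' * h := one_le_mul_of_one_le_of_one_le hC'1 (by linarith)
    rw [hP]
    rw [← hp0def] at h1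
    linarith
  have hp1 : (76800 : ℝ) ≤ p0 := by
    refine le_trans ?_ hplow
    calc (76800 : ℝ) = 768 * 1 * 100 := by norm_num
      _ ≤ 768 * C' * h := by gcongr
  have hp1' : 76800 ≤ p0 := by exact_mod_cast hp1
  obtain ⟨m, hm⟩ : ∃ x : ℕ, x = p0 + 4000 := ⟨_, rfl⟩
  have hmr : (m : ℝ) = p0 + 4000 := by rw [hm]; push_cast; ring
  have hmup : (m : ℝ) ≤ Q * h := by
    rw [hmr, hQ]
    have : (4000 : ℝ) ≤ 40 * C' * h := by
      calc (4000 : ℝ) = 40 * 1 * 100 := by norm_num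
        _ ≤ 40 * C' * h := by gcongr
    rw [hP] at hpup
    linarith
  have hm0 : (0 : ℝ) < m := by rw [hmr]; linarith
  -- powers of two
  have hhalf : (1 / 2 : ℝ) ^ p0 ≤ 1 / p0 := by
    rw [one_div_pow]
    have : (p0 : ℝ) ≤ 2 ^ p0 := by exact_mod_cast Nat.lt_two_pow_self.le
    gcongr
  have hinvp : 1 / (p0 : ℝ) ≤ η / (768 * C') := by
    rw [hη', div_div, div_le_div_iff_of_pos_left one_pos (by linarith) (by positivity)]
    linarith
  have hinvp' : 1 / (p0 : ℝ) ≤ η / 768 := by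
    refine hinvp.trans ?_
    gcongr
    linarith
  have htm : tm m ≤ 1 / p0 := by
    refine le_trans ?_ hhalf
    unfold tm
    rw [hm, pow_add, one_div_pow]
    rw [div_le_div_iff₀ (by positivity) (by positivity)]
    have : (2 : ℝ) ^ 1044 ≤ 2 ^ 4000 := pow_le_pow_right₀ (by norm_num) (by norm_num)
    have h2 : (0 : ℝ) < 2 ^ p0 := by positivity
    calc (2 : ℝ) ^ 1044 * 2 ^ p0 ≤ 2 ^ 4000 * 2 ^ p0 := by gcongr
      _ = _ := by ring
  have hxe : xe p0 m ≤ 7 * (1 / p0) := by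
    unfold xe
    have : 6 / (p0 : ℝ) = 6 * (1 / p0) := by ring
    linarith
  have hmhalf : (1 / 2 : ℝ) ^ m ≤ η / 4 := by
    calc (1 / 2 : ℝ) ^ m ≤ (1 / 2) ^ p0 :=
          pow_le_pow_of_le_one (by norm_num) (by norm_num) (by omega)
      _ ≤ 1 / p0 := hhalf
      _ ≤ η / 768 := hinvp'
      _ ≤ _ := by linarith
  obtain ⟨κ, hκ⟩ : ∃ x : ℝ, x = η / (16 * C') := ⟨_, rfl⟩
  have hκ0 : 0 < κ := by rw [hκ]; positivity
  have hκ1 : κ ≤ 1 := by
    rw [hκ, div_le_one (by positivity)]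
    linarith
  have hxe2 : 2 * xe p0 m ≤ κ / 2 := by
    have h1 : 2 * xe p0 m ≤ 14 * (η / (768 * C')) := by
      have := hxe
      linarith
    refine h1.trans ?_
    rw [hκ]
    have e1 : 14 * (η / (768 * C')) = (14 / 768) * (η / C') := by
      field_simp
    have e2 : η / (16 * C') / 2 = (1 / 32) * (η / C') := by
      field_simp
      norm_num
    rw [e1, e2]
    exact mul_le_mul_of_nonneg_right (by norm_num) (by positivity)
  have hexp : Real.exp (2 * xe p0 m) ≤ 1 + κ := by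
    rw [← Real.le_log_iff_exp_le (by linarith)]
    exact hxe2.trans (log_ge_half hκ0 hκ1)
  have hCη : C * ((3 + κ) * Real.exp (2 * xe p0 m) - 3) ≤ η / 2 := by
    have h5 : (3 + κ) * Real.exp (2 * xe p0 m) - 3 ≤ 5 * κ := numG1 hκ0 hκ1 hexp
    have h6 : κ * (16 * C') = η := by rw [hκ]; field_simp
    calc C * ((3 + κ) * Real.exp (2 * xe p0 m) - 3) ≤ C * (5 * κ) := by gcongr
      _ ≤ C' * (5 * κ) := by
          gcongr
          linarith
      _ ≤ η / 2 := by linarith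
  obtain ⟨Λ, hΛ⟩ : ∃ x : ℝ, x = 160 * m * (L * h) := ⟨_, rfl⟩
  have hLh : 1 ≤ L * h := one_le_mul_of_one_le_of_one_le (by linarith) (by linarith)
  have h160 : 160 * (m : ℝ) ≤ Λ := by
    rw [hΛ]
    calc 160 * (m : ℝ) = 160 * m * 1 := by ring
      _ ≤ _ := by gcongr
  have hlog := log_ge_half hκ0 hκ1
  have hC0 : 1 + 12 / Real.log (1 + κ) ≤ L * h := by
    have h1 : 12 / Real.log (1 + κ) ≤ 12 / (κ / 2) := by gcongr
    have h2 : 12 / (κ / 2) = 384 * C' * h := by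
      rw [hκ, hη']
      field_simp
      norm_num
    have h3 : 1 ≤ C' * h := one_le_mul_of_one_le_of_one_le hC'1 (by linarith)
    have h4 : 385 * C' * h ≤ L * h := by
      gcongr
      rw [hL]
      linarith
    linarith
  have hAge : ∀ x : ℝ, x ≤ A → x * h ≤ A * h := fun x hx => by gcongr
  refine ⟨m, p0, κ, Λ, by omega, by omega, hκ0, hmhalf, ?_, hCη, ?_, ?_, ?_, ?_, ?_, h160, ?_, ?_, ?_⟩
  · refine hxe.trans ?_
    linarith
  · linarith
  · rw [hdiv]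
    refine hmup.trans (hAge _ ?_)
    rw [hA]; linarith
  · rw [hdiv]
    refine hpup.trans (hAge _ ?_)
    rw [hA]; linarith
  · rw [hdiv2, hΛ]
    calc 160 * m * (L * h) ≤ 160 * (Q * h) * (L * h) := by gcongr
      _ = (160 * Q * L) * h ^ 2 := by ring
      _ ≤ _ := by
          gcongr
          rw [hA]; linarith
  · rw [hdiv]
    have h1 : c0 ≤ c0 * h := le_mul_of_one_le_right hc0 (by linarith)
    calc c0 + p0 ≤ c0 * h + P * h := by linarith
      _ = (c0 + P) * h := by ring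
      _ ≤ _ := hAge _ (by rw [hA]; linarith)
  · rw [hΛ]
    gcongr
  · have h1 := numA2 (C := C) (c0 := c0) hC hc0 hm.symm (by omega : 1 ≤ p0)
    rw [← hK2'] at h1
    have h2 : Λ * Real.exp (-Λ) ≤ 2 * Real.exp (-(Λ / 2)) := by
      have h3 : Λ / 2 ≤ Real.exp (Λ / 2) := le_exp_self _
      have e : Real.exp (-Λ) = Real.exp (-(Λ / 2)) * Real.exp (-(Λ / 2)) := by
        rw [← Real.exp_add]; congr 1; ring
      have e2 : Real.exp (Λ / 2) * Real.exp (-(Λ / 2)) = 1 := by rw [← Real.exp_add]; simp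
      calc Λ * Real.exp (-Λ) = 2 * ((Λ / 2) * Real.exp (-(Λ / 2))) * Real.exp (-(Λ / 2)) := by
            rw [e]; ring
        _ ≤ 2 * (Real.exp (Λ / 2) * Real.exp (-(Λ / 2))) * Real.exp (-(Λ / 2)) := by gcongr
        _ = _ := by rw [e2]; ring
    have hΛ0 : 0 ≤ Λ := by rw [hΛ]; positivity
    calc (C * (C1 p0 * (2 + 160 * m) * Real.exp (c0 + p0 + 1))) * (Λ * Real.exp (-Λ))
        ≤ Real.exp (K2' * m) * (2 * Real.exp (-(Λ / 2))) := by gcongr
      _ = 2 * Real.exp (-(Λ / 2 - K2' * m)) := by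
          rw [show -(Λ / 2 - K2' * m) = K2' * m + -(Λ / 2) by ring, Real.exp_add]; ring
      _ ≤ 2 * Real.exp (-(8 * h)) := by
          gcongr
          have h5 : K2' * m ≤ m * (L * h) := by
            have h6 : K2' ≤ L * h := by
              have h61 : K2' ≤ L := by rw [hL]; linarith
              have h62 : L ≤ L * h := le_mul_of_one_le_right hL0.le (by linarith)
              exact h61.trans h62
            calc K2' * m ≤ (L * h) * m := by gcongr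
              _ = _ := by ring
          have h7 : 8 * h ≤ 79 * (m * (L * h)) := by
            have h8 : h ≤ L * h := le_mul_of_one_le_left hh0.le (by linarith)
            have h9 : L * h ≤ m * (L * h) :=
              le_mul_of_one_le_left (by positivity) (by rw [hmr]; linarith)
            linarith
          have e : Λ / 2 = 80 * (m * (L * h)) := by rw [hΛ]; ring
          linarith
      _ ≤ 2 * (1 / (8 * h)) := by
          gcongr
          exact exp_neg_le_inv (by positivity)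
      _ = η / 4 := by rw [hη']; field_simp; norm_num
  · intro Y hY
    rw [hdiv3] at hY
    have hh2 : h ≤ h ^ 2 := le_self_pow₀ (by linarith) two_ne_zero
    have hh3 : h ^ 2 ≤ h ^ 3 := pow_le_pow_right₀ (by linarith) (by norm_num)
    have hY0 : ∀ x : ℝ, 0 ≤ x → x ≤ A → x * h ^ 2 ≤ Y := fun x hx0 hx => by
      refine le_trans ?_ hY
      gcongr
    have hYh : ∀ x : ℝ, 0 ≤ x → x ≤ A → x * h ≤ Y := fun x hx0 hx => by
      refine le_trans ?_ (hY0 x hx0 hx)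
      gcongr
    have hp2 : (p0 : ℝ) ^ 2 ≤ P ^ 2 * h ^ 2 := by
      calc (p0 : ℝ) ^ 2 ≤ (P * h) ^ 2 := by gcongr
        _ = _ := by ring
    have hP2 : 0 ≤ P ^ 2 := by positivity
    have hKP2 : 0 ≤ K3 * P ^ 2 := by positivity
    refine ⟨?_, ?_, ?_, ?_, ?_, ?_⟩
    · have h1 := numA3 (C := C) (c0 := c0) hC hc0 (by omega : 1 ≤ p0)
      rw [← hK3] at h1
      calc (C * (((2 : ℝ) ^ p0 * (p0 : ℝ) ^ p0) ^ 2 * Real.exp 6 * Real.exp (c0 + p0 + 1)))
            * Real.exp (-Y) ≤ Real.exp (K3 * p0 ^ 2) * Real.exp (-Y) := by gcongr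
        _ = Real.exp (-(Y - K3 * p0 ^ 2)) := by
            rw [← Real.exp_add]; congr 1; ring
        _ ≤ Real.exp (-(4 * h)) := by
            apply Real.exp_le_exp.mpr
            have h2 : K3 * (p0 : ℝ) ^ 2 ≤ K3 * (P ^ 2 * h ^ 2) := by gcongr
            have h3 := hY0 (K3 * P ^ 2 + 4) (by positivity) (by rw [hA]; linarith)
            linarith
        _ ≤ 1 / (4 * h) := exp_neg_le_inv (by positivity)
        _ = η / 4 := by rw [hη']; field_simp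
    · have := hYh 1 zero_le_one (by rw [hA]; linarith)
      linarith
    · have h1 := hYh (|Real.log T1|) hlT (by rw [hA]; linarith)
      have h2 : |Real.log T1| ≤ |Real.log T1| * h := le_mul_of_one_le_right hlT (by linarith)
      linarith [le_abs_self (Real.log T1)]
    · have e : Λ / (40 * m) = (4 * L) * h := by rw [hΛ]; field_simp; norm_num
      rw [e]
      exact hYh _ (by positivity) (by rw [hA]; linarith)
    · rw [Real.log_pow]
      have h4 : Real.log p0 ≤ p0 := by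
        have := Real.log_le_sub_one_of_pos (x := (p0 : ℝ)) (by linarith)
        linarith
      have h5 := hY0 (P ^ 2) hP2 (by rw [hA]; linarith)
      calc (p0 : ℝ) * Real.log p0 ≤ p0 * p0 := by gcongr
        _ = (p0 : ℝ) ^ 2 := by ring
        _ ≤ _ := hp2.trans h5
    · have h1 := hYh P hP0 (by rw [hA]; linarith)
      linarith


/-! ### The theorem -/

theorem offCoreRate : OffCoreRate := by
  obtain ⟨C, T1, hC, hT1, hoff⟩ := off_mean
  obtain ⟨c0, hc00, hprime⟩ := prime_sum_rate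
  obtain ⟨A, hA1, hpar⟩ := params (C := C) (c0 := c0) (T1 := T1) hC hc00
  refine ⟨A, hA1, ?_⟩
  intro η hη hη1
  obtain ⟨m, p0, ε', Λ, hm, hp0, hε', hmη, hxη, hCη, hΛ2, hmA, hpA, hΛA, hcA, hΛ4, hΛ3, hΛ1, hYs⟩ :=
    hpar η hη hη1
  set c := c0 + (p0 : ℝ) with hc
  have hc0 : 0 ≤ c := by positivity
  have hm0 : (0 : ℝ) < m := by exact_mod_cast (by omega : 0 < m)
  have hm4 : (4000 : ℝ) ≤ m := by exact_mod_cast hm
  have hp00 : (0 : ℝ) < p0 := by exact_mod_cast (by omega : 0 < p0)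
  have hΛ0 : 0 < Λ := by linarith
  refine ⟨m, p0, Λ, c, hm, hp0, hmη, hΛ2, hc0, hmA, hpA, hΛA, hcA, ?_⟩
  intro Y hY J hJ hJ4 k hk0 hk1
  obtain ⟨hY2, hY3, hY4, hY5, hY6, hY7⟩ := hYs Y hY
  have hYp : 0 < Y := by linarith
  set X := 160 * m * Y with hX
  have hXp : 0 < X := by positivity
  set δ := Λ / X with hδ
  have hδ0 : 0 < δ := by positivity
  have hδ4 : δ ≤ 1 / 4 := by
    rw [hδ, div_le_iff₀ hXp, hX]
    rw [div_le_iff₀ (by positivity)] at hY5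
    linarith
  have hδX : δ * X = Λ := by rw [hδ]; field_simp
  have hk2 : k ^ 2 ≤ 1 := by nlinarith
  -- the form of B
  have hs2 : 2 * (1 / 2 + δ) = 1 + 2 * δ := by ring
  set E := BK (K1s (2 * (1 / 2 + δ))) (Bm m p0 k Y J) (Bm m p0 k Y J) with hE
  have hyexp : 1 / δ ≤ Y := numG2 hX hXp hδ hδ0 hYp (by rw [mul_one]; exact hΛ4)
  have hYX : Y ≤ X := le_mul_of_one_le_left hYp.le (by linarith)
  have hQ : Real.log (1 / δ) - c ≤ QT (1 + 2 * δ) p0 Y J := by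
    rw [QT_eq hYp hJ4]
    have := hprime p0 δ hδ0 hδ4 (Real.exp Y) (Real.exp_le_exp.mpr hyexp)
    linarith
  have hElow : (X / Λ) ^ (k ^ 2) * Real.exp (-(k ^ 2 * c) - η) ≤ E := by
    have h1 := DD_K1s_ge (s := 1 + 2 * δ) (k := k) (J := J) (p0 := p0) (m := m) hYp (by linarith)
      hk0.le (by linarith) hp0 (by omega)
    rw [← hs2] at h1
    refine le_trans ?_ h1
    have e1 : (X / Λ) ^ (k ^ 2) = Real.exp (k ^ 2 * Real.log (1 / δ)) := by
      have : X / Λ = 1 / δ := by rw [hδ]; field_simp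
      rw [this, Real.rpow_def_of_pos (by positivity), mul_comm]
    rw [e1, ← Real.exp_add]
    apply Real.exp_le_exp.mpr
    rw [hs2]
    have h2 : k ^ 2 * (Real.log (1 / δ) - c) ≤ k ^ 2 * QT (1 + 2 * δ) p0 Y J := by gcongr
    linarith
  refine ⟨hδ4, hElow, ?_⟩
  have hηexp : Real.exp (-(c + 1)) ≤ Real.exp (-(k ^ 2 * c) - η) := by
    apply Real.exp_le_exp.mpr
    have : k ^ 2 * c ≤ 1 * c := by gcongr
    linarith
  have hElow' : (X / Λ) ^ (k ^ 2) * Real.exp (-(c + 1)) ≤ E := by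
    refine le_trans ?_ hElow
    gcongr
  have hEY : Y ^ (k ^ 2) ≤ E * (Λ * Real.exp (c + 1)) :=
    numG3 hYp hΛ2 (by positivity) hk2 hYX hElow'
  have hXΛ : 1 ≤ X / Λ := by
    rw [one_le_div hΛ0]
    have : δ * X ≤ 1 / 4 * X := by gcongr
    linarith
  have hE1 : 1 ≤ E * Real.exp (c + 1) := numG4 (by positivity) hXΛ hElow'
  have hE0 : 0 < E := lt_of_lt_of_le (by positivity) hElow'
  set T := Real.exp X with hT
  have hTp : 0 < T := Real.exp_pos _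
  set D := Dm m p0 (1 - k) Y J with hD
  set B := Bm m p0 k Y J with hB
  set H := (p0 : ℝ) ^ p0 * Real.exp (2 * m * Y) with hH
  have hpp : (1 : ℝ) ≤ (p0 : ℝ) ^ p0 := one_le_pow₀ (by exact_mod_cast (by omega : 1 ≤ p0))
  have hH1 : 1 ≤ H := by
    calc (1 : ℝ) = 1 * 1 := by ring
      _ ≤ _ := by
        rw [hH]
        gcongr
        exact Real.one_le_exp (by positivity)
  have hHT : H ≤ T ^ (1 / 4 : ℝ) := by
    have e1 : T ^ (1 / 4 : ℝ) = Real.exp (40 * m * Y) := by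
      rw [hT, ← Real.exp_mul, hX]; congr 1; ring
    rw [e1, hH]
    have h1 : (p0 : ℝ) ^ p0 ≤ Real.exp Y := by
      rwa [← Real.log_le_iff_le_exp (by positivity)]
    calc (p0 : ℝ) ^ p0 * Real.exp (2 * m * Y) ≤ Real.exp Y * Real.exp (2 * m * Y) := by gcongr
      _ = Real.exp (Y + 2 * m * Y) := by rw [← Real.exp_add]
      _ ≤ _ := by
          apply Real.exp_le_exp.mpr
          have : 1 * Y ≤ 38 * m * Y := by gcongr; linarith
          linarith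
  have hka : |1 - k| ≤ 1 := by rw [abs_of_nonneg (by linarith)]; linarith
  have hkk : |k| ≤ 1 := by rw [abs_of_pos hk0]; linarith
  have hDs := Pool.Agent.Lib.MP_f9aece_nt_h40.len_D m (p0 := p0) (by omega) hka hYp J
  have hBs := Pool.Agent.Lib.MP_f9aece_nt_h40.len_B m p0 hkk hYp J
  have hnrm := Pool.Agent.Lib.MP_f9aece_nt_h40.nrm_D m p0 hka hYp J
  obtain ⟨hf1, hf2⟩ := forms_rate m p0 hm (by omega) k hk0.le (by linarith) Y hY3 J hJ4
  rw [← hD] at hf1 hf2 hDs hnrm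
  rw [← hB] at hBs
  set W := ((3 + ε') * Real.exp (2 * xe p0 m) - 3) * E with hW
  have hp0Y : p0 ≤ ⌊Real.exp Y⌋₊ := by
    apply Nat.le_floor
    have := Real.add_one_le_exp Y
    linarith
  have hWs : ∀ N : ℕ, ∑ M ∈ Finset.Icc 1 N, eM D B M ^ 2 * (M : ℝ) ^ (-(2 * (1 / 2 + δ))) ≤ W := by
    intro N
    have hZ := zeta_tail_rate ε' hε' _ le_rfl δ hδ0 hδ4 (Real.exp Y)
      (Real.exp_le_exp.mpr (numG2 hX hXp hδ hδ0 hYp hΛ3))
    have := energy_forms (k := k) (Y := Y) (p0 := p0) (m := m) (J := J) (δ := δ) (ε := ε') hδ0 hk0.le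
      (by linarith) hYp hp0 hp0Y (by omega) hJ4 hε'.le hZ N
    rw [hs2, hW, hE, hs2]
    exact this
  have hTT : T1 ≤ T := by
    rw [hT, ← Real.log_le_iff_le_exp (by linarith)]
    linarith
  have hmain := hoff T hTT (1 / 2 + δ) (by linarith) (by linarith) D B H W hH1 hHT hDs
    (fun n hn => ⟨(hBs n hn).1, (hBs n hn).2.trans (by
      rw [hH]
      exact le_mul_of_one_le_left (Real.exp_pos _).le hpp)⟩) hWs (by
      refine Continuous.integrableOn_Ioc ?_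
      have c1 := continuous_zeta_line (σ := 1 / 2 + δ) (by linarith)
      have c2 := continuous_evs_line (σ := 1 / 2 + δ) (by linarith) D
      have c3 := continuous_evs_line (σ := 1 / 2 + δ) (by linarith) B
      exact ((c1.mul c2).sub c3).norm.pow 2)
  refine hmain.trans ?_
  have hlogT : Real.log T = X := by rw [hT, Real.log_exp]
  -- first term
  have t1 : C * W ≤ η / 2 * E := by
    calc C * W = (C * ((3 + ε') * Real.exp (2 * xe p0 m) - 3)) * E := by rw [hW]; ring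
      _ ≤ _ := by gcongr
  -- second term
  have hTδ : T ^ (-(7 / 4 * (1 / 2 + δ - 1 / 2))) ≤ Real.exp (-Λ) := by
    rw [hT, ← Real.exp_mul]
    apply Real.exp_le_exp.mpr
    have : X * -(7 / 4 * (1 / 2 + δ - 1 / 2)) = -(7 / 4 * (δ * X)) := by ring
    rw [this, hδX]
    linarith
  have t2 : C * (T ^ (-(7 / 4 * (1 / 2 + δ - 1 / 2))) * ((1 + Real.log T) * |BK K2 D D| + |BK Kg D D|))
      ≤ η / 4 * E := by
    rw [hlogT]
    exact numG5 hC (C1_pos p0).le hX hm0 hY3 hf1 hf2 (abs_nonneg _) (abs_nonneg _) hEY hTδ hE0 rfl hΛ1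
  -- third term
  have t3 : C * ((nrm D * H) ^ 2 / T ^ (1 / 16 : ℝ)) ≤ η / 4 * E := by
    refine numG6 (K := (2 : ℝ) ^ p0 * (p0 : ℝ) ^ p0) (m := (m : ℝ)) (Y := Y) (J := J) hC (nrm_nonneg D)
      hm4 hY3 hJ ?_ (by linarith) ?_ hE1 rfl hY2 hE0
    · calc nrm D * H ≤ (2 ^ p0 * Real.exp (J + 2 * m * Y)) * H := by gcongr
        _ = _ := by rw [hH]; ring
    · rw [hT, ← Real.exp_mul, hX]; congr 1; ring
  calc C * T * (W + T ^ (-(7 / 4 * (1 / 2 + δ - 1 / 2))) * ((1 + Real.log T) * |BK K2 D D| + |BK Kg D D|)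
        + (nrm D * H) ^ 2 / T ^ (1 / 16 : ℝ))
      = T * (C * W + C * (T ^ (-(7 / 4 * (1 / 2 + δ - 1 / 2)))
          * ((1 + Real.log T) * |BK K2 D D| + |BK Kg D D|))
        + C * ((nrm D * H) ^ 2 / T ^ (1 / 16 : ℝ))) := by ring
    _ ≤ T * (η / 2 * E + η / 4 * E + η / 4 * E) := by gcongr
    _ = _ := by ring

end Pool.Agent.Lib.U2.H20

namespace Pool.Agent.Lib.U2

theorem offCoreRate : OffCoreRate := H20.offCoreRate

end Pool.Agent.Lib.U2
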