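import Mathlib
import Pool.Agent.Lib.MP_f9aece_nt_u2.Stmts

/-!
Auxiliary results for the final assembly: shift of the interval, convexity in the exponent,
comparison of the main terms.
-/

set_option autoImplicit false

namespace Pool.Agent.Lib.U2

open MeasureTheory Set Filter Topology Complex
open Pool.Agent.Lib.MP_f9aece_nt Pool.Agent.Lib.MP_f9aece_nt_h97

namespace FN

lemma cont_z : Continuous (fun t : ℝ => riemannZeta (1 / 2 + I * t)) := by
  refine continuous_iff_continuousAt.mpr fun t => ?_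
  have h1 : (1 / 2 + I * t : ℂ) ≠ 1 := by
    intro h
    have := congrArg Complex.re h
    norm_num at this
  have h2 : ContinuousAt riemannZeta (1 / 2 + I * t : ℂ) := (differentiableAt_riemannZeta h1).continuousAt
  exact ContinuousAt.comp (g := riemannZeta) (f := fun t : ℝ => (1 / 2 + I * t : ℂ)) h2
    (by fun_prop)

lemma mom_mul {β x T : ℝ} (hT : 0 < T) :
    T * mom β x T = ∫ t in x..(x + T), ‖riemannZeta (1 / 2 + I * t)‖ ^ β := by
  have h2 := intervalIntegral.integral_comp_mul_add (a := 0) (b := 1)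
    (fun t : ℝ => ‖riemannZeta (1 / 2 + I * t)‖ ^ β) hT.ne' x
  simp only [mul_zero, zero_add, mul_one, smul_eq_mul] at h2
  unfold mom
  rw [add_comm T x] at h2
  have h3 : ∫ u in (0 : ℝ)..1, ‖riemannZeta (1 / 2 + I * x + I * u * T)‖ ^ β
      = ∫ u in (0 : ℝ)..1, ‖riemannZeta (1 / 2 + I * ((T * u + x : ℝ) : ℂ))‖ ^ β := by
    refine intervalIntegral.integral_congr fun u _ => ?_
    congr 3
    push_cast
    ring
  rw [h3, h2]
  field_simp

/-- comparison with intervals starting at the origin -/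
lemma shift (x : ℝ) : ∃ K : ℝ, 0 ≤ K ∧ ∀ k : ℝ, 0 < k → k ≤ 1 → ∀ T : ℝ, 2 * |x| + 1 ≤ T →
    M0 k (T - |x|) - K ≤ T * mom (2 * k) x T ∧ T * mom (2 * k) x T ≤ M0 k (T + |x|) + K := by
  have hx := abs_nonneg x
  have hx1 := le_abs_self x
  have hx2 := neg_abs_le x
  set K := ∫ t in (-|x|)..|x|, (1 + ‖riemannZeta (1 / 2 + I * t)‖ ^ 2) with hK
  refine ⟨K, intervalIntegral.integral_nonneg (by linarith) fun t _ => by positivity, ?_⟩
  intro k hk hk1 T hT
  have hTp : 0 < T := by linarith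
  rw [mom_mul hTp]
  set F : ℝ → ℝ := fun t => ‖riemannZeta (1 / 2 + I * t)‖ ^ (2 * k) with hF
  have hFc : Continuous F := cont_z.norm.rpow_const fun _ => Or.inr (by positivity)
  have hF0 : ∀ t, 0 ≤ F t := fun t => by rw [hF]; positivity
  have hI : ∀ u v, IntervalIntegrable F volume u v := fun u v => hFc.intervalIntegrable u v
  have hFK : ∀ t, F t ≤ 1 + ‖riemannZeta (1 / 2 + I * t)‖ ^ 2 := by
    intro t
    rw [hF]
    dsimp only
    rcases le_total (‖riemannZeta (1 / 2 + I * t)‖) 1 with h1 | h1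
    · have h2 : ‖riemannZeta (1 / 2 + I * t)‖ ^ (2 * k) ≤ 1 :=
        Real.rpow_le_one (norm_nonneg _) h1 (by positivity)
      have h3 : 0 ≤ ‖riemannZeta (1 / 2 + I * t)‖ ^ 2 := by positivity
      linarith
    · have h2 : ‖riemannZeta (1 / 2 + I * t)‖ ^ (2 * k) ≤ ‖riemannZeta (1 / 2 + I * t)‖ ^ (2 : ℝ) :=
        Real.rpow_le_rpow_of_exponent_le h1 (by linarith)
      rw [Real.rpow_two] at h2
      linarith
  have hG : Continuous fun t : ℝ => 1 + ‖riemannZeta (1 / 2 + I * t)‖ ^ 2 :=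
    continuous_const.add (cont_z.norm.pow 2)
  have hG0 : ∀ t : ℝ, 0 ≤ 1 + ‖riemannZeta (1 / 2 + I * t)‖ ^ 2 := fun t => by positivity
  have hK1 : ∫ t in (-|x|)..(0 : ℝ), F t ≤ K := by
    refine (intervalIntegral.integral_mono_on (by linarith) (hI _ _) (hG.intervalIntegrable _ _)
      fun t _ => hFK t).trans ?_
    exact intervalIntegral.integral_mono_interval le_rfl (by linarith) hx (Eventually.of_forall hG0)
      (hG.intervalIntegrable _ _)
  have hK2 : ∫ t in (0 : ℝ)..|x|, F t ≤ K := by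
    refine (intervalIntegral.integral_mono_on hx (hI _ _) (hG.intervalIntegrable _ _)
      fun t _ => hFK t).trans ?_
    exact intervalIntegral.integral_mono_interval (by linarith) hx le_rfl (Eventually.of_forall hG0)
      (hG.intervalIntegrable _ _)
  unfold M0
  constructor
  · have h1 : ∫ t in |x|..(T - |x|), F t ≤ ∫ t in x..(x + T), F t :=
      intervalIntegral.integral_mono_interval hx1 (by linarith) (by linarith)
        (Eventually.of_forall hF0) (hI _ _)
    have h2 := intervalIntegral.integral_add_adjacent_intervals (hI 0 |x|) (hI |x| (T - |x|))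
    linarith
  · have h1 : ∫ t in x..(x + T), F t ≤ ∫ t in (-|x|)..(T + |x|), F t :=
      intervalIntegral.integral_mono_interval hx2 (by linarith) (by linarith)
        (Eventually.of_forall hF0) (hI _ _)
    have h2 := intervalIntegral.integral_add_adjacent_intervals (hI (-|x|) 0) (hI 0 (T + |x|))
    linarith

/-- convexity of the logarithm of the moment in the exponent, used as a lower bound -/
lemma lyap {x T a b c θ : ℝ} (ha : 0 < a) (hb : 0 < b) (hc : 0 < c) (hθ : 0 < θ) (hθ1 : θ ≤ 1)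
    (hbc : b = θ * a + (1 - θ) * c) (hMb : 0 < mom b x T) (hMc : 0 < mom c x T) :
    Real.exp (1 / θ * (Real.log (mom b x T) - (1 - θ) * Real.log (mom c x T))) ≤ mom a x T := by
  set X := Real.exp (1 / θ * (Real.log (mom b x T) - (1 - θ) * Real.log (mom c x T))) with hX
  have hX0 : 0 < X := Real.exp_pos _
  set Z := mom c x T with hZ
  have hcz : Continuous fun u : ℝ => ‖riemannZeta (1 / 2 + I * x + I * u * T)‖ := by
    have h := cont_z.comp (show Continuous fun u : ℝ => x + u * T by fun_prop)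
    refine Continuous.congr h.norm fun u => ?_
    simp only [Function.comp_apply]
    congr 2
    push_cast
    ring
  have hcr : ∀ e : ℝ, 0 < e → Continuous fun u : ℝ => ‖riemannZeta (1 / 2 + I * x + I * u * T)‖ ^ e :=
    fun e he => hcz.rpow_const fun _ => Or.inr he.le
  -- pointwise weighted mean inequality
  have hpt : ∀ u : ℝ, ‖riemannZeta (1 / 2 + I * x + I * u * T)‖ ^ b
      ≤ X ^ θ * Z ^ (1 - θ) * (θ / X * ‖riemannZeta (1 / 2 + I * x + I * u * T)‖ ^ a
        + (1 - θ) / Z * ‖riemannZeta (1 / 2 + I * x + I * u * T)‖ ^ c) := by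
    intro u
    set f := ‖riemannZeta (1 / 2 + I * x + I * u * T)‖ with hf
    have hf0 : 0 ≤ f := norm_nonneg _
    have h1 := Real.geom_mean_le_arith_mean2_weighted hθ.le (show 0 ≤ 1 - θ by linarith)
      (show 0 ≤ f ^ a / X by positivity) (show 0 ≤ f ^ c / Z by positivity) (by ring)
    have h2 : f ^ b = X ^ θ * Z ^ (1 - θ) * ((f ^ a / X) ^ θ * (f ^ c / Z) ^ (1 - θ)) := by
      rw [Real.div_rpow (by positivity) hX0.le, Real.div_rpow (by positivity) hMc.le, ← Real.rpow_mul hf0,
        ← Real.rpow_mul hf0]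
      have e1 : X ^ θ * Z ^ (1 - θ) * (f ^ (a * θ) / X ^ θ * (f ^ (c * (1 - θ)) / Z ^ (1 - θ)))
          = f ^ (a * θ) * f ^ (c * (1 - θ)) := by
        have : 0 < X ^ θ := Real.rpow_pos_of_pos hX0 _
        have : 0 < Z ^ (1 - θ) := Real.rpow_pos_of_pos hMc _
        field_simp
      rw [e1, ← Real.rpow_add_of_nonneg hf0 (by positivity)
        (mul_nonneg hc.le (by linarith)), hbc]
      congr 1
      ring
    rw [h2]
    refine mul_le_mul_of_nonneg_left (h1.trans (le_of_eq ?_)) (by positivity)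
    ring
  have hint : mom b x T ≤ X ^ θ * Z ^ (1 - θ) * (θ / X * mom a x T + (1 - θ) / Z * Z) := by
    have h1 : mom b x T ≤ ∫ u in (0 : ℝ)..1, X ^ θ * Z ^ (1 - θ) *
        (θ / X * ‖riemannZeta (1 / 2 + I * x + I * u * T)‖ ^ a
          + (1 - θ) / Z * ‖riemannZeta (1 / 2 + I * x + I * u * T)‖ ^ c) := by
      unfold mom
      refine intervalIntegral.integral_mono_on zero_le_one ((hcr b hb).intervalIntegrable _ _) ?_
        fun u _ => hpt u
      exact (continuous_const.mul ((continuous_const.mul (hcr a ha)).add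
        (continuous_const.mul (hcr c hc)))).intervalIntegrable _ _
    refine h1.trans (le_of_eq ?_)
    rw [intervalIntegral.integral_const_mul, intervalIntegral.integral_add,
      intervalIntegral.integral_const_mul, intervalIntegral.integral_const_mul]
    · rfl
    · exact (continuous_const.mul (hcr a ha)).intervalIntegrable _ _
    · exact (continuous_const.mul (hcr c hc)).intervalIntegrable _ _
  have hXZ : X ^ θ * Z ^ (1 - θ) = mom b x T := by
    rw [hX, ← Real.exp_mul, Real.rpow_def_of_pos hMc, ← Real.exp_add]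
    have : 1 / θ * (Real.log (mom b x T) - (1 - θ) * Real.log Z) * θ + Real.log Z * (1 - θ)
        = Real.log (mom b x T) := by
      field_simp
      ring
    rw [this, Real.exp_log hMb]
  rw [hXZ] at hint
  have h3 : (1 - θ) / Z * Z = 1 - θ := by field_simp
  rw [h3] at hint
  have h4 : 1 ≤ θ / X * mom a x T + (1 - θ) := by
    by_contra h
    push Not at h
    have := mul_lt_mul_of_pos_left h hMb
    linarith
  have h5 : θ ≤ θ / X * mom a x T := by linarith
  have h6 : θ * X ≤ θ * mom a x T := by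
    calc θ * X ≤ (θ / X * mom a x T) * X := by gcongr
      _ = _ := by field_simp
  exact le_of_mul_le_mul_left h6 hθ

/-- the main terms at neighbouring heights -/
lemma size (x : ℝ) : ∃ T0 : ℝ, 3 ≤ T0 ∧ ∀ T : ℝ, T0 ≤ T → ∀ k : ℝ, 0 < k → k ≤ 1 →
    (T + |x|) * Real.log (T + |x|) ^ (k ^ 2) ≤ T * Real.log T ^ (k ^ 2) * Real.exp (Real.log T)⁻¹ ∧
    T * Real.log T ^ (k ^ 2) * (1 - (2 * Real.log T)⁻¹) ≤ (T - |x|) * Real.log (T - |x|) ^ (k ^ 2) := by
  have hx := abs_nonneg x
  have hlim : ∀ᶠ T : ℝ in atTop, 6 * |x| * Real.log T ≤ T := by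
    have h1 := Real.isLittleO_log_id_atTop.def (show 0 < 1 / (6 * |x| + 1) by positivity)
    filter_upwards [h1, eventually_ge_atTop 1] with T h2 h3
    rw [Real.norm_eq_abs, Real.norm_eq_abs, abs_of_nonneg (Real.log_nonneg h3), id,
      abs_of_nonneg (show (0 : ℝ) ≤ T by linarith), div_mul_eq_mul_div, one_mul,
      le_div_iff₀ (by positivity)] at h2
    have := Real.log_nonneg h3
    nlinarith
  obtain ⟨T0, hT0⟩ := (hlim.and (eventually_ge_atTop (max 3 (Real.exp 2)))).exists_forall_of_atTop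
  refine ⟨max T0 3, le_max_right _ _, ?_⟩
  intro T hT k hk hk1
  obtain ⟨h1, h2⟩ := hT0 T ((le_max_left _ _).trans hT)
  have hT3 : 3 ≤ T := (le_max_left _ _).trans h2
  have hTp : 0 < T := by linarith
  have hL2 : 2 ≤ Real.log T := by
    rw [Real.le_log_iff_exp_le hTp]
    exact (le_max_right _ _).trans h2
  obtain ⟨L, hL⟩ : ∃ L, L = Real.log T := ⟨_, rfl⟩
  rw [← hL] at h1 hL2 ⊢
  have hLp : 0 < L := by linarith
  have hk2 : k ^ 2 ≤ 1 := by nlinarith
  have hk20 : 0 < k ^ 2 := by positivity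
  set e := |x| / T with he
  have he0 : 0 ≤ e := by positivity
  have heL : 6 * e ≤ L⁻¹ := by
    rw [he, ← mul_div_assoc, div_le_iff₀ hTp, ← div_eq_inv_mul, le_div_iff₀ hLp]
    linarith
  have hLi : L⁻¹ ≤ 1 / 2 := by
    rw [inv_le_comm₀ hLp (by norm_num)]
    linarith
  have hTe : T * e = |x| := by rw [he]; field_simp
  constructor
  · have e1 : T + |x| = T * (1 + e) := by rw [mul_add, mul_one, hTe]
    have h4 : 0 < 1 + e := by positivity
    have hlog2 : Real.log (T + |x|) ≤ L * (1 + e) := by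
      rw [e1, Real.log_mul hTp.ne' h4.ne', ← hL]
      have h5 := Real.log_le_sub_one_of_pos h4
      nlinarith
    have hl0 : 0 ≤ Real.log (T + |x|) := Real.log_nonneg (by linarith)
    have h6 : Real.log (T + |x|) ^ (k ^ 2) ≤ L ^ (k ^ 2) * (1 + e) := by
      calc Real.log (T + |x|) ^ (k ^ 2) ≤ (L * (1 + e)) ^ (k ^ 2) := by gcongr
        _ = L ^ (k ^ 2) * (1 + e) ^ (k ^ 2) := by rw [Real.mul_rpow hLp.le h4.le]
        _ ≤ L ^ (k ^ 2) * (1 + e) := by
            gcongr
            calc (1 + e) ^ (k ^ 2) ≤ (1 + e) ^ (1 : ℝ) :=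
                  Real.rpow_le_rpow_of_exponent_le (by linarith) hk2
              _ = _ := Real.rpow_one _
    have h7 : (1 + e) * (1 + e) ≤ Real.exp L⁻¹ := by
      have h8 := Real.add_one_le_exp L⁻¹
      nlinarith
    calc (T + |x|) * Real.log (T + |x|) ^ (k ^ 2) ≤ (T * (1 + e)) * (L ^ (k ^ 2) * (1 + e)) := by
          rw [← e1]; gcongr
      _ = T * L ^ (k ^ 2) * ((1 + e) * (1 + e)) := by ring
      _ ≤ _ := by gcongr
  · have e1 : T - |x| = T * (1 - e) := by rw [mul_sub, mul_one, hTe]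
    have h4 : 1 / 2 ≤ 1 - e := by linarith
    have h4' : 0 < 1 - e := by linarith
    have hlog2 : L * (1 - 2 * e) ≤ Real.log (T - |x|) := by
      rw [e1, Real.log_mul hTp.ne' h4'.ne', ← hL]
      have h5 := Real.one_sub_inv_le_log_of_pos h4'
      have h6 : -(2 * e) ≤ 1 - (1 - e)⁻¹ := by
        have h7 : 1 - (1 - e)⁻¹ = -e / (1 - e) := by field_simp; ring
        rw [h7, le_div_iff₀ h4']
        nlinarith
      nlinarith
    have h0 : 0 ≤ 1 - 2 * e := by linarith
    have h0' : 0 < 1 - 2 * e := by linarith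
    have h6 : L ^ (k ^ 2) * (1 - 2 * e) ≤ Real.log (T - |x|) ^ (k ^ 2) := by
      calc L ^ (k ^ 2) * (1 - 2 * e) ≤ L ^ (k ^ 2) * (1 - 2 * e) ^ (k ^ 2) := by
            gcongr
            calc 1 - 2 * e = (1 - 2 * e) ^ (1 : ℝ) := (Real.rpow_one _).symm
              _ ≤ _ := Real.rpow_le_rpow_of_exponent_ge h0' (by linarith) hk2
        _ = (L * (1 - 2 * e)) ^ (k ^ 2) := by rw [Real.mul_rpow hLp.le h0]
        _ ≤ _ := by gcongr
    have h7 : 1 - (2 * L)⁻¹ ≤ (1 - e) * (1 - 2 * e) := by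
      have h8 : (2 * L)⁻¹ = L⁻¹ / 2 := by rw [mul_inv]; ring
      rw [h8]
      nlinarith
    have h9 : 0 ≤ T - |x| := by rw [e1]; positivity
    calc T * L ^ (k ^ 2) * (1 - (2 * L)⁻¹) ≤ T * L ^ (k ^ 2) * ((1 - e) * (1 - 2 * e)) := by gcongr
      _ = (T * (1 - e)) * (L ^ (k ^ 2) * (1 - 2 * e)) := by ring
      _ ≤ _ := by rw [← e1]; gcongr

end FN

end Pool.Agent.Lib.U2
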