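import Mathlib
import Pool.Agent.Lib.MP_f9aece_nt_u2.FinalA

/-!
Final assembly of the project `UpToTwo`.
-/

set_option autoImplicit false

namespace Pool.Agent.Lib.U2

open MeasureTheory Set Filter Topology Complex
open Pool.Agent.Lib.MP_f9aece_nt Pool.Agent.Lib.MP_f9aece_nt_h97

namespace FN

/-- all facts on the heights `T - |x|`, `T`, `T + |x|` -/
lemma base (x : ℝ) : ∃ K T0 : ℝ, 0 ≤ K ∧ 3 ≤ T0 ∧ ∀ T : ℝ, T0 ≤ T →
    3 ≤ T ∧ 4 ≤ Real.log T ∧ K / T ≤ (2 * Real.log T)⁻¹ ∧ T / 2 ≤ T - |x| ∧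
    Real.log T / 2 ≤ Real.log (T - |x|) ∧ Real.log T ≤ Real.log (T + |x|) ∧
    ∀ k : ℝ, 0 < k → k ≤ 1 →
      M0 k (T - |x|) - K ≤ T * mom (2 * k) x T ∧ T * mom (2 * k) x T ≤ M0 k (T + |x|) + K ∧
      (T + |x|) * Real.log (T + |x|) ^ (k ^ 2) ≤ T * Real.log T ^ (k ^ 2) * Real.exp (Real.log T)⁻¹ ∧
      T * Real.log T ^ (k ^ 2) * (1 - (2 * Real.log T)⁻¹)
        ≤ (T - |x|) * Real.log (T - |x|) ^ (k ^ 2) := by
  obtain ⟨K, hK0, hK⟩ := shift x
  obtain ⟨T1, hT13, hT1⟩ := size x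
  have hx := abs_nonneg x
  have hlim : ∀ᶠ T : ℝ in atTop, 2 * K * Real.log T ≤ T := by
    have h1 := Real.isLittleO_log_id_atTop.def (show 0 < 1 / (2 * K + 1) by positivity)
    filter_upwards [h1, eventually_ge_atTop 1] with T h2 h3
    rw [Real.norm_eq_abs, Real.norm_eq_abs, abs_of_nonneg (Real.log_nonneg h3), id,
      abs_of_nonneg (show (0 : ℝ) ≤ T by linarith), div_mul_eq_mul_div, one_mul,
      le_div_iff₀ (by positivity)] at h2
    have := Real.log_nonneg h3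
    have h5 : Real.log T * (2 * K + 1) = 2 * K * Real.log T + Real.log T := by ring
    linarith only [h2, h5, this]
  obtain ⟨T2, hT2⟩ := (hlim.and (eventually_ge_atTop (Real.exp 4))).exists_forall_of_atTop
  refine ⟨K, max (max T1 T2) (2 * |x| + 4), hK0, hT13.trans ((le_max_left _ _).trans (le_max_left _ _)), ?_⟩
  intro T hT
  have hTT1 : T1 ≤ T := ((le_max_left _ _).trans (le_max_left _ _)).trans hT
  have hTT2 : T2 ≤ T := ((le_max_right _ _).trans (le_max_left _ _)).trans hT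
  have hTx : 2 * |x| + 4 ≤ T := (le_max_right _ _).trans hT
  obtain ⟨h1, h2⟩ := hT2 T hTT2
  have hT4 : 4 ≤ T := by linarith
  have hTp : 0 < T := by linarith
  have hL4 : 4 ≤ Real.log T := by
    rw [Real.le_log_iff_exp_le hTp]
    exact h2
  have hLp : 0 < Real.log T := by linarith
  have hTm : T / 2 ≤ T - |x| := by linarith
  refine ⟨by linarith, hL4, ?_, hTm, ?_, Real.log_le_log hTp (by linarith), ?_⟩
  · rw [div_le_iff₀ hTp, ← div_eq_inv_mul, le_div_iff₀ (by positivity)]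
    linarith
  · have h3 : Real.log T / 2 = Real.log (Real.sqrt T) := by
      rw [Real.log_sqrt hTp.le]
    rw [h3]
    refine Real.log_le_log (Real.sqrt_pos.mpr hTp) (le_trans ?_ hTm)
    rw [Real.sqrt_le_left (by positivity)]
    have h5 := mul_nonneg hTp.le (sub_nonneg.mpr hT4)
    linarith only [h5]
  · intro k hk hk1
    obtain ⟨a1, a2⟩ := hK k hk hk1 T (by linarith)
    obtain ⟨a3, a4⟩ := hT1 T hTT1 k hk hk1
    exact ⟨a1, a2, a3, a4⟩

/-- upper bound on every interval -/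
lemma upperX (hU : UpperAll) (a0 : ℝ) (ha0 : 0 < a0) (x : ℝ) : ∃ T0 : ℝ, ∀ T : ℝ, T0 ≤ T →
    ∀ k : ℝ, 0 < k → k ≤ 1 - a0 →
    mom (2 * k) x T ≤ Real.log T ^ (k ^ 2) * Real.exp (20 * k + 3 * (Real.log T)⁻¹) := by
  obtain ⟨TU, hTU3, hU⟩ := hU a0 ha0
  obtain ⟨K, T1, hK0, hT13, hB⟩ := base x
  have hx := abs_nonneg x
  refine ⟨max T1 TU, ?_⟩
  intro T hT k hk hk1
  obtain ⟨hT3, hL4, hKT, hTm, hLm, hLq, hk'⟩ := hB T ((le_max_left _ _).trans hT)
  obtain ⟨-, a2, a3, -⟩ := hk' k hk (by linarith)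
  have hTU : TU ≤ T := (le_max_right _ _).trans hT
  have h1 := hU (T + |x|) (by linarith) k hk hk1
  obtain ⟨L, hL⟩ : ∃ L, L = Real.log T := ⟨_, rfl⟩
  obtain ⟨L2, hL2⟩ : ∃ L2, L2 = Real.log (T + |x|) := ⟨_, rfl⟩
  rw [← hL] at hL4 hKT hLm hLq a3 ⊢
  rw [← hL2] at hLq a3 h1
  have hTp : 0 < T := by linarith
  have hLp : 0 < L := by linarith
  have hL2p : 0 < L2 := by linarith
  have hLk1 : 1 ≤ L ^ (k ^ 2) := Real.one_le_rpow (by linarith) (by positivity)
  have hinv : L2⁻¹ ≤ L⁻¹ := inv_anti₀ hLp hLq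
  have h2 : T * mom (2 * k) x T ≤ T * (L ^ (k ^ 2) * Real.exp (20 * k + 3 * L⁻¹)) := by
    have h3 : (T + |x|) * (L2 ^ (k ^ 2) * Real.exp (20 * k + L2⁻¹))
        ≤ T * L ^ (k ^ 2) * (Real.exp L⁻¹ * Real.exp (20 * k + L⁻¹)) := by
      calc (T + |x|) * (L2 ^ (k ^ 2) * Real.exp (20 * k + L2⁻¹))
          = ((T + |x|) * L2 ^ (k ^ 2)) * Real.exp (20 * k + L2⁻¹) := by ring
        _ ≤ (T * L ^ (k ^ 2) * Real.exp L⁻¹) * Real.exp (20 * k + L⁻¹) := by gcongr
        _ = _ := by ring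
    rw [← Real.exp_add] at h3
    have h4 : K ≤ T * L ^ (k ^ 2) * (Real.exp (L⁻¹ + (20 * k + L⁻¹)) * L⁻¹) := by
      have h5 : K ≤ T * (2 * L)⁻¹ := by
        rw [div_le_iff₀ hTp] at hKT
        linarith
      have h6 : (2 * L)⁻¹ ≤ L⁻¹ := inv_anti₀ hLp (by linarith)
      have h7 : 1 ≤ Real.exp (L⁻¹ + (20 * k + L⁻¹)) := Real.one_le_exp (by positivity)
      calc K ≤ T * (2 * L)⁻¹ := h5
        _ ≤ T * L⁻¹ := by gcongr
        _ = T * 1 * (1 * L⁻¹) := by ring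
        _ ≤ _ := by gcongr
    have h8 : 1 + L⁻¹ ≤ Real.exp L⁻¹ := by
      have := Real.add_one_le_exp L⁻¹
      linarith
    calc T * mom (2 * k) x T ≤ M0 k (T + |x|) + K := a2
      _ ≤ T * L ^ (k ^ 2) * Real.exp (L⁻¹ + (20 * k + L⁻¹))
          + T * L ^ (k ^ 2) * (Real.exp (L⁻¹ + (20 * k + L⁻¹)) * L⁻¹) := by linarith
      _ = T * L ^ (k ^ 2) * (Real.exp (L⁻¹ + (20 * k + L⁻¹)) * (1 + L⁻¹)) := by ring
      _ ≤ T * L ^ (k ^ 2) * (Real.exp (L⁻¹ + (20 * k + L⁻¹)) * Real.exp L⁻¹) := by gcongr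
      _ = T * (L ^ (k ^ 2) * Real.exp (20 * k + 3 * L⁻¹)) := by
          rw [← Real.exp_add, mul_assoc]
          congr 3
          ring
  exact le_of_mul_le_mul_left h2 hTp

/-- lower bound with a constant on every interval -/
lemma midX (hM : MidLower) : ∃ c1 : ℝ, 0 < c1 ∧ ∀ x : ℝ, ∃ T0 : ℝ, ∀ T : ℝ, T0 ≤ T →
    ∀ k : ℝ, 0 < k → k ≤ 1 → c1 * Real.log T ^ (k ^ 2) ≤ mom (2 * k) x T := by
  obtain ⟨c0, hc0, TM, hTM3, hM⟩ := hM
  refine ⟨c0 / 2, by positivity, ?_⟩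
  intro x
  obtain ⟨K, T1, hK0, hT13, hB⟩ := base x
  have hx := abs_nonneg x
  obtain ⟨T2, hT2⟩ := (Real.tendsto_log_atTop.eventually (eventually_ge_atTop (4 / c0))).exists_forall_of_atTop
  refine ⟨max (max T1 (2 * TM)) T2, ?_⟩
  intro T hT k hk hk1
  have hTT1 : T1 ≤ T := ((le_max_left _ _).trans (le_max_left _ _)).trans hT
  have hTTM : 2 * TM ≤ T := ((le_max_right _ _).trans (le_max_left _ _)).trans hT
  have hL5 := hT2 T ((le_max_right _ _).trans hT)
  obtain ⟨hT3, hL4, hKT, hTm, hLm, hLq, hk'⟩ := hB T hTT1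
  obtain ⟨a1, -, -, a4⟩ := hk' k hk hk1
  have h1 := hM (T - |x|) (by linarith) k hk hk1
  obtain ⟨L, hL⟩ : ∃ L, L = Real.log T := ⟨_, rfl⟩
  rw [← hL] at hL4 hKT hLm hLq a4 hL5 ⊢
  have hTp : 0 < T := by linarith
  have hLp : 0 < L := by linarith
  have hLk1 : 1 ≤ L ^ (k ^ 2) := Real.one_le_rpow (by linarith) (by positivity)
  have hLi : L⁻¹ ≤ c0 / 4 := by
    rw [inv_le_comm₀ hLp (by positivity), inv_div]
    exact hL5
  have hLi4 : L⁻¹ ≤ 1 / 4 := by
    rw [inv_le_comm₀ hLp (by norm_num)]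
    norm_num
    exact hL4
  have h2L : (2 * L)⁻¹ = L⁻¹ / 2 := by rw [mul_inv]; ring
  rw [h2L] at hKT a4
  have hK2 : K ≤ T * L ^ (k ^ 2) * (c0 / 8) := by
    rw [div_le_iff₀ hTp] at hKT
    calc K ≤ L⁻¹ / 2 * T := hKT
      _ ≤ c0 / 4 / 2 * T := by gcongr
      _ = T * 1 * (c0 / 8) := by ring
      _ ≤ _ := by gcongr
  have h2 : T * (c0 / 2 * L ^ (k ^ 2)) ≤ T * mom (2 * k) x T := by
    have h3 : c0 * (T * L ^ (k ^ 2) * (1 - L⁻¹ / 2)) ≤ M0 k (T - |x|) :=
      (mul_le_mul_of_nonneg_left a4 hc0.le).trans h1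
    have hP : 0 < T * L ^ (k ^ 2) := by positivity
    have h4 : c0 * (T * L ^ (k ^ 2)) * (7 / 8) ≤ c0 * (T * L ^ (k ^ 2) * (1 - L⁻¹ / 2)) := by
      calc c0 * (T * L ^ (k ^ 2)) * (7 / 8) ≤ c0 * (T * L ^ (k ^ 2)) * (1 - L⁻¹ / 2) := by
            gcongr
            linarith
        _ = _ := by ring
    have hcP : 0 < c0 * (T * L ^ (k ^ 2)) := mul_pos hc0 hP
    have e2 : T * L ^ (k ^ 2) * (c0 / 8) = c0 * (T * L ^ (k ^ 2)) / 8 := by ring
    have e3 : T * (c0 / 2 * L ^ (k ^ 2)) = c0 * (T * L ^ (k ^ 2)) / 2 := by ring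
    rw [e2] at hK2
    rw [e3]
    generalize c0 * (T * L ^ (k ^ 2) * (1 - L⁻¹ / 2)) = Z1 at h3 h4
    generalize c0 * (T * L ^ (k ^ 2)) = Z2 at h4 hK2 hcP
    linarith only [h3, h4, hK2, hcP, a1]
  exact le_of_mul_le_mul_left h2 hTp

/-- lower bound with rate on every interval -/
lemma smallX (hS : SmallLower) : ∃ C k1 : ℝ, 0 ≤ C ∧ 0 < k1 ∧ k1 ≤ 1 / 4 ∧ ∀ x : ℝ, ∃ T0 : ℝ,
    ∀ T : ℝ, T0 ≤ T → ∀ k : ℝ, 2 * Real.log T ^ (-(1 / 8) : ℝ) ≤ k → k ≤ k1 →
    Real.log T ^ (k ^ 2) * Real.exp (-(2 * (C * k + (Real.log T)⁻¹))) ≤ mom (2 * k) x T := by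
  obtain ⟨C, hC0, k1, hk1, TS, hTS3, hS⟩ := hS
  refine ⟨C, min k1 (1 / (4 * C + 4)), hC0, lt_min hk1 (by positivity), ?_, ?_⟩
  · refine (min_le_right _ _).trans ?_
    rw [div_le_div_iff₀ (by positivity) (by norm_num)]
    linarith
  intro x
  obtain ⟨K, T1, hK0, hT13, hB⟩ := base x
  have hx := abs_nonneg x
  refine ⟨max T1 (2 * TS), ?_⟩
  intro T hT k hkl hku
  obtain ⟨hT3, hL4, hKT, hTm, hLm, hLq, hk'⟩ := hB T ((le_max_left _ _).trans hT)
  have hTTS : 2 * TS ≤ T := (le_max_right _ _).trans hT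
  obtain ⟨L, hL⟩ : ∃ L, L = Real.log T := ⟨_, rfl⟩
  rw [← hL] at hL4 hKT hLm hLq hkl hk' ⊢
  have hTp : 0 < T := by linarith only [hT3]
  have hLp : 0 < L := by linarith only [hL4]
  have hkp : 0 < k := lt_of_lt_of_le (mul_pos two_pos (Real.rpow_pos_of_pos hLp _)) hkl
  have hC4 : 0 < 4 * C + 4 := by linarith only [hC0]
  have hkC : 0 ≤ k * C := mul_nonneg hkp.le hC0
  have hCk : C * k ≤ 1 / 4 := by
    have h1 : k ≤ 1 / (4 * C + 4) := hku.trans (min_le_right _ _)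
    rw [le_div_iff₀ hC4, mul_add] at h1
    linarith only [h1, hkp]
  have hk14 : k ≤ 1 / 4 := by
    have h1 : k ≤ 1 / (4 * C + 4) := hku.trans (min_le_right _ _)
    rw [le_div_iff₀ hC4, mul_add] at h1
    linarith only [h1, hkC]
  obtain ⟨a1, -, -, a4⟩ := hk' k hkp (by linarith)
  have hkm : Real.log (T - |x|) ^ (-(1 / 8) : ℝ) ≤ k := by
    refine le_trans ?_ hkl
    have h1 : Real.log (T - |x|) ^ (-(1 / 8) : ℝ) ≤ (L / 2) ^ (-(1 / 8) : ℝ) :=
      Real.rpow_le_rpow_of_nonpos (by positivity) hLm (by norm_num)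
    refine h1.trans ?_
    rw [Real.div_rpow hLp.le (by norm_num), div_eq_mul_inv, mul_comm]
    gcongr
    rw [← Real.rpow_neg (by norm_num)]
    calc (2 : ℝ) ^ (-(-(1 / 8) : ℝ)) ≤ 2 ^ (1 : ℝ) :=
          Real.rpow_le_rpow_of_exponent_le (by norm_num) (by norm_num)
      _ = 2 := Real.rpow_one _
  have h1 := hS (T - |x|) (by linarith) k hkm (hku.trans (min_le_left _ _))
  have hLk1 : 1 ≤ L ^ (k ^ 2) := Real.one_le_rpow (by linarith) (by positivity)
  have hLi4 : L⁻¹ ≤ 1 / 4 := by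
    rw [inv_le_comm₀ hLp (by norm_num)]
    norm_num
    exact hL4
  have hLi0 : 0 < L⁻¹ := by positivity
  have h2L : (2 * L)⁻¹ = L⁻¹ / 2 := by rw [mul_inv]; ring
  rw [h2L] at hKT a4
  have hP : 0 < T * L ^ (k ^ 2) := by positivity
  have hK2 : K ≤ T * L ^ (k ^ 2) * (L⁻¹ / 2) := by
    rw [div_le_iff₀ hTp] at hKT
    calc K ≤ L⁻¹ / 2 * T := hKT
      _ = T * 1 * (L⁻¹ / 2) := by ring
      _ ≤ _ := by gcongr
  have hexp : Real.exp (-(2 * (C * k + L⁻¹))) ≤ 1 - (C * k + L⁻¹) := by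
    set v := C * k + L⁻¹ with hv
    have hv0 : 0 ≤ v := add_nonneg (mul_nonneg hC0 hkp.le) hLi0.le
    have hv1 : v ≤ 1 / 2 := by linarith only [hCk, hLi4, hv]
    rw [Real.exp_neg]
    have h3 : 1 + 2 * v ≤ Real.exp (2 * v) := by
      have := Real.add_one_le_exp (2 * v)
      linarith
    calc (Real.exp (2 * v))⁻¹ ≤ (1 + 2 * v)⁻¹ := inv_anti₀ (by linarith only [hv0]) h3
      _ ≤ 1 - v := by
          rw [inv_le_iff_one_le_mul₀ (by linarith only [hv0])]
          have hv2 : 0 ≤ v * (1 - 2 * v) := mul_nonneg hv0 (by linarith only [hv1])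
          linarith only [hv2]
  have h2 : T * (L ^ (k ^ 2) * Real.exp (-(2 * (C * k + L⁻¹)))) ≤ T * mom (2 * k) x T := by
    have h3 : (1 - C * k) * (T * L ^ (k ^ 2) * (1 - L⁻¹ / 2)) ≤ M0 k (T - |x|) :=
      (mul_le_mul_of_nonneg_left a4 (by linarith)).trans h1
    calc T * (L ^ (k ^ 2) * Real.exp (-(2 * (C * k + L⁻¹))))
        ≤ T * (L ^ (k ^ 2) * (1 - (C * k + L⁻¹))) := by gcongr
      _ = T * L ^ (k ^ 2) * ((1 - C * k - L⁻¹ / 2) - L⁻¹ / 2) := by ring
      _ ≤ T * L ^ (k ^ 2) * ((1 - C * k) * (1 - L⁻¹ / 2) - L⁻¹ / 2) := by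
          gcongr
          have : 0 ≤ C * k * (L⁻¹ / 2) := mul_nonneg (mul_nonneg hC0 hkp.le) (half_pos hLi0).le
          linarith only [this]
      _ = (1 - C * k) * (T * L ^ (k ^ 2) * (1 - L⁻¹ / 2)) - T * L ^ (k ^ 2) * (L⁻¹ / 2) := by ring
      _ ≤ M0 k (T - |x|) - K := sub_le_sub h3 hK2
      _ ≤ _ := a1
  exact le_of_mul_le_mul_left h2 hTp

/-- lower bound with rate for the smallest exponents, by convexity -/
lemma tinyX (hU : UpperAll) (hM : MidLower) (hS : SmallLower) : ∃ C : ℝ, 0 ≤ C ∧ ∀ x : ℝ, ∃ T0 : ℝ,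
    ∀ T : ℝ, T0 ≤ T → ∀ k : ℝ, 0 < k → k < 2 * Real.log T ^ (-(1 / 8) : ℝ) →
    -(C * Real.log T ^ (-(1 / 8) : ℝ)) ≤ Real.log (mom (2 * k) x T / Real.log T ^ (k ^ 2)) := by
  obtain ⟨C, k1, hC0, hk1, hk14, hSX⟩ := smallX hS
  obtain ⟨c1, hc1, hMX⟩ := midX hM
  refine ⟨4 * (2 * C + 1) + 80 + 3 + 128 + 32, by positivity, ?_⟩
  intro x
  obtain ⟨TS, hSX⟩ := hSX x
  obtain ⟨TM, hMX⟩ := hMX x
  obtain ⟨TU, hUX⟩ := upperX hU (1 / 2) (by norm_num) x
  have hev : ∀ᶠ T : ℝ in atTop, 2 * Real.log T ^ (-(1 / 8) : ℝ) < k1 := by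
    have h1 : Tendsto (fun T : ℝ => 2 * Real.log T ^ (-(1 / 8) : ℝ)) atTop (𝓝 (2 * 0)) :=
      ((tendsto_rpow_neg_atTop (by norm_num : (0 : ℝ) < 1 / 8)).comp Real.tendsto_log_atTop).const_mul 2
    rw [mul_zero] at h1
    exact h1.eventually (gt_mem_nhds hk1)
  obtain ⟨T1, hT1⟩ := (hev.and (Real.tendsto_log_atTop.eventually (eventually_ge_atTop 1))).exists_forall_of_atTop
  refine ⟨max (max TS TM) (max TU T1), ?_⟩
  intro T hT k hk hku
  have hTS : TS ≤ T := ((le_max_left _ _).trans (le_max_left _ _)).trans hT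
  have hTM : TM ≤ T := ((le_max_right _ _).trans (le_max_left _ _)).trans hT
  have hTU : TU ≤ T := ((le_max_left _ _).trans (le_max_right _ _)).trans hT
  have hTT1 : T1 ≤ T := ((le_max_right _ _).trans (le_max_right _ _)).trans hT
  obtain ⟨hq, hL1⟩ := hT1 T hTT1
  obtain ⟨L, hL⟩ : ∃ L, L = Real.log T := ⟨_, rfl⟩
  have hSX := hSX T hTS
  have hMX := hMX T hTM
  have hUX := hUX T hTU
  rw [← hL] at hq hL1 hku hSX hMX hUX ⊢
  have hLp : 0 < L := by linarith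
  obtain ⟨q, hqd⟩ : ∃ q, q = L ^ (-(1 / 8) : ℝ) := ⟨_, rfl⟩
  rw [← hqd] at hq hku hSX ⊢
  have hq0 : 0 < q := by rw [hqd]; positivity
  have hq1 : q ≤ 1 := by rw [hqd]; exact Real.rpow_le_one_of_one_le_of_nonpos hL1 (by norm_num)
  have hLq : L⁻¹ ≤ q := by
    rw [hqd, ← Real.rpow_neg_one]
    exact Real.rpow_le_rpow_of_exponent_le hL1 (by norm_num)
  have hlogL : 0 ≤ Real.log L := Real.log_nonneg hL1
  have hqlog : q ^ 2 * Real.log L ≤ 8 * q := by
    have h1 : Real.log L ≤ L ^ (1 / 8 : ℝ) / (1 / 8) := Real.log_le_rpow_div hLp.le (by norm_num)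
    have h2 : q * L ^ (1 / 8 : ℝ) = 1 := by
      rw [hqd, ← Real.rpow_add hLp]
      norm_num
    calc q ^ 2 * Real.log L ≤ q ^ 2 * (L ^ (1 / 8 : ℝ) / (1 / 8)) := by gcongr
      _ = 8 * q * (q * L ^ (1 / 8 : ℝ)) := by ring
      _ = 8 * q := by rw [h2, mul_one]
  -- the three moments
  have hLk : 0 < L ^ (k ^ 2) := by positivity
  have hma : 0 < mom (2 * k) x T := lt_of_lt_of_le (by positivity) (hMX k hk (by linarith))
  have hmb : 0 < mom (2 * (2 * q)) x T :=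
    lt_of_lt_of_le (by positivity) (hMX (2 * q) (by positivity) (by linarith))
  have hmc : 0 < mom (2 * (4 * q)) x T :=
    lt_of_lt_of_le (by positivity) (hMX (4 * q) (by positivity) (by linarith))
  -- lower bound at `2 q`
  have hb1 : -(2 * (C * (2 * q) + L⁻¹)) ≤ Real.log (mom (2 * (2 * q)) x T) := by
    have h1 := hSX (2 * q) le_rfl hq.le
    have h2 := Real.log_le_log (by positivity) h1
    rw [Real.log_mul (by positivity) (Real.exp_pos _).ne', Real.log_exp, Real.log_rpow hLp] at h2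
    have : 0 ≤ (2 * q) ^ 2 * Real.log L := by positivity
    linarith
  -- upper bound at `4 q`
  have hc2 : Real.log (mom (2 * (4 * q)) x T) ≤ (4 * q) ^ 2 * Real.log L + (20 * (4 * q) + 3 * L⁻¹) := by
    have h1 := hUX (4 * q) (by positivity) (by linarith)
    have h2 := Real.log_le_log hmc h1
    rw [Real.log_mul (by positivity) (Real.exp_pos _).ne', Real.log_exp, Real.log_rpow hLp] at h2
    exact h2
  -- the weights
  have h4k : 0 < 4 * q - k := by linarith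
  set θ := 2 * q / (4 * q - k) with hθ
  have hθ0 : 0 < θ := by positivity
  have hθ1 : θ ≤ 1 := by rw [hθ, div_le_one h4k]; linarith
  have hθ2 : 1 / 2 ≤ θ := by rw [hθ, le_div_iff₀ h4k]; linarith
  have hθi : 1 / θ ≤ 2 := by
    rw [div_le_iff₀ hθ0]
    linarith
  have hθi0 : 0 < 1 / θ := by positivity
  have hbc : 2 * (2 * q) = θ * (2 * k) + (1 - θ) * (2 * (4 * q)) := by
    have h5 : θ * (4 * q - k) = 2 * q := by rw [hθ]; exact div_mul_cancel₀ _ h4k.ne'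
    linear_combination 2 * h5
  have hly := lyap (x := x) (T := T) (a := 2 * k) (b := 2 * (2 * q)) (c := 2 * (4 * q)) (θ := θ)
    (by positivity) (by positivity) (by positivity) hθ0 hθ1 hbc hmb hmc
  have hlog := Real.log_le_log (Real.exp_pos _) hly
  rw [Real.log_exp] at hlog
  set u := (4 * q) ^ 2 * Real.log L + (20 * (4 * q) + 3 * L⁻¹) with hu
  have hu0 : 0 ≤ u := by positivity
  have h6 : (1 - θ) * Real.log (mom (2 * (4 * q)) x T) ≤ u / 2 := by
    calc (1 - θ) * Real.log (mom (2 * (4 * q)) x T) ≤ (1 - θ) * u :=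
          mul_le_mul_of_nonneg_left hc2 (by linarith)
      _ ≤ (1 / 2) * u := by gcongr; linarith
      _ = u / 2 := by ring
  have h7 : -(2 * (2 * (C * (2 * q) + L⁻¹) + u / 2)) ≤ Real.log (mom (2 * k) x T) := by
    refine le_trans ?_ hlog
    have h8 : 0 ≤ 2 * (C * (2 * q) + L⁻¹) + u / 2 := by positivity
    have h9 : -(2 * (C * (2 * q) + L⁻¹) + u / 2)
        ≤ Real.log (mom (2 * (2 * q)) x T) - (1 - θ) * Real.log (mom (2 * (4 * q)) x T) := by linarith
    calc -(2 * (2 * (C * (2 * q) + L⁻¹) + u / 2)) ≤ -(1 / θ * (2 * (C * (2 * q) + L⁻¹) + u / 2)) := by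
          have := mul_le_mul_of_nonneg_right hθi h8
          linarith
      _ = 1 / θ * -(2 * (C * (2 * q) + L⁻¹) + u / 2) := by ring
      _ ≤ _ := mul_le_mul_of_nonneg_left h9 hθi0.le
  rw [Real.log_div hma.ne' hLk.ne', Real.log_rpow hLp]
  have h10 : k ^ 2 * Real.log L ≤ (2 * q) ^ 2 * Real.log L := by gcongr
  have h11 : u = 16 * (q ^ 2 * Real.log L) + 80 * q + 3 * L⁻¹ := by rw [hu]; ring
  have h12 : (2 * q) ^ 2 * Real.log L = 4 * (q ^ 2 * Real.log L) := by ring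
  linarith

end FN

/-- the final statement from its modules -/
theorem upToTwo (hU : UpperAll) (hM : MidLower) (hS : SmallLower) (hN : NearTwo) : UpToTwo := by
  obtain ⟨CN, cN, η0, hCN, hcN, hη0, hN⟩ := hN
  obtain ⟨CS, k1, hCS, hk1, hk14, hSX⟩ := FN.smallX hS
  obtain ⟨c1, hc1, hMX⟩ := FN.midX hM
  obtain ⟨CT, hCT, hTX⟩ := FN.tinyX hU hM hS
  obtain ⟨η, hηd⟩ : ∃ η, η = min η0 1 := ⟨_, rfl⟩
  have hη : 0 < η := by rw [hηd]; exact lt_min hη0 one_pos
  have hηη0 : η ≤ η0 := by rw [hηd]; exact min_le_left _ _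
  have hη1 : η ≤ 1 := by rw [hηd]; exact min_le_right _ _
  obtain ⟨c, hcd⟩ : ∃ c, c = min cN (1 / 8) := ⟨_, rfl⟩
  have hc : 0 < c := by rw [hcd]; exact lt_min hcN (by norm_num)
  have hccN : c ≤ cN := by rw [hcd]; exact min_le_left _ _
  have hc8 : c ≤ 1 / 8 := by rw [hcd]; exact min_le_right _ _
  -- the constant: upper part, middle part, small part, tiny part, near part
  obtain ⟨B, hB⟩ : ∃ B, B = |Real.log c1| := ⟨_, rfl⟩
  have hB0 : 0 ≤ B := by rw [hB]; exact abs_nonneg _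
  obtain ⟨C, hC⟩ : ∃ C, C = CN + (10 / η + 3) + B / (2 * k1 * η) + (CS / η + 2) + CT := ⟨_, rfl⟩
  have q1 : 0 ≤ 10 / η := by positivity
  have q2 : 0 ≤ B / (2 * k1 * η) := by positivity
  have q3 : 0 ≤ CS / η := by positivity
  have hC1 : CN ≤ C := by
    rw [hC]
    linarith only [q1, q2, q3, hCT]
  have hC2 : 10 / η ≤ C ∧ 3 ≤ C ∧ B / (2 * k1 * η) ≤ C ∧ CS / η ≤ C ∧ 2 ≤ C ∧ CT ≤ C := by
    rw [hC]
    refine ⟨?_, ?_, ?_, ?_, ?_, ?_⟩ <;> linarith only [q1, q2, q3, hCT, hCN]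
  obtain ⟨hCa, hCb, hCc, hCd, hCe, hCf⟩ := hC2
  have hC0 : 0 ≤ C := hCN.trans hC1
  refine ⟨C, c, η, hC0, hc, hη, ?_⟩
  intro x
  obtain ⟨TN, hN⟩ := hN x
  obtain ⟨TS, hSX⟩ := hSX x
  obtain ⟨TM, hMX⟩ := hMX x
  obtain ⟨TT, hTX⟩ := hTX x
  obtain ⟨TU, hUX⟩ := FN.upperX hU (η / 2) (by positivity) x
  obtain ⟨T1, hT1⟩ := (Real.tendsto_log_atTop.eventually (eventually_ge_atTop 1)).exists_forall_of_atTop
  refine ⟨max (max (max TN TS) (max TM TT)) (max TU T1), ?_⟩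
  intro β T hβ hβ2 hT
  have h01 := (le_max_left (max (max TN TS) (max TM TT)) (max TU T1)).trans hT
  have h02 := (le_max_right (max (max TN TS) (max TM TT)) (max TU T1)).trans hT
  have hTN : TN ≤ T := ((le_max_left _ _).trans (le_max_left _ _)).trans h01
  have hTS : TS ≤ T := ((le_max_right _ _).trans (le_max_left _ _)).trans h01
  have hTM : TM ≤ T := ((le_max_left _ _).trans (le_max_right _ _)).trans h01
  have hTT : TT ≤ T := ((le_max_right _ _).trans (le_max_right _ _)).trans h01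
  have hTU : TU ≤ T := (le_max_left _ _).trans h02
  have hL1 : 1 ≤ Real.log T := hT1 T ((le_max_right _ _).trans h02)
  have hN := hN β T
  have hSX := hSX T hTS
  have hMX := hMX T hTM
  have hTX := hTX T hTT
  have hUX := hUX T hTU
  obtain ⟨L, hL⟩ : ∃ L, L = Real.log T := ⟨_, rfl⟩
  rw [← hL] at hL1 hN hSX hMX hTX hUX ⊢
  have hLp : 0 < L := lt_of_lt_of_le one_pos hL1
  have hLc0 : 0 < L ^ (-c) := Real.rpow_pos_of_pos hLp _
  rcases le_or_gt |β - 2| η with hnear | hfar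
  · -- near two
    have h1 := hN (hnear.trans hηη0) hTN
    have hβ1 : 1 ≤ β := by
      have := (abs_le.mp hnear).1
      linarith only [this, hη1]
    have h2 : L ^ (-cN) ≤ L ^ (-c) := Real.rpow_le_rpow_of_exponent_le hL1 (neg_le_neg hccN)
    have h3 : |β - 2| ≤ β * |β - 2| := le_mul_of_one_le_left (abs_nonneg _) hβ1
    calc |Real.log (mom β x T / L ^ (β ^ 2 / 4))| ≤ CN * (|β - 2| + L ^ (-cN)) := h1
      _ ≤ CN * (β * |β - 2| + L ^ (-c)) := mul_le_mul_of_nonneg_left (add_le_add h3 h2) hCN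
      _ ≤ C * (β * |β - 2| + L ^ (-c)) := mul_le_mul_of_nonneg_right hC1
            (add_nonneg ((abs_nonneg _).trans h3) hLc0.le)
  · -- away from two
    have hβη : β < 2 - η := by
      by_contra hcon
      push Not at hcon
      have : |β - 2| ≤ η := abs_le.mpr ⟨by linarith only [hcon], by linarith only [hβ2, hη]⟩
      exact absurd hfar (not_lt.mpr this)
    obtain ⟨k, hk⟩ : ∃ k, k = β / 2 := ⟨_, rfl⟩
    have hβk : β = 2 * k := by rw [hk]; ring
    have hk0 : 0 < k := by rw [hk]; exact half_pos hβ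
    have hkη : k ≤ 1 - η / 2 := by linarith only [hk, hβη]
    have he : β ^ 2 / 4 = k ^ 2 := by rw [hβk]; ring
    have habs : |β - 2| = 2 - β := by rw [abs_of_neg (by linarith only [hβη, hη])]; ring
    rw [he, habs]
    have hmain : η * (2 * k) ≤ β * (2 - β) := by
      rw [← hβk, mul_comm β]
      exact mul_le_mul_of_nonneg_right (by linarith only [hβη]) hβ.le
    have hβ2' : 0 ≤ β * (2 - β) := mul_nonneg hβ.le (by linarith only [hβη, hη])
    rw [hβk] at hmain hβ2' ⊢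
    have hLk : 0 < L ^ (k ^ 2) := Real.rpow_pos_of_pos hLp _
    have hmp : 0 < mom (2 * k) x T :=
      lt_of_lt_of_le (mul_pos hc1 hLk) (hMX k hk0 (by linarith only [hkη, hη]))
    have hLi8 : L⁻¹ ≤ L ^ (-c) := by
      rw [← Real.rpow_neg_one]
      exact Real.rpow_le_rpow_of_exponent_le hL1 (by linarith only [hc8])
    have hL8 : L ^ (-(1 / 8) : ℝ) ≤ L ^ (-c) :=
      Real.rpow_le_rpow_of_exponent_le hL1 (by linarith only [hc8])
    have hLi0 : 0 < L⁻¹ := inv_pos.mpr hLp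
    obtain ⟨g, hg⟩ : ∃ g, g = 2 * k * (2 - 2 * k) := ⟨_, rfl⟩
    rw [← hg] at hmain hβ2' ⊢
    have hkg : k ≤ g / (2 * η) := by
      rw [le_div_iff₀ (mul_pos two_pos hη)]
      linarith only [hmain]
    rw [abs_le]
    constructor
    · -- lower bounds
      rcases lt_or_ge k (2 * L ^ (-(1 / 8) : ℝ)) with h1 | h1
      · have h2 := hTX k hk0 h1
        have h3 : CT * L ^ (-(1 / 8) : ℝ) ≤ C * (g + L ^ (-c)) := by
          calc CT * L ^ (-(1 / 8) : ℝ) ≤ C * L ^ (-c) :=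
                mul_le_mul hCf hL8 (Real.rpow_pos_of_pos hLp _).le hC0
            _ ≤ C * (g + L ^ (-c)) := mul_le_mul_of_nonneg_left (by linarith only [hβ2']) hC0
        linarith only [h2, h3]
      · rcases le_or_gt k k1 with h2 | h2
        · have h3 := hSX k h1 h2
          have h4 : Real.exp (-(2 * (CS * k + L⁻¹))) ≤ mom (2 * k) x T / L ^ (k ^ 2) := by
            rw [le_div_iff₀ hLk, mul_comm]
            exact h3
          have h5 := Real.log_le_log (Real.exp_pos _) h4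
          rw [Real.log_exp] at h5
          have h6 : 2 * (CS * k + L⁻¹) ≤ C * (g + L ^ (-c)) := by
            calc 2 * (CS * k + L⁻¹) ≤ 2 * (CS * (g / (2 * η)) + L ^ (-c)) :=
                  mul_le_mul_of_nonneg_left
                    (add_le_add (mul_le_mul_of_nonneg_left hkg hCS) hLi8) two_pos.le
              _ = CS / η * g + 2 * L ^ (-c) := by
                  clear * -
                  field_simp
              _ ≤ C * g + C * L ^ (-c) := add_le_add (mul_le_mul_of_nonneg_right hCd hβ2')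
                    (mul_le_mul_of_nonneg_right hCe hLc0.le)
              _ = _ := by ring
          linarith only [h5, h6]
        · have h3 := hMX k hk0 (by linarith only [hkη, hη])
          have h4 : c1 ≤ mom (2 * k) x T / L ^ (k ^ 2) := by
            rw [le_div_iff₀ hLk]
            exact h3
          have h5 := Real.log_le_log hc1 h4
          have h6 : -B ≤ Real.log c1 := by rw [hB]; exact neg_abs_le _
          have h7 : B ≤ C * (g + L ^ (-c)) := by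
            have h8 : 2 * k1 * η ≤ g := by
              have := mul_le_mul_of_nonneg_right h2.le hη.le
              linarith only [this, hmain]
            calc B = B / (2 * k1 * η) * (2 * k1 * η) :=
                  (div_mul_cancel₀ _ (mul_pos (mul_pos two_pos hk1) hη).ne').symm
              _ ≤ C * g := mul_le_mul hCc h8 (mul_pos (mul_pos two_pos hk1) hη).le hC0
              _ ≤ C * (g + L ^ (-c)) := mul_le_mul_of_nonneg_left (by linarith only [hLc0]) hC0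
          linarith only [h5, h6, h7]
    · -- upper bound
      have h1 := hUX k hk0 hkη
      have h2 : mom (2 * k) x T / L ^ (k ^ 2) ≤ Real.exp (20 * k + 3 * L⁻¹) := by
        rw [div_le_iff₀ hLk]
        exact h1.trans (le_of_eq (mul_comm _ _))
      have h3 := Real.log_le_log (div_pos hmp hLk) h2
      rw [Real.log_exp] at h3
      calc Real.log (mom (2 * k) x T / L ^ (k ^ 2)) ≤ 20 * k + 3 * L⁻¹ := h3
        _ ≤ 20 * (g / (2 * η)) + 3 * L ^ (-c) := by linarith only [hkg, hLi8]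
        _ = 10 / η * g + 3 * L ^ (-c) := by
            clear * -
            congr 1
            field_simp
            ring
        _ ≤ C * g + C * L ^ (-c) :=
            add_le_add (mul_le_mul_of_nonneg_right hCa hβ2') (mul_le_mul_of_nonneg_right hCb hLc0.le)
        _ = _ := by ring

end Pool.Agent.Lib.U2
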