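import Mathlib
import Pool.Agent.Lib.MP_f9aece_nt_u2.Final

/-!
The final statement in the exponential form.
-/

set_option autoImplicit false

namespace Pool.Agent.Lib.U2

open MeasureTheory Set Filter Topology Complex
open Pool.Agent.Lib.MP_f9aece_nt Pool.Agent.Lib.MP_f9aece_nt_h97

namespace FN

lemma mom_pos {a β x T : ℝ} (ha : 0 < a) (hβ : 0 < β) (h : 0 < mom a x T) : 0 < mom β x T := by
  have hcz : Continuous fun u : ℝ => ‖riemannZeta (1 / 2 + I * x + I * u * T)‖ := by
    have h := cont_z.comp (show Continuous fun u : ℝ => x + u * T by fun_prop)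
    refine Continuous.congr h.norm fun u => ?_
    simp only [Function.comp_apply]
    congr 2
    push_cast
    ring
  have hex : ∃ u ∈ Icc (0 : ℝ) 1, 0 < ‖riemannZeta (1 / 2 + I * x + I * u * T)‖ := by
    by_contra hcon
    push Not at hcon
    have h0 : mom a x T = 0 := by
      unfold mom
      rw [intervalIntegral.integral_congr (g := fun _ => (0 : ℝ))]
      · simp
      · intro u hu
        rw [uIcc_of_le zero_le_one] at hu
        have h1 : ‖riemannZeta (1 / 2 + I * x + I * u * T)‖ = 0 :=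
          le_antisymm (hcon u hu) (norm_nonneg _)
        simp only
        rw [h1, Real.zero_rpow ha.ne']
    linarith
  obtain ⟨u, hu, hu0⟩ := hex
  unfold mom
  refine intervalIntegral.integral_pos one_pos
    ((hcz.rpow_const fun _ => Or.inr hβ.le).continuousOn) (fun v _ => by positivity)
    ⟨u, hu, Real.rpow_pos_of_pos hu0 _⟩

end FN

/-- the final statement, exponential form -/
theorem upToTwo_exp (hM : MidLower) (h : UpToTwo) :
    ∃ C c η : ℝ, 0 < C ∧ 0 < c ∧ 0 < η ∧ ∀ x : ℝ, ∃ T₀ : ℝ, ∀ β T : ℝ, 0 < β → β ≤ 2 + η →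
      T₀ ≤ T →
      Real.exp (-(C * (β * |β - 2| + Real.log T ^ (-c)))) * Real.log T ^ (β ^ 2 / 4)
        ≤ mom β x T ∧
      mom β x T
        ≤ Real.exp (C * (β * |β - 2| + Real.log T ^ (-c))) * Real.log T ^ (β ^ 2 / 4) := by
  obtain ⟨C, c, η, hC, hc, hη, h⟩ := h
  obtain ⟨c1, hc1, hM⟩ := FN.midX hM
  refine ⟨C + 1, c, η, by linarith, hc, hη, ?_⟩
  intro x
  obtain ⟨T1, h⟩ := h x
  obtain ⟨T2, hM⟩ := hM x
  refine ⟨max (max T1 T2) (Real.exp 1), ?_⟩
  intro β T hβ hβ2 hT
  have hT1 : T1 ≤ T := ((le_max_left _ _).trans (le_max_left _ _)).trans hT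
  have hT2 : T2 ≤ T := ((le_max_right _ _).trans (le_max_left _ _)).trans hT
  have hTe : Real.exp 1 ≤ T := (le_max_right _ _).trans hT
  have hTp : 0 < T := (Real.exp_pos 1).trans_le hTe
  have hlog : 1 ≤ Real.log T := by rwa [Real.le_log_iff_exp_le hTp]
  have hL : 0 < Real.log T ^ (β ^ 2 / 4) := by positivity
  have hm1 : 0 < mom (2 * (1 / 2)) x T :=
    lt_of_lt_of_le (by positivity) (hM T hT2 (1 / 2) (by norm_num) (by norm_num))
  have hm : 0 < mom β x T := FN.mom_pos (by norm_num) hβ hm1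
  obtain ⟨g, hg⟩ : ∃ g, g = β * |β - 2| + Real.log T ^ (-c) := ⟨_, rfl⟩
  have hg0 : 0 ≤ g := by rw [hg]; positivity
  have h1 := abs_le.mp (h β T hβ hβ2 hT1)
  rw [← hg] at h1 ⊢
  have hq : 0 < mom β x T / Real.log T ^ (β ^ 2 / 4) := by positivity
  constructor
  · rw [← le_div_iff₀ hL, ← Real.le_log_iff_exp_le hq]
    linarith [h1.1]
  · rw [← div_le_iff₀ hL, ← Real.log_le_iff_le_exp hq]
    linarith [h1.2]

end Pool.Agent.Lib.U2
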