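import Mathlib
import Pool.Agent.Lib.MP_f9aece_nt_u2.Stmts
import Pool.Agent.Lib.MP_f9aece_nt_h5.Tilt
import Pool.Agent.Lib.MP_f9aece_nt_h97.OffG
import Pool.Agent.Lib.MP_f9aece_nt_h22.Sums

/-!
Integrated tilting inequality that keeps the small prime sum.
-/

set_option autoImplicit false

namespace Pool.Agent.Lib.U2.H29

open MeasureTheory Set Filter Topology Complex
open Pool.Agent.Lib.MP_f9aece_nt Pool.Agent.Lib.MP_f9aece_nt_h97 Pool.Agent.Lib.MP_f9aece_nt_h5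

lemma sqrt_two_bd : (Real.sqrt 2)⁻¹ ≤ (0.7072 : ℝ) := by
  have h3 : (1.4141 : ℝ) ≤ Real.sqrt 2 := by
    apply Real.le_sqrt_of_sq_le
    norm_num
  calc (Real.sqrt 2)⁻¹ ≤ (1.4141 : ℝ)⁻¹ := inv_anti₀ (by norm_num) h3
    _ ≤ 0.7072 := by norm_num

/-- Taylor bound for the logarithm of one factor -/
lemma norm_one_sub_le {w : ℂ} (hw : ‖w‖ ≤ 0.7072) :
    ‖1 - w‖ ≤ Real.exp (-(w + (1 / 2) * w ^ 2).re + 1.15 * ‖w‖ ^ 3) := by
  have hw1 : ‖-w‖ < 1 := by rw [norm_neg]; linarith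
  have h := norm_log_sub_logTaylor_le 2 hw1
  have e : logTaylor (2 + 1) (-w) = -w - (1 / 2) * w ^ 2 := by
    simp only [logTaylor_succ, logTaylor_zero, Pi.add_apply]
    push_cast
    ring
  rw [e, norm_neg] at h
  have hne : (1 + -w) ≠ 0 := by
    intro h0
    have : w = 1 := by linear_combination -h0
    rw [this, norm_one] at hw
    norm_num at hw
  have h1 : (log (1 + -w)).re ≤ (-w - (1 / 2) * w ^ 2).re + 1.15 * ‖w‖ ^ 3 := by
    have h2 : (log (1 + -w) - (-w - (1 / 2) * w ^ 2)).re ≤ 1.15 * ‖w‖ ^ 3 := by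
      refine (Complex.re_le_norm _).trans (h.trans ?_)
      have h3 : (1 - ‖w‖)⁻¹ ≤ 3.45 := by
        rw [inv_le_comm₀ (by linarith) (by norm_num)]
        norm_num
        linarith
      have h4 : 0 ≤ ‖w‖ ^ 3 := by positivity
      have h5 : ‖w‖ ^ (2 + 1) * (1 - ‖w‖)⁻¹ / ((2 : ℕ) + 1) ≤ ‖w‖ ^ 3 * 3.45 / 3 := by
        have h6 : ‖w‖ ^ (2 + 1) * (1 - ‖w‖)⁻¹ ≤ ‖w‖ ^ 3 * 3.45 :=
          mul_le_mul_of_nonneg_left h3 h4
        have e2 : (((2 : ℕ) : ℝ) + 1) = 3 := by norm_num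
        rw [e2]
        linarith
      refine h5.trans (le_of_eq ?_)
      ring
    rw [Complex.sub_re] at h2
    linarith
  have h7 : ‖1 - w‖ = Real.exp (log (1 + -w)).re := by
    rw [Complex.log_re, Real.exp_log (norm_pos_iff.mpr hne)]
    rw [← sub_eq_add_neg]
  rw [h7]
  apply Real.exp_le_exp.mpr
  refine h1.trans (le_of_eq ?_)
  have e3 : (-w - (1 / 2) * w ^ 2) = -(w + (1 / 2) * w ^ 2) := by ring
  rw [e3, Complex.neg_re]

lemma norm_one_sub_ge {w : ℂ} (hw : ‖w‖ ≤ 0.7072) :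
    Real.exp (-(3.5 * ‖w‖)) ≤ ‖1 - w‖ := by
  have h1 : 1 - ‖w‖ ≤ ‖1 - w‖ := by
    have := norm_sub_norm_le (1 : ℂ) w
    rwa [norm_one] at this
  have h0 : 0 < 1 - ‖w‖ := by linarith
  refine le_trans ?_ h1
  have h2 := Real.one_sub_inv_le_log_of_pos h0
  have h3 : -(3.5 * ‖w‖) ≤ 1 - (1 - ‖w‖)⁻¹ := by
    have e : 1 - (1 - ‖w‖)⁻¹ = -(‖w‖ / (1 - ‖w‖)) := by
      field_simp
      ring
    rw [e]
    apply neg_le_neg
    rw [div_le_iff₀ h0]
    have := norm_nonneg w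
    nlinarith
  calc Real.exp (-(3.5 * ‖w‖)) ≤ Real.exp (Real.log (1 - ‖w‖)) := Real.exp_le_exp.mpr (h3.trans h2)
    _ = _ := Real.exp_log h0

lemma mem_Psm {p0 p : ℕ} (hp : p ∈ Psm p0) : p.Prime ∧ p ∈ Finset.Icc 1 p0 := by
  obtain ⟨h1, h2⟩ := Finset.mem_filter.mp hp
  refine ⟨h2, ?_⟩
  rw [Finset.mem_Ioc] at h1
  exact Finset.mem_Icc.mpr ⟨h1.1, h1.2⟩

lemma norm_w_le {p : ℕ} (hp : p.Prime) {σ : ℝ} (hσ : 1 / 2 ≤ σ) (t : ℝ) :
    ‖(p : ℂ) ^ (-(σ + I * t : ℂ))‖ ≤ (Real.sqrt p)⁻¹ := by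
  have hp1 : (1 : ℝ) ≤ p := by exact_mod_cast hp.one_lt.le
  rw [Complex.norm_natCast_cpow_of_pos hp.pos]
  have e2 : (-(σ + I * t : ℂ)).re = -σ := by simp
  rw [e2]
  calc (p : ℝ) ^ (-σ) ≤ (p : ℝ) ^ (-(1 / 2) : ℝ) :=
        Real.rpow_le_rpow_of_exponent_le hp1 (by linarith)
    _ = (Real.sqrt p)⁻¹ := by
        rw [Real.rpow_neg (by linarith), Real.sqrt_eq_rpow]

lemma norm_w_le' {p : ℕ} (hp : p.Prime) {σ : ℝ} (hσ : 1 / 2 ≤ σ) (t : ℝ) :
    ‖(p : ℂ) ^ (-(σ + I * t : ℂ))‖ ≤ 0.7072 := by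
  refine (norm_w_le hp hσ t).trans (le_trans ?_ sqrt_two_bd)
  have h2 : (2 : ℝ) ≤ p := by exact_mod_cast hp.two_le
  apply inv_anti₀ (by positivity)
  exact Real.sqrt_le_sqrt h2

lemma norm_Dsm_eq (p0 : ℕ) (s : ℂ) :
    ‖evs s (Dsm p0)‖ = ∏ p ∈ Psm p0, ‖1 - (p : ℂ) ^ (-s)‖ := by
  rw [Dsm, evs_prod, norm_prod]
  refine Finset.prod_congr rfl fun p hp => ?_
  have e1 : evs s (1 - MonoidAlgebra.single p 1) = 1 - (p : ℂ) ^ (-s) := by
    rw [← evS_apply, map_sub, map_one, evS_single]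
    simp
  rw [e1]

lemma norm_Dsm_le_exp (p0 : ℕ) {σ : ℝ} (hσ : 1 / 2 ≤ σ) (t : ℝ) :
    ‖evs (σ + I * t) (Dsm p0)‖ ≤ Real.exp (-(R0 p0 (σ + I * t)) + 4) := by
  rw [norm_Dsm_eq]
  have h1 : ∏ p ∈ Psm p0, ‖1 - (p : ℂ) ^ (-(σ + I * t : ℂ))‖
      ≤ ∏ p ∈ Psm p0, Real.exp (-((p : ℂ) ^ (-(σ + I * t : ℂ))
        + (1 / 2) * ((p : ℂ) ^ (-(σ + I * t : ℂ))) ^ 2).re + 1.15 * ((p : ℝ) * Real.sqrt p)⁻¹) := by
    refine Finset.prod_le_prod (fun _ _ => norm_nonneg _) fun p hp => ?_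
    obtain ⟨hpp, -⟩ := mem_Psm hp
    refine (norm_one_sub_le (norm_w_le' hpp hσ t)).trans ?_
    apply Real.exp_le_exp.mpr
    have hp0 : (0 : ℝ) ≤ p := Nat.cast_nonneg p
    have h2 : ‖(p : ℂ) ^ (-(σ + I * t : ℂ))‖ ^ 3 ≤ ((p : ℝ) * Real.sqrt p)⁻¹ := by
      calc ‖(p : ℂ) ^ (-(σ + I * t : ℂ))‖ ^ 3 ≤ ((Real.sqrt p)⁻¹) ^ 3 := by
            gcongr
            exact norm_w_le hpp hσ t
        _ = _ := by
            rw [inv_pow]
            congr 1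
            have := Real.sq_sqrt hp0
            calc Real.sqrt p ^ 3 = Real.sqrt p ^ 2 * Real.sqrt p := by ring
              _ = _ := by rw [this]
    linarith
  refine h1.trans ?_
  rw [← Real.exp_sum]
  apply Real.exp_le_exp.mpr
  rw [Finset.sum_add_distrib, ← Finset.mul_sum]
  have h3 : ∑ p ∈ Psm p0, ((p : ℝ) * Real.sqrt p)⁻¹ ≤ 3 := by
    refine le_trans ?_ (MP_f9aece_nt_h22.sum_three_half p0)
    apply Finset.sum_le_sum_of_subset_of_nonneg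
    · intro p hp
      exact (mem_Psm hp).2
    · intro _ _ _
      positivity
  have h4 : ∑ p ∈ Psm p0, -((p : ℂ) ^ (-(σ + I * t : ℂ))
        + (1 / 2) * ((p : ℂ) ^ (-(σ + I * t : ℂ))) ^ 2).re = -(R0 p0 (σ + I * t)) := by
    rw [Finset.sum_neg_distrib, R0, Complex.re_sum]
    congr 1
    refine Finset.sum_congr rfl fun p hp => ?_
    congr 3
    rw [← Complex.cpow_nat_mul]
    congr 1
    push_cast
    ring
  rw [h4]
  linarith

lemma norm_Dsm_ge (p0 : ℕ) {σ : ℝ} (hσ : 1 / 2 ≤ σ) (t : ℝ) :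
    Real.exp (-(7 * Real.sqrt p0)) ≤ ‖evs (σ + I * t) (Dsm p0)‖ := by
  rw [norm_Dsm_eq]
  have h1 : ∏ p ∈ Psm p0, Real.exp (-(3.5 * (Real.sqrt p)⁻¹))
      ≤ ∏ p ∈ Psm p0, ‖1 - (p : ℂ) ^ (-(σ + I * t : ℂ))‖ := by
    refine Finset.prod_le_prod (fun _ _ => (Real.exp_pos _).le) fun p hp => ?_
    obtain ⟨hpp, -⟩ := mem_Psm hp
    refine le_trans ?_ (norm_one_sub_ge (norm_w_le' hpp hσ t))
    apply Real.exp_le_exp.mpr
    have := norm_w_le hpp hσ t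
    linarith
  refine le_trans ?_ h1
  rw [← Real.exp_sum]
  apply Real.exp_le_exp.mpr
  rw [Finset.sum_neg_distrib, ← Finset.mul_sum]
  have h3 : ∑ p ∈ Psm p0, (Real.sqrt p)⁻¹ ≤ 2 * Real.sqrt p0 := by
    refine le_trans ?_ (MP_f9aece_nt_h22.sum_inv_sqrt p0)
    apply Finset.sum_le_sum_of_subset_of_nonneg
    · intro p hp
      exact (mem_Psm hp).2
    · intro _ _ _
      positivity
  linarith

/-- the product bound for small prime sums -/
lemma prod_boundR {m : ℕ} (hm : 4000 ≤ m) (p0 : ℕ) {k : ℝ} (hk0 : 0 < k) (hk : k ≤ 1 / 4) (Y : ℝ) (J : ℕ)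
    (σ t : ℝ)
    (hbig : ∀ j ∈ Finset.range J, ‖Pj p0 Y σ j t‖ ≤ (Mm m j : ℝ) / 10) :
    0 < ‖evs (σ + I * t) (Bm m p0 k Y J)‖ ∧
    ‖evs (σ + I * t) (Dm m p0 (1 - k) Y J)‖ ^ (2 * k) * ‖evs (σ + I * t) (Bm m p0 k Y J)‖ ^ (2 * (1 - k))
      ≤ ‖evs (σ + I * t) (Dsm p0)‖ ^ (2 * k) * Real.exp (4 * (1 / 2) ^ m) := by
  have hMpos : ∀ j, (0 : ℝ) < Mm m j := fun j => by
    have := Mm_add_le (m := m) (by omega) j
    exact_mod_cast (by omega : 0 < Mm m j)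
  have hsmall : ∀ j ∈ Finset.range J, ‖Pj p0 Y σ j t‖ ≤ ((Mm m j + 1 : ℕ) : ℝ) / 10 := by
    intro j hj
    refine (hbig j hj).trans ?_
    push_cast
    linarith
  have hBeq : ‖evs (σ + I * t) (Bm m p0 k Y J)‖
      = ∏ j ∈ Finset.range J, ‖EE (Mm m j) (k * Pj p0 Y σ j t)‖ := by
    change ‖evs (σ + I * t) (DD m p0 k Y J)‖ = _
    rw [evs_DD, norm_prod]
    rfl
  have hDeq : ‖evs (σ + I * t) (Dm m p0 (1 - k) Y J)‖ = ‖evs (σ + I * t) (Dsm p0)‖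
      * ∏ j ∈ Finset.range J, ‖EE (Mm m j) ((-(1 - k) : ℝ) * Pj p0 Y σ j t)‖ := by
    change ‖evs (σ + I * t) (Dsm p0 * DD m p0 (-(1 - k)) Y J)‖ = _
    rw [evs_mul, norm_mul, evs_DD, norm_prod]
    rfl
  have hk1 : |k| ≤ 1 := by rw [abs_of_pos hk0]; linarith
  have ha1 : |-(1 - k)| ≤ 1 := by rw [abs_neg, abs_of_nonneg (by linarith)]; linarith
  have hM1 : ∀ j, 1 ≤ Mm m j := fun j => by exact_mod_cast hMpos j
  refine ⟨?_, ?_⟩
  · rw [hBeq]
    refine Finset.prod_pos fun j hj => ?_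
    have h1 := norm_EE_ge hk1 (hsmall j hj)
    have h2 := dl_le (hM1 j)
    have h3 := dl_pos (Mm m j)
    refine lt_of_lt_of_le ?_ h1
    rw [abs_of_pos hk0]
    have : k * MP_f9aece_nt_h97.dl (Mm m j) ≤ 1 / 4 * (1 / 4) := by gcongr
    have : 0 < 1 - k * MP_f9aece_nt_h97.dl (Mm m j) := by linarith
    positivity
  · rw [hBeq, hDeq, Real.mul_rpow (norm_nonneg _) (Finset.prod_nonneg fun _ _ => norm_nonneg _),
      ← Real.finsetProd_rpow _ _ (fun _ _ => norm_nonneg _),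
      ← Real.finsetProd_rpow _ _ (fun _ _ => norm_nonneg _), mul_assoc, ← Finset.prod_mul_distrib]
    have h1 : ∏ j ∈ Finset.range J, (‖EE (Mm m j) ((-(1 - k) : ℝ) * Pj p0 Y σ j t)‖ ^ (2 * k)
        * ‖EE (Mm m j) (k * Pj p0 Y σ j t)‖ ^ (2 * (1 - k)))
        ≤ ∏ j ∈ Finset.range J, Real.exp (2 * MP_f9aece_nt_h97.dl (Mm m j)) := by
      refine Finset.prod_le_prod (fun _ _ => by positivity) fun j hj => ?_
      have u1 := norm_EE_le_exp ha1 (hsmall j hj)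
      have u2 := norm_EE_le_exp hk1 (hsmall j hj)
      set x := (Pj p0 Y σ j t).re
      set d := MP_f9aece_nt_h97.dl (Mm m j) with hd
      have hd0 : 0 < d := dl_pos _
      have v1 : ‖EE (Mm m j) ((-(1 - k) : ℝ) * Pj p0 Y σ j t)‖ ≤ Real.exp (d + -(1 - k) * x) := by
        rw [Real.exp_add]
        refine u1.trans ?_
        gcongr
        linarith [Real.add_one_le_exp d]
      have v2 : ‖EE (Mm m j) (k * Pj p0 Y σ j t)‖ ≤ Real.exp (d + k * x) := by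
        rw [Real.exp_add]
        refine u2.trans ?_
        gcongr
        linarith [Real.add_one_le_exp d]
      calc ‖EE (Mm m j) ((-(1 - k) : ℝ) * Pj p0 Y σ j t)‖ ^ (2 * k)
            * ‖EE (Mm m j) (k * Pj p0 Y σ j t)‖ ^ (2 * (1 - k))
          ≤ Real.exp (d + -(1 - k) * x) ^ (2 * k) * Real.exp (d + k * x) ^ (2 * (1 - k)) := by
            apply mul_le_mul (Real.rpow_le_rpow (norm_nonneg _) v1 (by linarith))
              (Real.rpow_le_rpow (norm_nonneg _) v2 (by linarith)) (by positivity) (by positivity)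
        _ = Real.exp (2 * d) := by
            rw [← Real.exp_mul, ← Real.exp_mul, ← Real.exp_add]
            congr 1
            ring
    have h2 : ∏ j ∈ Finset.range J, Real.exp (2 * MP_f9aece_nt_h97.dl (Mm m j))
        ≤ Real.exp (4 * (1 / 2) ^ m) := by
      rw [← Real.exp_sum, ← Finset.mul_sum]
      apply Real.exp_le_exp.mpr
      have := sum_dl_le (m := m) (by omega) J
      linarith
    exact mul_le_mul_of_nonneg_left (h1.trans h2) (by positivity)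

/-- **The pointwise inequality with the small prime sum.** -/
lemma pointwise_R (m p0 : ℕ) (hm : 4000 ≤ m) {k : ℝ} (hk0 : 0 < k) (hk : k ≤ 1 / 4)
    (hkp : 14 * k * Real.sqrt p0 ≤ 1) (Y : ℝ) (J : ℕ) {σ : ℝ} (hσ : 1 / 2 ≤ σ) (t : ℝ) (z : ℂ) :
    (1 - 2 * k) * Real.exp (-(4 * (1 / 2) ^ m) - 8 * k) *
        (‖evs (σ + I * t) (Bm m p0 k Y J)‖ ^ 2 * (1 + 2 * k * R0 p0 (σ + I * t)))
      - 3 * (∑ j ∈ Finset.range J, ‖evs (σ + I * t) (Bm m p0 k Y J)‖ ^ 2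
          * (‖Pj p0 Y σ j t‖ / ((Mm m j : ℝ) / 10)) ^ (2 * Mm m j))
      - 12 * ‖z * evs (σ + I * t) (Dm m p0 (1 - k) Y J) - evs (σ + I * t) (Bm m p0 k Y J)‖ ^ 2
      ≤ ‖z‖ ^ (2 * k) := by
  rw [← Finset.mul_sum]
  set B := evs (σ + I * t) (Bm m p0 k Y J) with hB
  set D := evs (σ + I * t) (Dm m p0 (1 - k) Y J) with hD
  set Ds := evs (σ + I * t) (Dsm p0) with hDs
  set R := R0 p0 (σ + I * t) with hR
  set Q := ∑ j ∈ Finset.range J, (‖Pj p0 Y σ j t‖ / ((Mm m j : ℝ) / 10)) ^ (2 * Mm m j) with hQ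
  have hMpos : ∀ j, (0 : ℝ) < Mm m j := fun j => by
    have := Mm_add_le (m := m) (by omega) j
    exact_mod_cast (by omega : 0 < Mm m j)
  have hterm : ∀ j, 0 ≤ (‖Pj p0 Y σ j t‖ / ((Mm m j : ℝ) / 10)) ^ (2 * Mm m j) := fun j => by
    have := hMpos j
    positivity
  have hQ0 : 0 ≤ Q := Finset.sum_nonneg fun j _ => hterm j
  have hrhs : 0 ≤ ‖z‖ ^ (2 * k) := by positivity
  have hB2 : 0 ≤ ‖B‖ ^ 2 := by positivity
  have hE2 : 0 ≤ ‖z * D - B‖ ^ 2 := by positivity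
  have hDsge : Real.exp (-(7 * Real.sqrt p0)) ≤ ‖Ds‖ := norm_Dsm_ge p0 hσ t
  have hDsle : ‖Ds‖ ≤ Real.exp (-R + 4) := norm_Dsm_le_exp p0 hσ t
  have hDspos : 0 < ‖Ds‖ := (Real.exp_pos _).trans_le hDsge
  set α := ‖Ds‖ ^ (-(2 * k)) * Real.exp (-(4 * (1 / 2) ^ m)) with hα
  have hα0 : 0 < α := by positivity
  have hα3 : α ≤ 3 := by
    have h1 : ‖Ds‖ ^ (-(2 * k)) ≤ Real.exp 1 := by
      calc ‖Ds‖ ^ (-(2 * k)) ≤ (Real.exp (-(7 * Real.sqrt p0))) ^ (-(2 * k)) :=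
            Real.rpow_le_rpow_of_nonpos (Real.exp_pos _) hDsge (by linarith)
        _ = Real.exp (14 * k * Real.sqrt p0) := by
            rw [← Real.exp_mul]
            congr 1
            ring
        _ ≤ _ := Real.exp_le_exp.mpr hkp
    have h2 : Real.exp (-(4 * (1 / 2) ^ m)) ≤ 1 := by
      apply Real.exp_le_one_iff.mpr
      have : (0 : ℝ) ≤ 4 * (1 / 2) ^ m := by positivity
      linarith
    have h3 := Real.exp_one_lt_d9
    calc α ≤ Real.exp 1 * 1 := mul_le_mul h1 h2 (Real.exp_pos _).le (Real.exp_pos _).le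
      _ ≤ 3 := by linarith
  have hαR : Real.exp (-(4 * (1 / 2) ^ m) - 8 * k) * (1 + 2 * k * R) ≤ α := by
    have h1 : Real.exp (2 * k * R - 8 * k) ≤ ‖Ds‖ ^ (-(2 * k)) := by
      calc Real.exp (2 * k * R - 8 * k) = (Real.exp (-R + 4)) ^ (-(2 * k)) := by
            rw [← Real.exp_mul]
            congr 1
            ring
        _ ≤ _ := Real.rpow_le_rpow_of_nonpos hDspos hDsle (by linarith)
    have h2 : 1 + 2 * k * R ≤ Real.exp (2 * k * R) := by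
      have := Real.add_one_le_exp (2 * k * R)
      linarith
    calc Real.exp (-(4 * (1 / 2) ^ m) - 8 * k) * (1 + 2 * k * R)
        ≤ Real.exp (-(4 * (1 / 2) ^ m) - 8 * k) * Real.exp (2 * k * R) := by gcongr
      _ = Real.exp (2 * k * R - 8 * k) * Real.exp (-(4 * (1 / 2) ^ m)) := by
          rw [← Real.exp_add, ← Real.exp_add]
          congr 1
          ring
      _ ≤ α := mul_le_mul_of_nonneg_right h1 (Real.exp_pos _).le
  have hk2 : 0 ≤ 1 - 2 * k := by linarith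
  have hlead : (1 - 2 * k) * Real.exp (-(4 * (1 / 2) ^ m) - 8 * k) * (‖B‖ ^ 2 * (1 + 2 * k * R))
      ≤ α * ((1 - 2 * k) * ‖B‖ ^ 2) := by
    calc (1 - 2 * k) * Real.exp (-(4 * (1 / 2) ^ m) - 8 * k) * (‖B‖ ^ 2 * (1 + 2 * k * R))
        = (Real.exp (-(4 * (1 / 2) ^ m) - 8 * k) * (1 + 2 * k * R)) * ((1 - 2 * k) * ‖B‖ ^ 2) := by ring
      _ ≤ _ := mul_le_mul_of_nonneg_right hαR (by positivity)
  by_cases hbig : ∃ j ∈ Finset.range J, (Mm m j : ℝ) / 10 < ‖Pj p0 Y σ j t‖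
  · obtain ⟨j, hj, hj1⟩ := hbig
    have h1 : 1 ≤ Q := by
      have h2 : 1 ≤ (‖Pj p0 Y σ j t‖ / ((Mm m j : ℝ) / 10)) ^ (2 * Mm m j) := by
        apply one_le_pow₀
        rw [le_div_iff₀ (by have := hMpos j; positivity)]
        linarith
      exact h2.trans (Finset.single_le_sum (fun i _ => hterm i) hj)
    refine le_trans ?_ hrhs
    have h2 : α * ((1 - 2 * k) * ‖B‖ ^ 2) ≤ 3 * (‖B‖ ^ 2 * Q) := by
      calc α * ((1 - 2 * k) * ‖B‖ ^ 2) ≤ 3 * (1 * ‖B‖ ^ 2) :=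
            mul_le_mul hα3 (mul_le_mul_of_nonneg_right (by linarith) hB2)
              (mul_nonneg hk2 hB2) (by norm_num)
        _ = 3 * (‖B‖ ^ 2 * 1) := by ring
        _ ≤ 3 * (‖B‖ ^ 2 * Q) :=
            mul_le_mul_of_nonneg_left (mul_le_mul_of_nonneg_left h1 hB2) (by norm_num)
    linarith
  · push Not at hbig
    obtain ⟨hBpos, hprod⟩ := prod_boundR hm p0 hk0 hk Y J σ t hbig
    have hu := scalar_tilt (x := ‖z * D / B‖) (y := ‖z * D / B - 1‖) hk0 hk (norm_nonneg _) (by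
      have := abs_norm_sub_norm_le (z * D / B) 1
      rwa [norm_one] at this)
    have hB0 : B ≠ 0 := norm_pos_iff.mp hBpos
    have e1 : ‖z * D / B - 1‖ = ‖z * D - B‖ / ‖B‖ := by
      rw [← norm_div]
      congr 1
      field_simp
    have e2 : ‖z * D / B‖ = ‖z‖ * ‖D‖ / ‖B‖ := by rw [norm_div, norm_mul]
    rw [e1, e2] at hu
    have h5 : (1 - 2 * k) * ‖B‖ ^ 2 - 4 * ‖z * D - B‖ ^ 2
        ≤ ‖z‖ ^ (2 * k) * (‖D‖ ^ (2 * k) * ‖B‖ ^ (2 * (1 - k))) := by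
      calc (1 - 2 * k) * ‖B‖ ^ 2 - 4 * ‖z * D - B‖ ^ 2
          = (1 - 2 * k - 4 * (‖z * D - B‖ / ‖B‖) ^ 2) * ‖B‖ ^ 2 := by
            field_simp
        _ ≤ (‖z‖ * ‖D‖ / ‖B‖) ^ (2 * k) * ‖B‖ ^ 2 := mul_le_mul_of_nonneg_right hu hB2
        _ = _ := by
            rw [Real.div_rpow (by positivity) (by positivity), Real.mul_rpow (by positivity) (by positivity)]
            have e3 : ‖B‖ ^ (2 * (1 - k)) = ‖B‖ ^ 2 / ‖B‖ ^ (2 * k) := by
              rw [← Real.rpow_natCast ‖B‖ 2, ← Real.rpow_sub hBpos]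
              congr 1
              push_cast
              ring
            rw [e3]
            ring
    have h6 : α * ((1 - 2 * k) * ‖B‖ ^ 2 - 4 * ‖z * D - B‖ ^ 2) ≤ ‖z‖ ^ (2 * k) := by
      calc α * ((1 - 2 * k) * ‖B‖ ^ 2 - 4 * ‖z * D - B‖ ^ 2)
          ≤ α * (‖z‖ ^ (2 * k) * (‖Ds‖ ^ (2 * k) * Real.exp (4 * (1 / 2) ^ m))) :=
            mul_le_mul_of_nonneg_left (h5.trans (mul_le_mul_of_nonneg_left hprod hrhs)) hα0.le
        _ = (‖Ds‖ ^ (-(2 * k)) * ‖Ds‖ ^ (2 * k))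
              * (Real.exp (-(4 * (1 / 2) ^ m)) * Real.exp (4 * (1 / 2) ^ m)) * ‖z‖ ^ (2 * k) := by
            rw [hα]; ring
        _ = ‖z‖ ^ (2 * k) := by
            rw [← Real.rpow_add hDspos, ← Real.exp_add]
            simp
    have h7 : α * (4 * ‖z * D - B‖ ^ 2) ≤ 12 * ‖z * D - B‖ ^ 2 := by
      calc α * (4 * ‖z * D - B‖ ^ 2) ≤ 3 * (4 * ‖z * D - B‖ ^ 2) :=
            mul_le_mul_of_nonneg_right hα3 (mul_nonneg (by norm_num) hE2)
        _ = _ := by ring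
    have h8 : 0 ≤ 3 * (‖B‖ ^ 2 * Q) := mul_nonneg (by norm_num) (mul_nonneg hB2 hQ0)
    have h9 : α * ((1 - 2 * k) * ‖B‖ ^ 2 - 4 * ‖z * D - B‖ ^ 2)
        = α * ((1 - 2 * k) * ‖B‖ ^ 2) - α * (4 * ‖z * D - B‖ ^ 2) := by ring
    rw [h9] at h6
    linarith

end Pool.Agent.Lib.U2.H29

namespace Pool.Agent.Lib.U2

open MeasureTheory Set Filter Topology Complex
open Pool.Agent.Lib.MP_f9aece_nt Pool.Agent.Lib.MP_f9aece_nt_h97 Pool.Agent.Lib.MP_f9aece_nt_h5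
open H29

/-- **The integrated inequality.** -/
theorem tiltR : TiltR := by
  intro m p0 hm _ k hk0 hk hkp Y J σ hσ hσ1 T hT
  set c1 := (1 - 2 * k) * Real.exp (-(4 * (1 / 2) ^ m) - 8 * k) with hc1
  have hσ0 : 0 < σ := by linarith
  have cz := continuous_zeta_line hσ1
  have cD := continuous_evs_line hσ0 (Dm m p0 (1 - k) Y J)
  have cB := continuous_evs_line hσ0 (Bm m p0 k Y J)
  have cP : ∀ j, Continuous (fun t : ℝ => Pj p0 Y σ j t) := by
    intro j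
    unfold Pj
    refine continuous_finsetSum _ fun p hp => ?_
    refine Continuous.const_cpow (by fun_prop) ?_
    left
    exact_mod_cast (sc_prime hp).ne_zero
  have cR : Continuous (fun t : ℝ => R0 p0 (σ + I * t)) := by
    unfold R0
    refine Complex.continuous_re.comp (continuous_finsetSum _ fun p hp => ?_)
    have hpp := (mem_Psm hp).1
    have hne : (p : ℂ) ≠ 0 := by exact_mod_cast hpp.ne_zero
    refine Continuous.add ?_ (Continuous.mul continuous_const ?_)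
    · exact Continuous.const_cpow (by fun_prop) (Or.inl hne)
    · exact Continuous.const_cpow (by fun_prop) (Or.inl hne)
  have cB2 : Continuous (fun t : ℝ => ‖evs (σ + I * t) (Bm m p0 k Y J)‖ ^ 2) := cB.norm.pow 2
  have cBR : Continuous (fun t : ℝ => ‖evs (σ + I * t) (Bm m p0 k Y J)‖ ^ 2
      * (1 + 2 * k * R0 p0 (σ + I * t))) :=
    cB2.mul (continuous_const.add (continuous_const.mul cR))
  have cQ : ∀ j, Continuous (fun t : ℝ => ‖evs (σ + I * t) (Bm m p0 k Y J)‖ ^ 2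
      * (‖Pj p0 Y σ j t‖ / ((Mm m j : ℝ) / 10)) ^ (2 * Mm m j)) :=
    fun j => cB2.mul (((cP j).norm.div_const _).pow _)
  have cQs : Continuous (fun t : ℝ => ∑ j ∈ Finset.range J, ‖evs (σ + I * t) (Bm m p0 k Y J)‖ ^ 2
      * (‖Pj p0 Y σ j t‖ / ((Mm m j : ℝ) / 10)) ^ (2 * Mm m j)) :=
    continuous_finsetSum _ fun j _ => cQ j
  have cZ : Continuous (fun t : ℝ => ‖riemannZeta (σ + I * t) * evs (σ + I * t) (Dm m p0 (1 - k) Y J)
          - evs (σ + I * t) (Bm m p0 k Y J)‖ ^ 2) := ((cz.mul cD).sub cB).norm.pow 2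
  have e1 : c1 * (∫ t in (0 : ℝ)..T, ‖evs (σ + I * t) (Bm m p0 k Y J)‖ ^ 2
          * (1 + 2 * k * R0 p0 (σ + I * t)))
      - 3 * (∑ j ∈ Finset.range J, ∫ t in (0 : ℝ)..T, ‖evs (σ + I * t) (Bm m p0 k Y J)‖ ^ 2
          * (‖Pj p0 Y σ j t‖ / ((Mm m j : ℝ) / 10)) ^ (2 * Mm m j))
      - 12 * ∫ t in (0 : ℝ)..T, ‖riemannZeta (σ + I * t) * evs (σ + I * t) (Dm m p0 (1 - k) Y J)
          - evs (σ + I * t) (Bm m p0 k Y J)‖ ^ 2
      = ∫ t in (0 : ℝ)..T, (c1 * (‖evs (σ + I * t) (Bm m p0 k Y J)‖ ^ 2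
          * (1 + 2 * k * R0 p0 (σ + I * t)))
        - 3 * (∑ j ∈ Finset.range J, ‖evs (σ + I * t) (Bm m p0 k Y J)‖ ^ 2
          * (‖Pj p0 Y σ j t‖ / ((Mm m j : ℝ) / 10)) ^ (2 * Mm m j))
        - 12 * ‖riemannZeta (σ + I * t) * evs (σ + I * t) (Dm m p0 (1 - k) Y J)
          - evs (σ + I * t) (Bm m p0 k Y J)‖ ^ 2) := by
    rw [intervalIntegral.integral_sub, intervalIntegral.integral_sub,
      intervalIntegral.integral_const_mul, intervalIntegral.integral_const_mul,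
      intervalIntegral.integral_const_mul, intervalIntegral.integral_finsetSum]
    · exact fun j _ => (cQ j).intervalIntegrable _ _
    · exact (cBR.const_mul _).intervalIntegrable _ _
    · exact (cQs.const_mul _).intervalIntegrable _ _
    · exact ((cBR.const_mul _).sub (cQs.const_mul _)).intervalIntegrable _ _
    · exact (cZ.const_mul _).intervalIntegrable _ _
  rw [e1]
  refine intervalIntegral.integral_mono_on hT ?_ ?_ ?_
  · exact (((cBR.const_mul _).sub (cQs.const_mul _)).sub (cZ.const_mul _)).intervalIntegrable _ _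
  · exact (cz.norm.rpow_const fun _ => Or.inr (by linarith)).intervalIntegrable _ _
  · intro t _
    exact pointwise_R m p0 hm hk0 hk hkp Y J hσ t (riemannZeta (σ + I * t))

end Pool.Agent.Lib.U2
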