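import Mathlib
import Pool.Agent.Lib.MP_f9aece_nt_u2.Stmts
import Pool.Agent.Lib.MP_f9aece_nt_u2.MeanBU
import Pool.Agent.Lib.MP_f9aece_nt_h40.Transfer
import Pool.Agent.Lib.MP_f9aece_nt_h97.OffG

/-!
Lower bound with a linear rate for the moments with small exponents.
-/

set_option autoImplicit false

namespace Pool.Agent.Lib.U2

open MeasureTheory Set Filter Topology Complex
open Pool.Agent.Lib.MP_f9aece_nt Pool.Agent.Lib.MP_f9aece_nt_h97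

namespace SL

lemma log_le_two_sqrt {y : ℝ} (hy : 0 < y) : Real.log y ≤ 2 * Real.sqrt y := by
  have h1 : 0 < Real.sqrt y := Real.sqrt_pos.mpr hy
  have h2 := Real.log_le_sub_one_of_pos h1
  have h3 : Real.log y = 2 * Real.log (Real.sqrt y) := by
    rw [Real.log_sqrt hy.le]; ring
  linarith

/-- bookkeeping -/
lemma num1 {k TE IB IR SB IZ I0 em E2 q : ℝ} (hk0 : 0 < k) (hk : k ≤ 1 / 100) (hTE : 0 ≤ TE)
    (hq : 1 - 9 * k ≤ q)
    (hem0 : 0 ≤ em) (hem : em ≤ k) (hE2 : E2 ≤ k / 4)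
    (hIB : TE * (1 - em) ≤ IB) (hIR : -(em * TE) ≤ IR) (hSB : SB ≤ TE * (E2 + em))
    (hIZ : IZ ≤ k * TE)
    (h : (1 - 2 * k) * q * (IB + 2 * k * IR) - 3 * SB - 12 * IZ ≤ I0) :
    (1 - 29 * k) * TE ≤ I0 := by
  have a1 : TE * (1 - 2 * k) ≤ IB + 2 * k * IR := by
    have b1 : em * TE ≤ k * TE := by gcongr
    have b2 : 2 * k * -(em * TE) ≤ 2 * k * IR := by gcongr
    have b3 : 2 * k * (em * TE) ≤ 1 * (k * TE) := by
      have : 2 * k ≤ 1 := by linarith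
      have : 0 ≤ em * TE := by positivity
      gcongr
    nlinarith
  have c0 : 0 ≤ 1 - 2 * k := by linarith
  have c1 : 0 ≤ 1 - 9 * k := by linarith
  have a2 : (1 - 2 * k) * (1 - 9 * k) * (TE * (1 - 2 * k)) ≤ (1 - 2 * k) * q * (IB + 2 * k * IR) := by
    have : 0 ≤ TE * (1 - 2 * k) := mul_nonneg hTE c0
    have hq0 : 0 ≤ (1 - 2 * k) * q := mul_nonneg c0 (by linarith)
    gcongr
  have a3 : (1 - 13 * k) * TE ≤ (1 - 2 * k) * (1 - 9 * k) * (TE * (1 - 2 * k)) := by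
    have b1 : 1 - 13 * k ≤ (1 - 2 * k) * (1 - 9 * k) * (1 - 2 * k) := by
      have e : (1 - 2 * k) * (1 - 9 * k) * (1 - 2 * k) = 1 - 13 * k + k ^ 2 * (40 - 36 * k) := by ring
      have : 0 ≤ k ^ 2 * (40 - 36 * k) := by
        have : 0 ≤ 40 - 36 * k := by linarith
        positivity
      linarith
    calc (1 - 13 * k) * TE ≤ ((1 - 2 * k) * (1 - 9 * k) * (1 - 2 * k)) * TE := by gcongr
      _ = _ := by ring
  have a4 : SB ≤ TE * (5 / 4 * k) := by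
    refine hSB.trans ?_
    gcongr
    linarith
  nlinarith

lemma kinv {k L : ℝ} (hLp : 0 < L) (hkp : 0 < k) (hkl : L ^ (-(1 / 8) : ℝ) ≤ k) : 1 / k ≤ L ^ (1 / 8 : ℝ) := by
  rw [div_le_iff₀ hkp]
  calc (1 : ℝ) = L ^ (1 / 8 : ℝ) * L ^ (-(1 / 8) : ℝ) := by
        rw [← Real.rpow_add hLp]; norm_num
    _ ≤ L ^ (1 / 8 : ℝ) * k := by gcongr

lemma Y_ge {k L A1 m : ℝ} (hLp : 0 < L) (hkp : 0 < k) (hA1 : 1 ≤ A1) (hm : 0 < m) (hmA : m ≤ A1 / k)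
    (hkinv : 1 / k ≤ L ^ (1 / 8 : ℝ)) (hl1 : 160 * A1 ^ 2 * L ^ (1 / 2 : ℝ) ≤ L) :
    A1 / k ^ 3 ≤ L / (160 * m) := by
  have hkinv0 : 0 < 1 / k := by positivity
  have hk4 : 1 / k ^ 4 ≤ L ^ (1 / 2 : ℝ) := by
    calc 1 / k ^ 4 = (1 / k) ^ 4 := by rw [div_pow, one_pow]
      _ ≤ (L ^ (1 / 8 : ℝ)) ^ 4 := by gcongr
      _ = L ^ (1 / 2 : ℝ) := by
          rw [← Real.rpow_natCast, ← Real.rpow_mul hLp.le]; norm_num
  rw [le_div_iff₀ (by positivity)]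
  calc A1 / k ^ 3 * (160 * m) ≤ A1 / k ^ 3 * (160 * (A1 / k)) := by gcongr
    _ = 160 * A1 ^ 2 * (1 / k ^ 4) := by field_simp
    _ ≤ 160 * A1 ^ 2 * L ^ (1 / 2 : ℝ) := by gcongr
    _ ≤ L := hl1

lemma p_le {k L A1 A2 m p : ℝ} (hLp : 0 < L) (hkp : 0 < k) (hA1 : 1 ≤ A1) (hA2 : 1 ≤ A2) (hm : 0 < m)
    (hmA : m ≤ A1 / k) (hp : 0 ≤ p) (hpA : p ≤ A1 / k)
    (hkinv : 1 / k ≤ L ^ (1 / 8 : ℝ)) (hl1 : 160 * A1 ^ 2 * L ^ (1 / 2 : ℝ) ≤ L)
    (hl2 : A2 * A1 ^ 2 ≤ L ^ (1 / 8 : ℝ)) : A2 * p ^ 2 ≤ L / (160 * m) := by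
  have hkinv0 : 0 < 1 / k := by positivity
  have hL8 : 0 < L ^ (1 / 8 : ℝ) := by positivity
  calc A2 * p ^ 2 ≤ A2 * (A1 / k) ^ 2 := by gcongr
    _ = A2 * A1 ^ 2 * (1 / k) * (1 / k) := by field_simp
    _ ≤ L ^ (1 / 8 : ℝ) * (1 / k) * (1 / k) := by gcongr
    _ ≤ _ := by
        have h1 : L ^ (1 / 8 : ℝ) * (1 / k) * (1 / k) ≤ L ^ (1 / 8 : ℝ) * L ^ (1 / 8 : ℝ) * L ^ (1 / 8 : ℝ) := by
          gcongr
        have h2 : L ^ (1 / 8 : ℝ) * L ^ (1 / 8 : ℝ) * L ^ (1 / 8 : ℝ) = L ^ (3 / 8 : ℝ) := by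
          rw [← Real.rpow_add hLp, ← Real.rpow_add hLp]; norm_num
        refine h1.trans ?_
        rw [h2, le_div_iff₀ (by positivity)]
        calc L ^ (3 / 8 : ℝ) * (160 * m) ≤ L ^ (3 / 8 : ℝ) * (160 * (A1 / k)) := by gcongr
          _ = 160 * A1 * (L ^ (3 / 8 : ℝ) * (1 / k)) := by ring
          _ ≤ 160 * A1 * (L ^ (3 / 8 : ℝ) * L ^ (1 / 8 : ℝ)) := by gcongr
          _ = 160 * A1 * L ^ (1 / 2 : ℝ) := by rw [← Real.rpow_add hLp]; norm_num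
          _ ≤ 160 * A1 ^ 2 * L ^ (1 / 2 : ℝ) := by
              have : A1 ≤ A1 ^ 2 := by nlinarith
              gcongr
          _ ≤ L := hl1

lemma sqrt_small {k A1 p : ℝ} (hkp : 0 < k) (hA1 : 1 ≤ A1) (hpA : p ≤ A1 / k) (hkk : k * (200 * A1) ≤ 1) :
    14 * k * Real.sqrt p ≤ 1 := by
  have h1 : Real.sqrt p ≤ Real.sqrt (A1 / k) := Real.sqrt_le_sqrt hpA
  have h2 : (k * Real.sqrt (A1 / k)) ^ 2 = k * A1 := by
    rw [mul_pow, Real.sq_sqrt (by positivity)]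
    field_simp
  have h3 : k * Real.sqrt (A1 / k) ≤ 1 / 14 := by
    apply le_of_sq_le_sq _ (by norm_num)
    rw [h2]
    nlinarith
  have h4 : k * Real.sqrt p ≤ k * Real.sqrt (A1 / k) := by gcongr
  linarith

lemma E_size {k L A1 Λ c E : ℝ} (hLp : 0 < L) (hkp : 0 < k) (hA1 : 1 ≤ A1) (hΛ1 : 1 ≤ Λ)
    (hΛA : Λ ≤ A1 / k ^ 2) (hcA : c ≤ A1 / k)
    (h : (L / Λ) ^ (k ^ 2) * Real.exp (-(k ^ 2 * c) - k) ≤ E) :
    L ^ (k ^ 2) * (1 - (3 * A1 + 1) * k) ≤ E := by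
  refine le_trans ?_ h
  have hlogΛ : Real.log Λ ≤ 2 * (A1 / k) := by
    have h1 := log_le_two_sqrt (show 0 < Λ by linarith)
    have h2 : Real.sqrt Λ ≤ A1 / k := by
      rw [Real.sqrt_le_left (by positivity)]
      refine hΛA.trans ?_
      rw [div_pow]
      have : A1 ≤ A1 ^ 2 := by nlinarith
      gcongr
    linarith
  have e1 : (L / Λ) ^ (k ^ 2) = L ^ (k ^ 2) * Real.exp (-(k ^ 2 * Real.log Λ)) := by
    rw [Real.div_rpow hLp.le (by linarith), Real.rpow_def_of_pos (show 0 < Λ by linarith), Real.exp_neg,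
      div_eq_mul_inv, mul_comm (Real.log Λ)]
  rw [e1, mul_assoc, ← Real.exp_add]
  have h3 : 1 - (3 * A1 + 1) * k ≤ Real.exp (-(k ^ 2 * Real.log Λ) + (-(k ^ 2 * c) - k)) := by
    have h4 := Real.add_one_le_exp (-(k ^ 2 * Real.log Λ) + (-(k ^ 2 * c) - k))
    have h5 : k ^ 2 * Real.log Λ ≤ 2 * A1 * k := by
      calc k ^ 2 * Real.log Λ ≤ k ^ 2 * (2 * (A1 / k)) := by gcongr
        _ = 2 * A1 * k := by field_simp
    have h6 : k ^ 2 * c ≤ A1 * k := by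
      calc k ^ 2 * c ≤ k ^ 2 * (A1 / k) := by gcongr
        _ = A1 * k := by field_simp
    linarith
  gcongr

lemma T9 {k L A3 T Z : ℝ} (hT0 : 0 < T) (hL : L = Real.log T) (hLp : 0 < L)
    (hl3 : |A3| * L ^ (1 / 8 : ℝ) ≤ Real.exp (L / 10)) (hkp : 0 < k) (hkl : L ^ (-(1 / 8) : ℝ) ≤ k)
    (hZ : T ≤ Z) : A3 * T ^ (9 / 10 : ℝ) ≤ k * Z := by
  have b1 : T ^ (9 / 10 : ℝ) = T * Real.exp (-(L / 10)) := by
    have h1 : T * Real.exp (-(L / 10)) = Real.exp (L + -(L / 10)) := by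
      rw [Real.exp_add, hL, Real.exp_log hT0]
    rw [h1, Real.rpow_def_of_pos hT0, ← hL]
    congr 1
    ring
  have b2 : |A3| * Real.exp (-(L / 10)) ≤ k := by
    have h1 : |A3| * Real.exp (-(L / 10)) ≤ L ^ (-(1 / 8) : ℝ) := by
      rw [Real.exp_neg, Real.rpow_neg hLp.le]
      rw [← div_eq_mul_inv, div_le_iff₀ (Real.exp_pos _), ← div_eq_inv_mul, le_div_iff₀ (by positivity)]
      exact hl3
    exact h1.trans hkl
  calc A3 * T ^ (9 / 10 : ℝ) ≤ |A3| * T ^ (9 / 10 : ℝ) := by gcongr; exact le_abs_self A3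
    _ = (|A3| * Real.exp (-(L / 10))) * T := by rw [b1]; ring
    _ ≤ k * Z := by gcongr

lemma fin {k A1 C Z TE I0 I1 X : ℝ} (hkp : 0 ≤ k) (h29 : 0 ≤ 1 - 29 * k) (hZ0 : 0 ≤ Z) (hA1 : 1 ≤ A1)
    (hC : C = 3 * A1 + 31) (hTE : (1 - (3 * A1 + 1) * k) * Z ≤ TE) (h1 : (1 - 29 * k) * TE ≤ I1)
    (h2 : I1 ≤ I0 + X) (hX : X ≤ k * Z) : (1 - C * k) * Z ≤ I0 := by
  have f1 : (1 - 29 * k) * ((1 - (3 * A1 + 1) * k) * Z) ≤ (1 - 29 * k) * TE :=
    mul_le_mul_of_nonneg_left hTE h29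
  have f2 : (1 - (29 + (3 * A1 + 1)) * k) * Z ≤ (1 - 29 * k) * ((1 - (3 * A1 + 1) * k) * Z) := by
    have : 0 ≤ 29 * k * ((3 * A1 + 1) * k) * Z := by positivity
    nlinarith
  have f3 : (1 - C * k) * Z = (1 - (29 + (3 * A1 + 1)) * k) * Z - k * Z := by rw [hC]; ring
  rw [f3]
  linarith

lemma J_facts {Y : ℝ} (hYp : 0 < Y) : ((⌈Y⌉₊ + 1 : ℕ) : ℝ) ≤ Y + 3 ∧ Y / 4 ^ (⌈Y⌉₊ + 1) < Real.log 2 := by
  constructor
  · push_cast
    have := (Nat.ceil_lt_add_one hYp.le).le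
    linarith
  · have h1 : Y ≤ (⌈Y⌉₊ : ℝ) := Nat.le_ceil Y
    have h2 : ((⌈Y⌉₊ + 1 : ℕ) : ℝ) ≤ 2 ^ ⌈Y⌉₊ := by exact_mod_cast Nat.lt_two_pow_self
    have h3 : (2 : ℝ) ^ ⌈Y⌉₊ ≤ 4 ^ ⌈Y⌉₊ := by gcongr; norm_num
    have h4 := Real.log_two_gt_d9
    rw [div_lt_iff₀ (by positivity), pow_succ]
    push_cast at h2
    have h5 : (1 : ℝ) ≤ 4 ^ ⌈Y⌉₊ := one_le_pow₀ (by norm_num)
    nlinarith

lemma exp_neg_le {Y k : ℝ} (hYp : 0 < Y) (hk : 0 < k) (hYk : 1 / k ≤ Y) : Real.exp (-Y) ≤ k := by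
  have h1 : Real.exp (-Y) ≤ Y⁻¹ := by
    rw [Real.exp_neg]
    gcongr
    linarith [Real.add_one_le_exp Y]
  refine h1.trans ?_
  rw [inv_le_comm₀ hYp hk]
  simpa using hYk

end SL

theorem smallLower (hO : OffCoreRate) (hR : MeanR) (hT : TiltR) : SmallLower := by
  obtain ⟨A1, hA1, hO⟩ := hO
  obtain ⟨A2, hA2, hR⟩ := hR
  obtain ⟨A3, hA3⟩ := Pool.Agent.Lib.MP_f9aece_nt_h40.transfer
  have hA10 : 0 < A1 := by linarith
  have hk1p : 0 < 1 / (200 * A1) := by positivity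
  -- the threshold
  have hlim1 : ∀ᶠ L : ℝ in atTop, 160 * A1 ^ 2 * L ^ (1 / 2 : ℝ) ≤ L := by
    have h1 := (tendsto_rpow_atTop (show (0 : ℝ) < 1 / 2 by norm_num)).eventually
      (eventually_ge_atTop (160 * A1 ^ 2))
    filter_upwards [h1, eventually_gt_atTop 0] with L h2 h3
    calc 160 * A1 ^ 2 * L ^ (1 / 2 : ℝ) ≤ L ^ (1 / 2 : ℝ) * L ^ (1 / 2 : ℝ) := by gcongr
      _ = L := by rw [← Real.rpow_add h3]; norm_num
  have hlim2 : ∀ᶠ L : ℝ in atTop, A2 * A1 ^ 2 ≤ L ^ (1 / 8 : ℝ) :=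
    (tendsto_rpow_atTop (show (0 : ℝ) < 1 / 8 by norm_num)).eventually (eventually_ge_atTop _)
  have hlim3 : ∀ᶠ L : ℝ in atTop, |A3| * L ^ (1 / 8 : ℝ) ≤ Real.exp (L / 10) := by
    have h1 := (isLittleO_rpow_exp_pos_mul_atTop (1 / 8) (show (0 : ℝ) < 1 / 10 by norm_num)).def
      (show 0 < 1 / (|A3| + 1) by positivity)
    filter_upwards [h1, eventually_ge_atTop 1] with L h2 h3
    have hL0 : 0 ≤ L := by linarith
    have h4 : 0 ≤ L ^ (1 / 8 : ℝ) := by positivity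
    rw [Real.norm_eq_abs, Real.norm_eq_abs, abs_of_nonneg h4, abs_of_pos (Real.exp_pos _),
      div_mul_eq_mul_div, one_mul, le_div_iff₀ (by positivity)] at h2
    have e : (1 / 10 : ℝ) * L = L / 10 := by ring
    rw [e] at h2
    nlinarith
  obtain ⟨L0, hL0⟩ := ((hlim1.and (hlim2.and hlim3)).and (eventually_ge_atTop 2)).exists_forall_of_atTop
  refine ⟨3 * A1 + 31, by positivity, 1 / (200 * A1), hk1p, max 3 (Real.exp L0), le_max_left _ _, ?_⟩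
  intro T hTT k hkl hku
  have hT3 : 3 ≤ T := (le_max_left _ _).trans hTT
  have hT0 : 0 < T := by linarith
  have hLL : L0 ≤ Real.log T := by
    rw [Real.le_log_iff_exp_le hT0]
    exact (le_max_right _ _).trans hTT
  obtain ⟨L, hL⟩ : ∃ L, L = Real.log T := ⟨_, rfl⟩
  rw [← hL] at hLL hkl ⊢
  obtain ⟨⟨hl1, hl2, hl3⟩, hl4⟩ := hL0 L hLL
  clear hL0 hlim1 hlim2 hlim3
  have hLp : 0 < L := by linarith
  have hkp : 0 < k := lt_of_lt_of_le (by positivity) hkl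
  have hkk : k * (200 * A1) ≤ 1 := by
    rwa [le_div_iff₀ (by positivity)] at hku
  have hk200 : 200 * k ≤ 1 := by
    have : 200 * k * 1 ≤ 200 * k * A1 := by gcongr
    linarith
  have hk100 : k ≤ 1 / 100 := by linarith
  have hkinv := SL.kinv hLp hkp hkl
  obtain ⟨m, p0, Λ, c, hm, hp0, hmk, hΛ1, hc0, hmA, hpA, hΛA, hcA, hcore⟩ := hO k hkp hk100
  clear hO
  have hm0 : (4000 : ℝ) ≤ m := by exact_mod_cast hm
  have hmp : (0 : ℝ) < m := by linarith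
  have hYA := SL.Y_ge hLp hkp hA1 hmp hmA hkinv hl1
  have hpY := SL.p_le (p := p0) hLp hkp hA1 hA2 hmp hmA (Nat.cast_nonneg _) hpA hkinv hl1 hl2
  obtain ⟨Y, hY⟩ : ∃ Y, Y = L / (160 * m) := ⟨_, rfl⟩
  rw [← hY] at hYA hpY
  have hXY : 160 * m * Y = L := by rw [hY]; field_simp
  have hk3 : 1 / k ≤ 1 / k ^ 3 := by
    apply one_div_le_one_div_of_le (by positivity)
    calc k ^ 3 ≤ k ^ 1 := pow_le_pow_of_le_one hkp.le (by linarith) (by norm_num)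
      _ = k := pow_one k
  have hYk : 1 / k ≤ Y := by
    refine hk3.trans (le_trans ?_ hYA)
    gcongr
  have hY1 : 1 ≤ Y := by
    refine le_trans ?_ hYk
    rw [le_div_iff₀ hkp]
    linarith
  have hYp : 0 < Y := by linarith
  -- the number of scales
  obtain ⟨hJY, hJ4⟩ := SL.J_facts hYp
  generalize ⌈Y⌉₊ + 1 = J at hJY hJ4
  obtain ⟨hδ4, hElow, hZ⟩ := hcore Y hYA J hJY hJ4 k hkp hk100
  clear hcore
  rw [hXY] at hδ4 hElow hZ
  have hδ0 : 0 < Λ / L := by positivity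
  generalize Λ / L = δ at *
  have hexpL : Real.exp L = T := by rw [hL, Real.exp_log hT0]
  rw [hexpL] at hZ
  obtain ⟨hE1, hB1, hB2⟩ := mean_B_unif m p0 hm (by omega) Y hY1 J hJY k hkp hk100 (1 / 2 + δ) (by linarith)
    (by linarith)
  rw [hXY, hexpL] at hB1 hB2
  have hRR := hR m p0 hm (by omega) Y hY1 hpY J hJY k hkp hk100 (1 / 2 + δ) (by linarith) (by linarith)
  rw [hXY, hexpL] at hRR
  have hsq := SL.sqrt_small hkp hA1 hpA hkk
  have hti := hT m p0 hm (by omega) k hkp (by linarith) hsq Y J (1 / 2 + δ) (by linarith) (by linarith) T hT0.le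
  -- split the integral
  have cB := continuous_evs_line (σ := 1 / 2 + δ) (by linarith) (Bm m p0 k Y J)
  have cR : Continuous (fun t : ℝ => R0 p0 (((1 / 2 + δ : ℝ) : ℂ) + I * t)) := by
    unfold R0
    refine Complex.continuous_re.comp (continuous_finsetSum _ fun p hp => ?_)
    have hp1 : (p : ℂ) ≠ 0 := by
      have : p.Prime := (Finset.mem_filter.mp hp).2
      exact_mod_cast this.ne_zero
    refine Continuous.add ?_ (continuous_const.mul ?_)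
    · exact Continuous.const_cpow (by fun_prop) (Or.inl hp1)
    · exact Continuous.const_cpow (by fun_prop) (Or.inl hp1)
  have hsplit : ∫ t in (0 : ℝ)..T, ‖evs (((1 / 2 + δ : ℝ) : ℂ) + I * t) (Bm m p0 k Y J)‖ ^ 2
        * (1 + 2 * k * R0 p0 (((1 / 2 + δ : ℝ) : ℂ) + I * t))
      = (∫ t in (0 : ℝ)..T, ‖evs (((1 / 2 + δ : ℝ) : ℂ) + I * t) (Bm m p0 k Y J)‖ ^ 2)
        + 2 * k * ∫ t in (0 : ℝ)..T, ‖evs (((1 / 2 + δ : ℝ) : ℂ) + I * t) (Bm m p0 k Y J)‖ ^ 2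
          * R0 p0 (((1 / 2 + δ : ℝ) : ℂ) + I * t) := by
    rw [← intervalIntegral.integral_const_mul, ← intervalIntegral.integral_add]
    · refine intervalIntegral.integral_congr fun t _ => ?_
      ring
    · exact (cB.norm.pow 2).intervalIntegrable _ _
    · exact (continuous_const.mul ((cB.norm.pow 2).mul cR)).intervalIntegrable _ _
  rw [hsplit] at hti
  -- numerical facts
  have hem := SL.exp_neg_le hYp hkp hYk
  have hq : 1 - 9 * k ≤ Real.exp (-(4 * (1 / 2) ^ m) - 8 * k) := by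
    have := Real.add_one_le_exp (-(4 * (1 / 2 : ℝ) ^ m) - 8 * k)
    linarith
  have hElow2 := SL.E_size hLp hkp hA1 hΛ1 hΛA hcA hElow
  -- transfer to the critical line
  have htr := hA3 T (by linarith) δ hδ0 hδ4 (2 * k) (by linarith) (by linarith)
  have e1 : ∫ t in (0 : ℝ)..T, ‖riemannZeta (1 / 2 + (δ : ℂ) + t * I)‖ ^ (2 * k)
      = ∫ t in (0 : ℝ)..T, ‖riemannZeta (((1 / 2 + δ : ℝ) : ℂ) + I * t)‖ ^ (2 * k) := by
    refine intervalIntegral.integral_congr fun t _ => ?_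
    congr 3
    push_cast
    ring
  have e2 : ∫ t in (0 : ℝ)..T, ‖riemannZeta (1 / 2 + t * I)‖ ^ (2 * k) = M0 k T := by
    unfold M0
    refine intervalIntegral.integral_congr fun t _ => ?_
    congr 3
    ring
  rw [e1, e2] at htr
  have hLk : 1 ≤ L ^ (k ^ 2) := Real.one_le_rpow (by linarith) (by positivity)
  generalize BK (K1s (2 * (1 / 2 + δ))) (Bm m p0 k Y J) (Bm m p0 k Y J) = E at *
  have hE0 : 0 ≤ E := by linarith
  generalize (∫ t in (0 : ℝ)..T, ‖riemannZeta (((1 / 2 + δ : ℝ) : ℂ) + I * t)‖ ^ (2 * k)) = I1 at *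
  have hmain := SL.num1 (k := k) (TE := T * E) (em := Real.exp (-Y)) (E2 := (1 / 2) ^ m)
    (q := Real.exp (-(4 * (1 / 2) ^ m) - 8 * k)) hkp hk100 (by positivity) hq (Real.exp_pos _).le hem hmk
    (by linarith only [hB1]) hRR (by linarith only [hB2]) hZ hti
  have hT9 := SL.T9 (Z := T * L ^ (k ^ 2)) hT0 hL hLp hl3 hkp hkl (le_mul_of_one_le_right hT0.le hLk)
  refine SL.fin (A1 := A1) (TE := T * E) (X := A3 * T ^ (9 / 10 : ℝ)) hkp.le (by linarith) (by positivity) hA1 rfl ?_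
    hmain htr hT9
  calc (1 - (3 * A1 + 1) * k) * (T * L ^ (k ^ 2)) = T * (L ^ (k ^ 2) * (1 - (3 * A1 + 1) * k)) := by ring
    _ ≤ T * E := by gcongr

end Pool.Agent.Lib.U2
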